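import Pool.Agent.Helper94.KC.Goals

/-! Project KC, packet LV: in a 4-degenerate graph all 5-colourings are Kempe equivalent
(Las Vergnas and Meyniel). -/

set_option autoImplicit false

namespace Pool.Agent.Helper53.KC

open scoped Classical
open Finset Pool.Agent.Helper94.KC

theorem chain_refl {V : Type} (G : SimpleGraph V) (f : V → Fin 5) (a b : Fin 5) (x : V)
    (hx : f x = a ∨ f x = b) : InChain G f a b x x :=
  ⟨hx, hx, SimpleGraph.Reachable.refl _⟩

theorem chain_mem {V : Type} {G : SimpleGraph V} {f : V → Fin 5} {a b : Fin 5} {x y : V}
    (h : InChain G f a b x y) : f y = a ∨ f y = b := h.2.1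

theorem chain_step {V : Type} {G : SimpleGraph V} {f : V → Fin 5} {a b : Fin 5} {x u v : V}
    (h : InChain G f a b x u) (ha : G.Adj u v) (hv : f v = a ∨ f v = b) :
    InChain G f a b x v := by
  obtain ⟨hx, hu, hr⟩ := h
  refine ⟨hx, hv, hr.trans (SimpleGraph.Adj.reachable ?_)⟩
  simpa using ha

theorem chain_ind {V : Type} {G : SimpleGraph V} {f : V → Fin 5} {a b : Fin 5} {x y : V}
    (P : V → Prop) (h0 : P x)
    (hs : ∀ u v, P u → G.Adj u v → (f v = a ∨ f v = b) → P v)
    (h : InChain G f a b x y) : P y := by
  obtain ⟨hx, hy, ⟨w⟩⟩ := h
  have key : ∀ (p q : {v | f v = a ∨ f v = b})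
      (w : (G.induce {v | f v = a ∨ f v = b}).Walk p q), P p.1 → P q.1 := by
    intro p q w
    induction w with
    | nil => exact fun h => h
    | @cons u v _ hadj _ ih =>
      intro hp
      exact ih (hs u.1 v.1 hp (by simpa using hadj) v.2)
  exact key _ _ w h0

/-- exchange of two colours on a set which is a union of chains -/
theorem un (V : Type) [Fintype V] (G : SimpleGraph V) (a b : Fin 5) : ∀ (n : ℕ)
    (S : Finset V) (f : V → Fin 5), S.card = n → (∀ x ∈ S, f x = a ∨ f x = b) →
    (∀ x ∈ S, ∀ y, G.Adj x y → (f y = a ∨ f y = b) → y ∈ S) →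
    KEq G f (fun y => if y ∈ S then Equiv.swap a b (f y) else f y) := by
  intro n
  induction n using Nat.strong_induction_on with
  | _ n ih =>
    intro S f hn hS hc
    rcases S.eq_empty_or_nonempty with h0 | ⟨x, hx⟩
    · subst h0
      have h1 : (fun y => if y ∈ (∅ : Finset V) then Equiv.swap a b (f y) else f y) = f := by
        funext y
        simp
      rw [h1]
      exact Relation.ReflTransGen.refl
    · set C : Finset V := univ.filter (fun y => InChain G f a b x y) with hC
      have hCm : ∀ y, y ∈ C ↔ InChain G f a b x y := by
        intro y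
        simp [hC]
      have hCS : C ⊆ S := by
        intro y hy
        rw [hCm] at hy
        exact chain_ind (fun v => v ∈ S) hx (fun u v hu ha hv => hc u hu v ha hv) hy
      have hxC : x ∈ C := (hCm x).2 (chain_refl G f a b x (hS x hx))
      let f' : V → Fin 5 := fun y => if y ∈ C then Equiv.swap a b (f y) else f y
      have hstep : KStep G f f' := by
        refine ⟨a, b, x, hS x hx, fun y => ⟨fun h => ?_, fun h => ?_⟩⟩
        · exact if_pos ((hCm y).2 h)
        · exact if_neg (fun h1 => h ((hCm y).1 h1))
      have hM : ∀ y, (f' y = a ∨ f' y = b) ↔ (f y = a ∨ f y = b) := by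
        intro y
        by_cases hy : y ∈ C
        · have h1 : f' y = Equiv.swap a b (f y) := if_pos hy
          have h2 : f y = a ∨ f y = b := chain_mem ((hCm y).1 hy)
          rw [h1]
          refine ⟨fun _ => h2, fun _ => ?_⟩
          rcases h2 with h2 | h2
          · right
            rw [h2, Equiv.swap_apply_left]
          · left
            rw [h2, Equiv.swap_apply_right]
        · have h1 : f' y = f y := if_neg hy
          rw [h1]
      have hcard : (S \ C).card < n := by
        rw [← hn]
        refine Finset.card_lt_card ⟨Finset.sdiff_subset, fun h => ?_⟩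
        exact (Finset.mem_sdiff.1 (h hx)).2 hxC
      have h2 := ih (S \ C).card hcard (S \ C) f' rfl
        (fun y hy => (hM y).2 (hS y (Finset.mem_sdiff.1 hy).1)) (by
          intro y hy v ha hv
          rw [hM] at hv
          obtain ⟨hyS, hyC⟩ := Finset.mem_sdiff.1 hy
          refine Finset.mem_sdiff.2 ⟨hc y hyS v ha hv, fun hvC => hyC ?_⟩
          exact (hCm y).2 (chain_step ((hCm v).1 hvC) ha.symm (hS y hyS)))
      have h3 : (fun y => if y ∈ S \ C then Equiv.swap a b (f' y) else f' y) =
          fun y => if y ∈ S then Equiv.swap a b (f y) else f y := by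
        funext y
        by_cases hyC : y ∈ C
        · have hyS := hCS hyC
          have h4 : y ∉ S \ C := fun h => (Finset.mem_sdiff.1 h).2 hyC
          simp only [h4, if_false, hyS, if_true, f', hyC]
        · by_cases hyS : y ∈ S
          · have h4 : y ∈ S \ C := Finset.mem_sdiff.2 ⟨hyS, hyC⟩
            simp only [h4, if_true, hyS, f', hyC, if_false]
          · have h4 : y ∉ S \ C := fun h => hyS (Finset.mem_sdiff.1 h).1
            simp only [h4, if_false, hyS, f', hyC]
      rw [h3] at h2
      exact Relation.ReflTransGen.head hstep h2

theorem step_proper {V : Type} {G : SimpleGraph V} {f g : V → Fin 5} (h : KStep G f g)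
    (hf : Proper G f) : Proper G g := by
  obtain ⟨a, b, x, hx, hh⟩ := h
  have hab : ∀ c : Fin 5, (c = a ∨ c = b) → (Equiv.swap a b c = a ∨ Equiv.swap a b c = b) := by
    rintro c (rfl | rfl)
    · right
      rw [Equiv.swap_apply_left]
    · left
      rw [Equiv.swap_apply_right]
  have key : ∀ u v, G.Adj u v → InChain G f a b x u → ¬ InChain G f a b x v → g u ≠ g v := by
    intro u v ha hu hv
    rw [(hh u).1 hu, (hh v).2 hv]
    intro h1
    refine hv (chain_step hu ha ?_)
    rw [← h1]
    exact hab _ (chain_mem hu)
  intro u v ha
  by_cases hu : InChain G f a b x u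
  · by_cases hv : InChain G f a b x v
    · rw [(hh u).1 hu, (hh v).1 hv]
      intro h1
      exact hf u v ha ((Equiv.swap a b).injective h1)
    · exact key u v ha hu hv
  · by_cases hv : InChain G f a b x v
    · exact (key v u ha.symm hv hu).symm
    · rw [(hh u).2 hu, (hh v).2 hv]
      exact hf u v ha

theorem eq_proper {V : Type} {G : SimpleGraph V} {f g : V → Fin 5} (h : KEq G f g)
    (hf : Proper G f) : Proper G g := by
  induction h with
  | refl => exact hf
  | tail _ h2 ih => exact step_proper h2 ih

/-- change of the colour of one vertex -/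
theorem recolor {V : Type} [Fintype V] (G : SimpleGraph V) (f : V → Fin 5) (x : V) (e : Fin 5)
    (h : ∀ y, G.Adj x y → f y ≠ f x ∧ f y ≠ e) : KEq G f (Function.update f x e) := by
  have h1 := un V G (f x) e 1 {x} f (by simp) (by simp) (by
    intro u hu v ha hv
    rw [Finset.mem_singleton] at hu
    subst hu
    have h2 := h v ha
    rcases hv with hv | hv
    · exact absurd hv h2.1
    · exact absurd hv h2.2)
  have h3 : (fun y => if y ∈ ({x} : Finset V) then Equiv.swap (f x) e (f y) else f y) =
      Function.update f x e := by
    funext y
    by_cases hy : y = x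
    · subst hy
      simp
    · simp [hy]
  rw [h3] at h1
  exact h1

/-- one step of the main induction -/
theorem core_step {V : Type} [Fintype V] (H : SimpleGraph V) (x : V) (a b : Fin 5)
    (hdeg : (univ.filter (fun y => H.Adj x y)).card ≤ 4) (F : V → Fin 5) (hF : Proper H F)
    (C : Finset V) (hxC : x ∉ C) (hC : ∀ y ∈ C, F y = a ∨ F y = b)
    (hcl : ∀ u ∈ C, ∀ v, v ≠ x → H.Adj u v → (F v = a ∨ F v = b) → v ∈ C) :
    ∃ F' : V → Fin 5, KEq H F F' ∧
      ∀ y, y ≠ x → F' y = if y ∈ C then Equiv.swap a b (F y) else F y := by
  by_cases hx : F x = a ∨ F x = b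
  · by_cases hN : ∀ y, H.Adj x y → (F y = a ∨ F y = b) → y ∈ C
    · -- exchange on `insert x C`
      refine ⟨fun y => if y ∈ insert x C then Equiv.swap a b (F y) else F y,
        un V H a b _ (insert x C) F rfl ?_ ?_, ?_⟩
      · intro y hy
        rcases Finset.mem_insert.1 hy with rfl | hy
        · exact hx
        · exact hC y hy
      · intro u hu v ha hv
        rw [Finset.mem_insert]
        by_cases hvx : v = x
        · exact Or.inl hvx
        · right
          rcases Finset.mem_insert.1 hu with rfl | hu
          · exact hN v ha hv
          · exact hcl u hu v hvx ha hv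
      · intro y hy
        have h1 : (y ∈ insert x C) ↔ y ∈ C := by
          rw [Finset.mem_insert]
          simp [hy]
        simp only [h1]
    · by_cases hN2 : ∀ y, H.Adj x y → y ∉ C
      · refine ⟨fun y => if y ∈ C then Equiv.swap a b (F y) else F y,
          un V H a b _ C F rfl hC ?_, fun y _ => rfl⟩
        intro u hu v ha hv
        by_cases hvx : v = x
        · subst hvx
          exact absurd hu (hN2 u ha.symm)
        · exact hcl u hu v hvx ha hv
      · push Not at hN hN2
        obtain ⟨y2, ha2, hc2, hn2⟩ := hN
        obtain ⟨y1, ha1, hm1⟩ := hN2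
        have hc1 := hC y1 hm1
        have hne : y1 ≠ y2 := fun h => hn2 (h ▸ hm1)
        have hp1 := hF x y1 ha1
        have hp2 := hF x y2 ha2
        have hsame : F y1 = F y2 := by
          rcases hx with hx | hx <;> rcases hc1 with h1 | h1 <;> rcases hc2 with h2 | h2
          · exact absurd (hx.trans h1.symm) hp1
          · exact absurd (hx.trans h1.symm) hp1
          · exact absurd (hx.trans h2.symm) hp2
          · exact h1.trans h2.symm
          · exact h1.trans h2.symm
          · exact absurd (hx.trans h2.symm) hp2
          · exact absurd (hx.trans h1.symm) hp1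
          · exact absurd (hx.trans h1.symm) hp1
        set N := univ.filter (fun y => H.Adj x y) with hNd
        have hy1 : y1 ∈ N := by simp [hNd, ha1]
        have hy2 : y2 ∈ N := by simp [hNd, ha2]
        have himg : N.image F ⊆ (N.erase y1).image F := by
          intro c hc
          obtain ⟨y, hy, rfl⟩ := Finset.mem_image.1 hc
          by_cases h : y = y1
          · subst h
            exact Finset.mem_image.2 ⟨y2, Finset.mem_erase.2 ⟨hne.symm, hy2⟩, hsame.symm⟩
          · exact Finset.mem_image.2 ⟨y, Finset.mem_erase.2 ⟨h, hy⟩, rfl⟩
        have hcard : (insert (F x) (N.image F)).card < (univ : Finset (Fin 5)).card := by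
          have h1 := Finset.card_insert_le (F x) (N.image F)
          have h2 := Finset.card_le_card himg
          have h3 : ((N.erase y1).image F).card ≤ (N.erase y1).card := Finset.card_image_le
          have h4 := Finset.card_erase_of_mem hy1
          have h5 : 0 < N.card := Finset.card_pos.2 ⟨y1, hy1⟩
          simp only [Finset.card_univ, Fintype.card_fin]
          omega
        obtain ⟨e, _, he⟩ := Finset.exists_mem_notMem_of_card_lt_card hcard
        rw [Finset.mem_insert, not_or] at he
        have heN : ∀ y, H.Adj x y → F y ≠ e := by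
          intro y hy h
          exact he.2 (Finset.mem_image.2 ⟨y, by simp [hNd, hy], h⟩)
        have hea : e ≠ a ∧ e ≠ b := by
          constructor
          · rintro rfl
            rcases hx with hx | hx
            · exact he.1 hx.symm
            · rcases hc1 with h1 | h1
              · exact heN y1 ha1 h1
              · exact hp1 (hx.trans h1.symm)
          · rintro rfl
            rcases hx with hx | hx
            · rcases hc1 with h1 | h1
              · exact hp1 (hx.trans h1.symm)
              · exact heN y1 ha1 h1
            · exact he.1 hx.symm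
        have hre := recolor H F x e (fun y hy => ⟨(hF x y hy).symm, heN y hy⟩)
        have hoff : ∀ y, y ≠ x → Function.update F x e y = F y := fun y hy =>
          Function.update_of_ne hy _ _
        have hon : Function.update F x e x = e := Function.update_self _ _ _
        refine ⟨fun y => if y ∈ C then Equiv.swap a b (Function.update F x e y)
          else Function.update F x e y, hre.trans (un V H a b _ C _ rfl ?_ ?_), ?_⟩
        · intro y hy
          have hyx : y ≠ x := fun h => hxC (h ▸ hy)
          rw [hoff y hyx]
          exact hC y hy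
        · intro u hu v ha hv
          by_cases hvx : v = x
          · subst hvx
            rw [hon] at hv
            rcases hv with hv | hv
            · exact absurd hv hea.1
            · exact absurd hv hea.2
          · rw [hoff v hvx] at hv
            exact hcl u hu v hvx ha hv
        · intro y hy
          simp only [hoff y hy]
  · refine ⟨fun y => if y ∈ C then Equiv.swap a b (F y) else F y,
      un V H a b _ C F rfl hC ?_, fun y _ => rfl⟩
    intro u hu v ha hv
    by_cases hvx : v = x
    · subst hvx
      exact absurd hv hx
    · exact hcl u hu v hvx ha hv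

/-- the graph with the edges inside `S` -/
def GS {V : Type} (G : SimpleGraph V) (S : Finset V) : SimpleGraph V where
  Adj u v := G.Adj u v ∧ u ∈ S ∧ v ∈ S
  symm := ⟨fun _ _ h => ⟨h.1.symm, h.2.2, h.2.1⟩⟩
  loopless := ⟨fun x h => G.loopless.irrefl x h.1⟩

theorem noedges {V : Type} [Fintype V] (H : SimpleGraph V) (hH : ∀ u v, ¬ H.Adj u v)
    (f g : V → Fin 5) : KEq H f g := by
  have h1 : ∀ T : Finset V, KEq H f (fun y => if y ∈ T then g y else f y) := by
    intro T
    induction T using Finset.induction_on with
    | empty =>
      have h : (fun y => if y ∈ (∅ : Finset V) then g y else f y) = f := by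
        funext y
        simp
      rw [h]
      exact Relation.ReflTransGen.refl
    | insert x T hx ih =>
      refine ih.trans ?_
      have h2 := recolor H (fun y => if y ∈ T then g y else f y) x (g x)
        (fun y hy => absurd hy (hH x y))
      have h3 : Function.update (fun y => if y ∈ T then g y else f y) x (g x) =
          fun y => if y ∈ insert x T then g y else f y := by
        funext y
        by_cases hy : y = x
        · subst hy
          simp
        · simp [hy]
      rw [h3] at h2
      exact h2
  have h4 := h1 univ
  simpa using h4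

theorem main {V : Type} [Fintype V] (G : SimpleGraph V) : ∀ (n : ℕ) (S : Finset V),
    S.card = n → Deg4 G S → AllEq (GS G S) := by
  intro n
  induction n with
  | zero =>
    intro S hS _ f g _ _
    have h0 : S = ∅ := Finset.card_eq_zero.1 hS
    subst h0
    exact noedges (GS G ∅) (fun u v h => absurd h.2.1 (Finset.notMem_empty u)) f g
  | succ n ih =>
    intro S hS hD f g hf hg
    have hne : S.Nonempty := Finset.card_pos.1 (by omega)
    obtain ⟨x, hxS, hx4⟩ := hD S (Finset.Subset.refl S) hne
    have hD' : Deg4 G (S.erase x) := fun R hR hRn => hD R (hR.trans (Finset.erase_subset x S)) hRn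
    have hsub : ∀ u v, (GS G (S.erase x)).Adj u v → (GS G S).Adj u v := fun u v h =>
      ⟨h.1, Finset.mem_of_mem_erase h.2.1, Finset.mem_of_mem_erase h.2.2⟩
    have hE := ih (S.erase x) (by rw [Finset.card_erase_of_mem hxS, hS]; rfl) hD' f g
      (fun u v h => hf u v (hsub u v h)) (fun u v h => hg u v (hsub u v h))
    have hdeg : (univ.filter (fun y => (GS G S).Adj x y)).card ≤ 4 := by
      refine le_trans (Finset.card_le_card ?_) hx4
      intro y hy
      have h1 := (Finset.mem_filter.1 hy).2
      exact Finset.mem_filter.2 ⟨h1.2.2, h1.1⟩
    have key : ∀ h, KEq (GS G (S.erase x)) f h → ∃ F, KEq (GS G S) f F ∧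
        ∀ y, y ≠ x → F y = h y := by
      intro h hh
      induction hh with
      | refl => exact ⟨f, Relation.ReflTransGen.refl, fun _ _ => rfl⟩
      | tail _ hst ihh =>
        rename_i h1 h2 _
        obtain ⟨F, hF, hoff⟩ := ihh
        obtain ⟨a, b, z, hz, hch⟩ := hst
        have hFp : Proper (GS G S) F := eq_proper hF hf
        set C : Finset V := univ.filter (fun y => y ≠ x ∧ InChain (GS G (S.erase x)) h1 a b z y)
          with hC
        have hCm : ∀ y, y ∈ C ↔ (y ≠ x ∧ InChain (GS G (S.erase x)) h1 a b z y) := by
          intro y
          simp [hC]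
        obtain ⟨F', hF', hF'2⟩ := core_step (GS G S) x a b hdeg F hFp C
          (fun h => ((hCm x).1 h).1 rfl)
          (fun y hy => by
            have h3 := (hCm y).1 hy
            rw [hoff y h3.1]
            exact chain_mem h3.2)
          (by
            intro u hu v hvx ha hv
            have h3 := (hCm u).1 hu
            rw [hoff v hvx] at hv
            refine (hCm v).2 ⟨hvx, chain_step h3.2 ?_ hv⟩
            exact ⟨ha.1, Finset.mem_erase.2 ⟨h3.1, ha.2.1⟩, Finset.mem_erase.2 ⟨hvx, ha.2.2⟩⟩)
        refine ⟨F', hF.trans hF', fun y hy => ?_⟩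
        rw [hF'2 y hy, hoff y hy]
        by_cases hyc : InChain (GS G (S.erase x)) h1 a b z y
        · rw [(hch y).1 hyc, if_pos ((hCm y).2 ⟨hy, hyc⟩)]
        · rw [(hch y).2 hyc, if_neg (fun h => hyc ((hCm y).1 h).2)]
    obtain ⟨F, hF, hoff⟩ := key g hE
    have hFp : Proper (GS G S) F := eq_proper hF hf
    have hlast := recolor (GS G S) F x (g x) (fun y hy => ⟨(hFp x y hy).symm, by
      have hyx : y ≠ x := fun h => (GS G S).loopless.irrefl x (h ▸ hy)
      rw [hoff y hyx]
      exact (hg x y hy).symm⟩)
    have h5 : Function.update F x (g x) = g := by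
      funext y
      by_cases hy : y = x
      · subst hy
        simp
      · rw [Function.update_of_ne hy, hoff y hy]
    rw [h5] at hlast
    exact hF.trans hlast

theorem lv : StmtLV := by
  intro V _ G hD
  have h1 := main G _ univ rfl hD
  have h2 : GS G univ = G := by
    ext u v
    simp [GS]
  rw [h2] at h1
  exact h1

end Pool.Agent.Helper53.KC
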