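import Pool.Agent.Helper53.KC.Tot2
import Pool.Agent.Helper89.KC.Finm
import Pool.Agent.Helper83.KC.Cont
import Pool.Agent.Helper24.KC.Sup
import Pool.Agent.Helper3.KC.Gs
import Pool.Agent.Helper51.KC.Spm
import Pool.Agent.Helper35.KC.Thk
import Pool.Agent.Helper35.KC.Conn
import Pool.Agent.Helper87.KC.Loc
import Pool.Agent.Helper39.KC.Inj
import Pool.Agent.Helper15.KC.Ext
import Pool.Agent.Helper62.KC.Cnt
import Pool.Agent.Helper13.KC.Cnts
import Pool.Agent.Helper82.KC.Bl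
import Pool.Agent.Helper49.KC.Cen
import Pool.Agent.Helper94.KC.Num
import Pool.Agent.Helper2.KC.Nums
import Pool.Agent.Helper33.KC.Ent
import Pool.Agent.Helper9.KC.Av
import Pool.Agent.Helper19.KC.Avg
import Pool.Agent.Helper56.KC.Cmp
import Pool.Agent.Helper93.KC.Sep
import Pool.Agent.Helper8.KC.Sepn
import Pool.Agent.Helper61.KC.Rng
import Pool.Agent.Helper38.KC.Low
import Pool.Agent.Helper67.KC.Unl
import Pool.Agent.Helper59.KC.Kinv
import Pool.Agent.Helper69.KC.Inj2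
import Pool.Agent.Helper12.KC.Invf
import Pool.Agent.Helper40.KC.Av2
import Pool.Agent.Helper79.KC.Symc
import Pool.Agent.Helper13.KC.Num2
import Pool.Agent.Helper77.KC.Det
import Pool.Agent.Helper33.KC.Cnt2

/-!
# The two theorems
-/

namespace Pool.Agent.Helper53.KC

open Finset Filter Topology

theorem gsA : GsStmt := Pool.Agent.Helper3.KC.gs
theorem cenA : CenStmt := Pool.Agent.Helper49.KC.cen
theorem finA : FinmStmt := Pool.Agent.Helper89.KC.finm
theorem avgA : AvgStmt := Pool.Agent.Helper19.KC.avg gsA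
theorem rngA : RngStmt := Pool.Agent.Helper61.KC.rng Pool.Agent.Helper15.KC.ext
theorem lowA : LowStmt := Pool.Agent.Helper38.KC.low finA gsA Pool.Agent.Helper51.KC.spm
theorem entA : EntStmt := Pool.Agent.Helper33.KC.ent

theorem s33A : ∃ n₀, ∀ n ≥ n₀, ∀ r, Cen n r →
    (istab n r ∅ : ℝ) ≤ (2 : ℝ) ^ (33 * n.choose r / n : ℝ) :=
  stab33 (Pool.Agent.Helper13.KC.cnts Pool.Agent.Helper83.KC.cont Pool.Agent.Helper24.KC.sup)
    (Pool.Agent.Helper2.KC.nums Pool.Agent.Helper82.KC.bl cenA)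

theorem detA : DetStmt := Pool.Agent.Helper77.KC.det

theorem kconnA (k : ℕ) :
    (∃ n₀ : ℕ, ∀ n ≥ n₀,
      (1 - (2 : ℝ) ^ (-((2 : ℝ) ^ n / (n : ℝ) ^ 5))) * numLab n (fun _ => True) ≤
        numLab n (fun M => KConn k M) ∧
      (1 - (2 : ℝ) ^ (-((2 : ℝ) ^ n / (n : ℝ) ^ 5))) * numUnl n (fun _ => True) ≤
        numUnl n (fun M => KConn k M)) ∧
    Tendsto (fun n => (numLab n (fun M => KConn k M) : ℝ) / numLab n (fun _ => True)) atTop (𝓝 1) ∧
    Tendsto (fun n => (numUnl n (fun M => KConn k M) : ℝ) / numUnl n (fun _ => True)) atTop (𝓝 1) := by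
  have hC := gainC (Pool.Agent.Helper9.KC.av entA) avgA cenA s33A
  apply transfer finA Pool.Agent.Helper67.KC.unl (fun n M => KConn k M)
    (fun n M σ => Pool.Agent.Helper59.KC.kinv n k M σ)
  apply total finA cenA rngA lowA k
  exact excCen finA Pool.Agent.Helper35.KC.conn
    (mainA (Pool.Agent.Helper62.KC.cnt Pool.Agent.Helper83.KC.cont Pool.Agent.Helper24.KC.sup
      Pool.Agent.Helper87.KC.loc (Pool.Agent.Helper39.KC.inj detA) Pool.Agent.Helper15.KC.ext)
      (Pool.Agent.Helper94.KC.num Pool.Agent.Helper82.KC.bl cenA) Pool.Agent.Helper35.KC.thk)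
    hC (gainD Pool.Agent.Helper56.KC.cmp hC)
    (gainS avgA Pool.Agent.Helper93.KC.sep Pool.Agent.Helper8.KC.sepn cenA) k

theorem cnt2A : Cnt2Stmt := Pool.Agent.Helper33.KC.cnt2 Pool.Agent.Helper83.KC.cont
  Pool.Agent.Helper24.KC.sup Pool.Agent.Helper87.KC.loc (Pool.Agent.Helper69.KC.inj2 detA)
  Pool.Agent.Helper15.KC.ext Pool.Agent.Helper12.KC.invf

theorem asymA :
    (∃ n₀ : ℕ, ∀ n ≥ n₀,
      (1 - (2 : ℝ) ^ (-((2 : ℝ) ^ n / (n : ℝ) ^ 5))) * numLab n (fun _ => True) ≤ numLab n Asym ∧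
      (1 - (2 : ℝ) ^ (-((2 : ℝ) ^ n / (n : ℝ) ^ 5))) * numUnl n (fun _ => True) ≤
        numUnl n Asym) ∧
    Tendsto (fun n => (numLab n Asym : ℝ) / numLab n (fun _ => True)) atTop (𝓝 1) ∧
    Tendsto (fun n => (numUnl n Asym : ℝ) / numUnl n (fun _ => True)) atTop (𝓝 1) := by
  apply transfer finA Pool.Agent.Helper67.KC.unl (fun n M => Asym M)
    (fun n M σ => asym_inv M σ)
  apply totalAsym finA cenA rngA lowA
  exact symBound Pool.Agent.Helper79.KC.symc Pool.Agent.Helper82.KC.bl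
    (gain2 (Pool.Agent.Helper40.KC.av2 entA) avgA cenA s33A)
    (mainSym cnt2A (Pool.Agent.Helper13.KC.num2 Pool.Agent.Helper82.KC.bl cenA)
      Pool.Agent.Helper35.KC.thk)

end Pool.Agent.Helper53.KC
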