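import Pool.Agent.Helper53.KC.Asm3

/-!
# The total number of the matroids with a nontrivial automorphism
-/

namespace Pool.Agent.Helper53.KC

open Finset Filter Topology

theorem inv_of_mapEquiv {n : ℕ} (σ : Equiv.Perm (Fin n)) (M : Matroid (Fin n))
    (h : M.mapEquiv σ = M) : Inv σ M := by
  intro X
  have h1 : M.Indep (act σ X : Set (Fin n)) ↔ (M.mapEquiv σ).Indep (act σ X : Set (Fin n)) := by
    rw [h]
  rw [h1, Matroid.mapEquiv_indep_iff]
  have h2 : (σ.symm '' (act σ X : Set (Fin n))) = (X : Set (Fin n)) := by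
    unfold act
    rw [Finset.coe_map]
    ext x
    simp
  rw [h2]

theorem piece_asym (hfin : FinmStmt) (n r : ℕ) (B : ℝ)
    (h : ∀ σ : Equiv.Perm (Fin n), σ ≠ 1 → (nsym n r σ : ℝ) ≤ B) (hB : 0 ≤ B) :
    (Set.ncard {M : Matroid (Fin n) | Rk r M ∧ ¬ Asym M} : ℝ) ≤ n.factorial * B := by
  classical
  have := hfin n
  have hsub : {M : Matroid (Fin n) | Rk r M ∧ ¬ Asym M} ⊆
      ⋃ σ ∈ (univ : Finset (Equiv.Perm (Fin n))).filter (fun σ => σ ≠ 1),
        {M : Matroid (Fin n) | Rk r M ∧ Inv σ M} := by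
    intro M hM
    obtain ⟨hM1, hM2⟩ := hM
    unfold Asym at hM2
    push Not at hM2
    obtain ⟨σ, hσ, hσ1⟩ := hM2
    rw [Set.mem_iUnion₂]
    exact ⟨σ, by rw [Finset.mem_filter]; exact ⟨Finset.mem_univ _, hσ1⟩, hM1,
      inv_of_mapEquiv σ M hσ⟩
  have hsum : ∀ s : Finset (Equiv.Perm (Fin n)),
      (⋃ σ ∈ s, {M : Matroid (Fin n) | Rk r M ∧ Inv σ M}).ncard ≤
      ∑ σ ∈ s, nsym n r σ := by
    intro s
    induction s using Finset.induction_on with
    | empty => simp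
    | insert a s ha ih =>
      rw [Finset.set_biUnion_insert, Finset.sum_insert ha]
      refine (Set.ncard_union_le _ _).trans ?_
      exact Nat.add_le_add le_rfl ih
  have h1 := (Set.ncard_le_ncard hsub (Set.toFinite _)).trans (hsum _)
  calc (Set.ncard {M : Matroid (Fin n) | Rk r M ∧ ¬ Asym M} : ℝ)
      ≤ ((∑ σ ∈ (univ : Finset (Equiv.Perm (Fin n))).filter (fun σ => σ ≠ 1), nsym n r σ : ℕ) : ℝ) := by
        exact_mod_cast h1
    _ = ∑ σ ∈ (univ : Finset (Equiv.Perm (Fin n))).filter (fun σ => σ ≠ 1), (nsym n r σ : ℝ) := by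
        push_cast; rfl
    _ ≤ ∑ σ ∈ (univ : Finset (Equiv.Perm (Fin n))).filter (fun σ => σ ≠ 1), B :=
        Finset.sum_le_sum fun σ hσ => h σ (Finset.mem_filter.1 hσ).2
    _ = ((univ : Finset (Equiv.Perm (Fin n))).filter (fun σ => σ ≠ 1)).card * B := by
        rw [Finset.sum_const, nsmul_eq_mul]
    _ ≤ n.factorial * B := by
        apply mul_le_mul_of_nonneg_right _ hB
        have : ((univ : Finset (Equiv.Perm (Fin n))).filter (fun σ => σ ≠ 1)).card ≤ n.factorial := by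
          refine (Finset.card_filter_le _ _).trans ?_
          rw [Finset.card_univ, Fintype.card_perm, Fintype.card_fin]
        exact_mod_cast this

/-- Summation over the ranks. -/
theorem sum_ranks (hfin : FinmStmt) (n : ℕ) (Q : Matroid (Fin n) → Prop) (B : ℝ)
    (h : ∀ r ≤ n, (Set.ncard {M : Matroid (Fin n) | Rk r M ∧ Q M} : ℝ) *
      ((n + 1) * n.factorial) ≤ B) :
    (numLab n Q : ℝ) * n.factorial ≤ B := by
  classical
  have := hfin n
  have hsub : {M ∈ Lab n | Q M} ⊆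
      ⋃ r ∈ range (n + 1), {M : Matroid (Fin n) | Rk r M ∧ Q M} := by
    intro M hM
    obtain ⟨r, hr, hr2⟩ := exists_rk n M hM.1
    rw [Set.mem_iUnion₂]
    exact ⟨r, Finset.mem_range.2 (by omega), hr2, hM.2⟩
  have hsum : ∀ s : Finset ℕ,
      (⋃ r ∈ s, {M : Matroid (Fin n) | Rk r M ∧ Q M}).ncard ≤
      ∑ r ∈ s, Set.ncard {M : Matroid (Fin n) | Rk r M ∧ Q M} := by
    intro s
    induction s using Finset.induction_on with
    | empty => simp
    | insert a s ha ih =>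
      rw [Finset.set_biUnion_insert, Finset.sum_insert ha]
      exact (Set.ncard_union_le _ _).trans (by omega)
  have hall : (numLab n Q : ℝ) ≤
      ∑ r ∈ range (n + 1), (Set.ncard {M : Matroid (Fin n) | Rk r M ∧ Q M} : ℝ) := by
    have := (Set.ncard_le_ncard hsub (Set.toFinite _)).trans (hsum (range (n + 1)))
    unfold numLab
    exact_mod_cast this
  have hn1pos : (0 : ℝ) < (n : ℝ) + 1 := by positivity
  have hfin2 : (numLab n Q : ℝ) * ((n + 1) * n.factorial) ≤ (n + 1) * B := by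
    calc (numLab n Q : ℝ) * ((n + 1) * n.factorial)
        ≤ (∑ r ∈ range (n + 1), (Set.ncard {M : Matroid (Fin n) | Rk r M ∧ Q M} : ℝ)) *
          ((n + 1) * n.factorial) := by gcongr
      _ = ∑ r ∈ range (n + 1), (Set.ncard {M : Matroid (Fin n) | Rk r M ∧ Q M} : ℝ) *
          ((n + 1) * n.factorial) := by rw [Finset.sum_mul]
      _ ≤ ∑ r ∈ range (n + 1), B :=
          Finset.sum_le_sum fun r hr => h r (by rw [Finset.mem_range] at hr; omega)
      _ = (n + 1) * B := by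
          rw [Finset.sum_const, Finset.card_range, nsmul_eq_mul]
          push_cast
          ring
  have : (n + 1 : ℝ) * ((numLab n Q : ℝ) * n.factorial) ≤ (n + 1) * B := by
    calc (n + 1 : ℝ) * ((numLab n Q : ℝ) * n.factorial)
        = (numLab n Q : ℝ) * ((n + 1) * n.factorial) := by ring
      _ ≤ _ := hfin2
  exact le_of_mul_le_mul_left this hn1pos

/-- The number of the labelled matroids with a nontrivial automorphism. -/
theorem totalAsym (hfin : FinmStmt) (hcen : CenStmt) (hrng : RngStmt) (hlow : LowStmt)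
    (hexc : ∃ ε : ℝ, 0 < ε ∧ ∃ n₀, ∀ n ≥ n₀, ∀ r, Cen n r → ∀ σ : Equiv.Perm (Fin n), σ ≠ 1 →
      (nsym n r σ : ℝ) ≤ (2 : ℝ) ^ (-(ε * n.choose r / (n * Real.logb 2 n))) * istab n r ∅) :
    ∃ n₀, ∀ n ≥ n₀, (numLab n (fun M => ¬ Asym M) : ℝ) * n.factorial ≤
      (2 : ℝ) ^ (-((2 : ℝ) ^ n / (n : ℝ) ^ 5)) * numLab n (fun _ => True) := by
  classical
  obtain ⟨ε, hε, n₁, h1⟩ := hexc
  obtain ⟨n₂, h2⟩ := hcen.1
  obtain ⟨n₃, h3⟩ := ev_pow 6
  obtain ⟨n₄, h4⟩ := ev_logb (2 / ε)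
  refine ⟨max (max n₁ n₂) (max n₃ (max n₄ 4)), fun n hn => ?_⟩
  have hn1 : n₁ ≤ n := le_trans (le_trans (le_max_left _ _) (le_max_left _ _)) hn
  have hn2 : n₂ ≤ n := le_trans (le_trans (le_max_right _ _) (le_max_left _ _)) hn
  have hn3 : n₃ ≤ n := le_trans (le_trans (le_max_left _ _) (le_max_right _ _)) hn
  have hn4 : n₄ ≤ n :=
    le_trans (le_trans (le_max_left _ _) (le_trans (le_max_right _ _) (le_max_right _ _))) hn
  have hn5 : 4 ≤ n :=
    le_trans (le_trans (le_max_right _ _) (le_trans (le_max_right _ _) (le_max_right _ _))) hn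
  have := hfin n
  obtain ⟨hL1, -, hLn⟩ := h4 n hn4
  set Lg := Real.logb 2 n with hLg
  have hnR : (4 : ℝ) ≤ n := by exact_mod_cast hn5
  have hnpos : (0 : ℝ) < n := by linarith
  set L : ℝ := (numLab n (fun _ => True) : ℝ) with hL
  set x : ℝ := (2 : ℝ) ^ n / (n : ℝ) ^ 5 with hx
  have hxbig : 2 * (n : ℝ) ^ 2 + 3 * n + 1 ≤ x := by
    rw [hx, le_div_iff₀ (by positivity)]
    have h := h3 n hn3
    push_cast at h
    have e1 : 2 * (n : ℝ) ^ 2 + 3 * n + 1 ≤ 6 * (n : ℝ) ^ 2 := by nlinarith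
    calc (2 * (n : ℝ) ^ 2 + 3 * n + 1) * (n : ℝ) ^ 5 ≤ (6 * (n : ℝ) ^ 2) * (n : ℝ) ^ 5 := by
          gcongr
      _ = 6 * (n : ℝ) ^ 7 := by ring
      _ ≤ 2 ^ n := h
  have hx0 : 0 < x := by nlinarith
  have hL1' : (2 : ℝ) ^ (x * (n ^ 4 / (n + 1))) ≤ L := by
    obtain ⟨ha, hb⟩ := hlow n (n / 2) (by omega) (by omega)
    have haR : (istab n (n / 2) ∅ : ℝ) ≤ L := by rw [hL]; exact_mod_cast ha
    refine le_trans ?_ (hb.trans haR)
    apply Real.rpow_le_rpow_of_exponent_le (by norm_num)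
    have hmid : (2 : ℝ) ^ n ≤ (n + 1) * n.choose (n / 2) := by exact_mod_cast two_pow_le n
    rw [hx, le_div_iff₀ hnpos]
    have e : (2 : ℝ) ^ n / (n : ℝ) ^ 5 * ((n : ℝ) ^ 4 / (n + 1)) * n = 2 ^ n / (n + 1) := by
      field_simp
    rw [e, div_le_iff₀ (by positivity)]
    linarith
  have hLpos : 0 < L := lt_of_lt_of_le (by positivity) hL1'
  obtain ⟨hfac, hn1'⟩ := pow_bounds n
  apply sum_ranks hfin n _ _
  intro r hrn
  by_cases hr : Cen n r
  · obtain ⟨hr1, hr2⟩ := h2 n hn2 r hr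
    have hc := piece_asym hfin n r _ (h1 n hn1 r hr) (by positivity)
    have hi : (istab n r ∅ : ℝ) ≤ L := by
      rw [hL]
      exact_mod_cast (hlow n r (by omega) (by omega)).1
    have hexp2 : (2 : ℝ) ^ (-(ε * n.choose r / (n * Lg))) ≤ (2 : ℝ) ^ (-(ε * n / Lg * x)) := by
      apply Real.rpow_le_rpow_of_exponent_le (by norm_num)
      have hcn : (2 : ℝ) ^ n ≤ (n : ℝ) ^ 3 * n.choose r := by exact_mod_cast hr.2
      have hLgpos : 0 < Lg := by linarith
      have : ε * n / Lg * x ≤ ε * n.choose r / (n * Lg) := by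
        rw [hx, le_div_iff₀ (by positivity)]
        have e : ε * n / Lg * ((2 : ℝ) ^ n / (n : ℝ) ^ 5) * (n * Lg) = ε * (2 ^ n / (n : ℝ) ^ 3) := by
          field_simp
        rw [e]
        have : (2 : ℝ) ^ n / (n : ℝ) ^ 3 ≤ n.choose r := by
          rw [div_le_iff₀ (by positivity)]
          linarith
        gcongr
      linarith
    calc (Set.ncard {M : Matroid (Fin n) | Rk r M ∧ ¬ Asym M} : ℝ) * ((n + 1) * n.factorial)
        ≤ (n.factorial * ((2 : ℝ) ^ (-(ε * n.choose r / (n * Lg))) * istab n r ∅)) *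
          ((n + 1) * n.factorial) := by gcongr
      _ ≤ ((2 : ℝ) ^ ((n : ℝ) ^ 2) * ((2 : ℝ) ^ (-(ε * n / Lg * x)) * L)) *
          ((2 : ℝ) ^ (n : ℝ) * (2 : ℝ) ^ ((n : ℝ) ^ 2)) := by gcongr
      _ = (2 : ℝ) ^ (0 : ℝ) * (2 : ℝ) ^ ((n : ℝ) ^ 2) * ((2 : ℝ) ^ (-(ε * n / Lg * x)) * L) *
          ((2 : ℝ) ^ (n : ℝ) * (2 : ℝ) ^ ((n : ℝ) ^ 2)) := by
          rw [Real.rpow_zero, one_mul]
      _ = (2 : ℝ) ^ (0 + (n : ℝ) ^ 2 + -(ε * n / Lg * x) + n + (n : ℝ) ^ 2) * L :=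
          rpow5 _ _ _ _ _ L
      _ ≤ (2 : ℝ) ^ (-x) * L := by
          have hLgpos : 0 < Lg := by linarith
          have h5 : 2 ≤ ε * n / Lg := by
            rw [le_div_iff₀ hLgpos]
            have : 2 / ε * Lg * ε ≤ n * ε := by gcongr
            have e : 2 / ε * Lg * ε = 2 * Lg := by field_simp
            linarith
          have : 0 + (n : ℝ) ^ 2 + -(ε * n / Lg * x) + n + (n : ℝ) ^ 2 ≤ -x := by nlinarith
          have := Real.rpow_le_rpow_of_exponent_le (x := (2 : ℝ)) (by norm_num) this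
          gcongr
  · have hsmall : (n : ℝ) ^ 3 * n.choose r < 2 ^ n := by
      unfold Cen at hr
      push Not at hr
      exact_mod_cast hr hrn
    have hsub : {M : Matroid (Fin n) | Rk r M ∧ ¬ Asym M} ⊆
        {M : Matroid (Fin n) | Rk r M ∧ ∅ ⊆ NB r M} := by
      intro M hM
      exact ⟨hM.1, Finset.empty_subset _⟩
    have hc : (Set.ncard {M : Matroid (Fin n) | Rk r M ∧ ¬ Asym M} : ℝ) ≤
        (2 : ℝ) ^ (x * (n : ℝ) ^ 2) := by
      have h6 : Set.ncard {M : Matroid (Fin n) | Rk r M ∧ ¬ Asym M} ≤ 2 ^ n.choose r :=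
        (Set.ncard_le_ncard hsub (Set.toFinite _)).trans (hrng n r)
      have h7 : (Set.ncard {M : Matroid (Fin n) | Rk r M ∧ ¬ Asym M} : ℝ) ≤
          (2 : ℝ) ^ (n.choose r : ℝ) := by
        rw [Real.rpow_natCast]
        exact_mod_cast h6
      refine h7.trans ?_
      apply Real.rpow_le_rpow_of_exponent_le (by norm_num)
      rw [hx]
      have e : (2 : ℝ) ^ n / (n : ℝ) ^ 5 * (n : ℝ) ^ 2 = 2 ^ n / (n : ℝ) ^ 3 := by field_simp
      rw [e, le_div_iff₀ (by positivity)]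
      linarith
    calc (Set.ncard {M : Matroid (Fin n) | Rk r M ∧ ¬ Asym M} : ℝ) * ((n + 1) * n.factorial)
        ≤ (2 : ℝ) ^ (x * (n : ℝ) ^ 2) * ((2 : ℝ) ^ (n : ℝ) * (2 : ℝ) ^ ((n : ℝ) ^ 2)) := by gcongr
      _ = (2 : ℝ) ^ (x * (n : ℝ) ^ 2 + n + (n : ℝ) ^ 2) := rpow3 _ _ _
      _ ≤ (2 : ℝ) ^ (-x + x * (n ^ 4 / (n + 1))) := by
          apply Real.rpow_le_rpow_of_exponent_le (by norm_num)
          have h8 : (n : ℝ) ^ 2 + 2 ≤ (n : ℝ) ^ 4 / (n + 1) := by
            rw [le_div_iff₀ (by positivity)]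
            nlinarith [mul_nonneg (sub_nonneg.2 hnR) (sq_nonneg (n : ℝ)),
              mul_nonneg (sub_nonneg.2 hnR) (mul_nonneg hnpos.le (sq_nonneg (n : ℝ)))]
          nlinarith [mul_le_mul_of_nonneg_left h8 hx0.le]
      _ = (2 : ℝ) ^ (-x) * (2 : ℝ) ^ (x * (n ^ 4 / (n + 1))) := by
          rw [Real.rpow_add (by norm_num)]
      _ ≤ (2 : ℝ) ^ (-x) * L := by gcongr

theorem num_pos (hfin : FinmStmt) (n : ℕ) :
    0 < numLab n (fun _ => True) ∧ 0 < numUnl n (fun _ => True) := by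
  have := hfin n
  have h0 : (Matroid.freeOn (Set.univ : Set (Fin n))) ∈ {M ∈ Lab n | True} :=
    ⟨Matroid.freeOn_ground, trivial⟩
  constructor
  · unfold numLab
    rw [Set.ncard_pos]
    exact ⟨_, h0⟩
  · unfold numUnl
    rw [Set.ncard_pos]
    exact ⟨_, _, h0, rfl⟩

theorem lim_one : Tendsto (fun n : ℕ => 1 - (2 : ℝ) ^ (-((2 : ℝ) ^ n / (n : ℝ) ^ 5))) atTop (𝓝 1) := by
  have h1 : Tendsto (fun n : ℕ => (n : ℝ)) atTop atTop := tendsto_natCast_atTop_atTop
  obtain ⟨n₁, h2⟩ := ev_pow 1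
  have h3 : Tendsto (fun n : ℕ => (2 : ℝ) ^ n / (n : ℝ) ^ 5) atTop atTop := by
    apply tendsto_atTop_mono' atTop _ h1
    filter_upwards [eventually_ge_atTop n₁, eventually_ge_atTop 1] with n hn hn1
    have hp := h2 n hn
    push_cast at hp
    have hnR : (1 : ℝ) ≤ n := by exact_mod_cast hn1
    rw [le_div_iff₀ (by positivity)]
    calc (n : ℝ) * (n : ℝ) ^ 5 = (n : ℝ) ^ 6 := by ring
      _ ≤ (n : ℝ) ^ 7 := pow_le_pow_right₀ hnR (by norm_num)
      _ ≤ 2 ^ n := by linarith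
  have h4 : Tendsto (fun x : ℝ => (2 : ℝ) ^ (-x)) atTop (𝓝 0) := by
    have h5 : (fun x : ℝ => (2 : ℝ) ^ (-x)) = fun x : ℝ => ((1 : ℝ) / 2) ^ x := by
      funext x
      rw [Real.rpow_neg (by norm_num), one_div, Real.inv_rpow (by norm_num)]
    rw [h5]
    exact tendsto_rpow_atTop_of_base_lt_one _ (by norm_num) (by norm_num)
  have h5 := (h4.comp h3).const_sub 1
  simpa using h5

/-- From the labelled to the unlabelled count. -/
theorem transfer (hfin : FinmStmt) (hunl : UnlStmt) (P : (n : ℕ) → Matroid (Fin n) → Prop)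
    (hinv : ∀ n (M : Matroid (Fin n)) (σ : Equiv.Perm (Fin n)), P n M ↔ P n (M.mapEquiv σ))
    (h : ∃ n₀ : ℕ, ∀ n ≥ n₀, (numLab n (fun M => ¬ P n M) : ℝ) * n.factorial ≤
      (2 : ℝ) ^ (-((2 : ℝ) ^ n / (n : ℝ) ^ 5)) * numLab n (fun _ => True)) :
    (∃ n₀ : ℕ, ∀ n ≥ n₀,
      (1 - (2 : ℝ) ^ (-((2 : ℝ) ^ n / (n : ℝ) ^ 5))) * numLab n (fun _ => True) ≤ numLab n (P n) ∧
      (1 - (2 : ℝ) ^ (-((2 : ℝ) ^ n / (n : ℝ) ^ 5))) * numUnl n (fun _ => True) ≤ numUnl n (P n)) ∧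
    Tendsto (fun n => (numLab n (P n) : ℝ) / numLab n (fun _ => True)) atTop (𝓝 1) ∧
    Tendsto (fun n => (numUnl n (P n) : ℝ) / numUnl n (fun _ => True)) atTop (𝓝 1) := by
  obtain ⟨n₀, h⟩ := h
  have hA : ∀ n : ℕ, n₀ ≤ n →
      (1 - (2 : ℝ) ^ (-((2 : ℝ) ^ n / (n : ℝ) ^ 5))) * numLab n (fun _ => True) ≤ numLab n (P n) ∧
      (1 - (2 : ℝ) ^ (-((2 : ℝ) ^ n / (n : ℝ) ^ 5))) * numUnl n (fun _ => True) ≤
        numUnl n (P n) := by
    intro n hn
    obtain ⟨u1, u2, u3, u4⟩ := hunl n (P n) (hinv n)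
    have hn' := h n hn
    set q : ℝ := (2 : ℝ) ^ (-((2 : ℝ) ^ n / (n : ℝ) ^ 5)) with hq
    have hf1 : (1 : ℝ) ≤ n.factorial := by exact_mod_cast n.factorial_pos
    have hfpos : (0 : ℝ) < n.factorial := by linarith
    have u1R : (numLab n (fun _ => True) : ℝ) ≤ n.factorial * numUnl n (fun _ => True) := by
      exact_mod_cast u1
    have u2R : (numUnl n (fun _ => True) : ℝ) ≤ numUnl n (P n) + numLab n (fun M => ¬ P n M) := by
      exact_mod_cast u2
    have u4R : (numLab n (fun _ => True) : ℝ) = numLab n (P n) + numLab n (fun M => ¬ P n M) := by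
      exact_mod_cast u4
    have hb0 : (0 : ℝ) ≤ numLab n (fun M => ¬ P n M) := Nat.cast_nonneg _
    have hq0 : 0 ≤ q := by positivity
    constructor
    · have : (numLab n (fun M => ¬ P n M) : ℝ) ≤ q * numLab n (fun _ => True) := by
        nlinarith
      linarith
    · have : (numLab n (fun M => ¬ P n M) : ℝ) ≤ q * numUnl n (fun _ => True) := by
        have h1 : (numLab n (fun M => ¬ P n M) : ℝ) * n.factorial ≤
            (q * numUnl n (fun _ => True)) * n.factorial := by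
          calc (numLab n (fun M => ¬ P n M) : ℝ) * n.factorial ≤ q * numLab n (fun _ => True) := hn'
            _ ≤ q * (n.factorial * numUnl n (fun _ => True)) := by gcongr
            _ = (q * numUnl n (fun _ => True)) * n.factorial := by ring
        exact le_of_mul_le_mul_right h1 hfpos
      linarith
  have key : ∀ (f g : ℕ → ℕ),
      (∀ n ≥ n₀, (1 - (2 : ℝ) ^ (-((2 : ℝ) ^ n / (n : ℝ) ^ 5))) * (g n : ℝ) ≤ f n) →
      (∀ n, f n ≤ g n) → (∀ n, 0 < g n) →
      Tendsto (fun n => (f n : ℝ) / g n) atTop (𝓝 1) := by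
    intro f g hfg hle hg
    apply tendsto_of_tendsto_of_tendsto_of_le_of_le' lim_one tendsto_const_nhds
    · filter_upwards [eventually_ge_atTop n₀] with n hn
      rw [le_div_iff₀ (by exact_mod_cast hg n)]
      exact hfg n hn
    · filter_upwards with n
      rw [div_le_one (by exact_mod_cast hg n)]
      exact_mod_cast hle n
  refine ⟨⟨n₀, hA⟩, ?_, ?_⟩
  · exact key (fun n => numLab n (P n)) (fun n => numLab n (fun _ => True))
      (fun n hn => (hA n hn).1)
      (fun n => by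
        obtain ⟨u1, u2, u3, u4⟩ := hunl n (P n) (hinv n)
        change numLab n (P n) ≤ numLab n (fun _ => True)
        omega) (fun n => (num_pos hfin n).1)
  · exact key (fun n => numUnl n (P n)) (fun n => numUnl n (fun _ => True))
      (fun n hn => (hA n hn).2)
      (fun n => (hunl n (P n) (hinv n)).2.2.1) (fun n => (num_pos hfin n).2)

theorem asym_inv {n : ℕ} (M : Matroid (Fin n)) (τ : Equiv.Perm (Fin n)) :
    Asym M ↔ Asym (M.mapEquiv τ) := by
  have hcomp : ∀ (M : Matroid (Fin n)) (a b : Equiv.Perm (Fin n)),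
      (M.mapEquiv a).mapEquiv b = M.mapEquiv (b * a) := by
    intro M a b
    apply Matroid.ext_indep
    · rw [Matroid.mapEquiv_ground_eq, Matroid.mapEquiv_ground_eq, Matroid.mapEquiv_ground_eq,
        ← Set.image_comp]
      rfl
    · intro I _
      rw [Matroid.mapEquiv_indep_iff, Matroid.mapEquiv_indep_iff, Matroid.mapEquiv_indep_iff,
        ← Set.image_comp]
      rfl
  have hone : ∀ M : Matroid (Fin n), M.mapEquiv (1 : Equiv.Perm (Fin n)) = M := by
    intro M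
    apply Matroid.ext_indep
    · rw [Matroid.mapEquiv_ground_eq]
      simp
    · intro I _
      rw [Matroid.mapEquiv_indep_iff]
      have : (Equiv.symm (1 : Equiv.Perm (Fin n))) '' I = I := by
        ext x; simp
      rw [this]
  constructor
  · intro h σ hσ
    have h1 : M.mapEquiv (τ⁻¹ * σ * τ) = M := by
      rw [hcomp] at hσ
      have : (M.mapEquiv (σ * τ)).mapEquiv τ⁻¹ = (M.mapEquiv τ).mapEquiv τ⁻¹ := by rw [hσ]
      rw [hcomp, hcomp] at this
      rw [mul_assoc, this, inv_mul_cancel, hone]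
    have h2 := h _ h1
    have h3 : σ = τ * (τ⁻¹ * σ * τ) * τ⁻¹ := by group
    rw [h3, h2]; group
  · intro h σ hσ
    have h1 : (M.mapEquiv τ).mapEquiv (τ * σ * τ⁻¹) = M.mapEquiv τ := by
      rw [hcomp]
      have : τ * σ * τ⁻¹ * τ = τ * σ := by group
      rw [this, ← hcomp, hσ]
    have h2 := h _ h1
    have h3 : σ = τ⁻¹ * (τ * σ * τ⁻¹) * τ := by group
    rw [h3, h2]; group

end Pool.Agent.Helper53.KC
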