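import Pool.Agent.Helper53.KC.Asm4
import Pool.Agent.Helper53.KC.Tot2

/-!
# Connectivity of order `log n`: the count
-/

namespace Pool.Agent.Helper53.KC

open Finset Filter Topology

theorem mainA3 (hcnt : CntStmt) (hnum : Num3Stmt) (hthk : ThkStmt) :
    ∃ n₀, ∀ n ≥ n₀, ∀ r, Cen n r → ∀ D ⊆ V n r,
      (nmat n r D : ℝ) ≤ (2 : ℝ) ^ ((n.choose r : ℝ) / (n * (n : ℝ) ^ ((1 : ℝ) / 17))) *
        istab n r D := by
  obtain ⟨n₀, h⟩ := hnum
  refine ⟨n₀, fun n hn r hr D hD => ?_⟩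
  obtain ⟨t, Δ₁, Δ₂, i, h', u₁, a₁, u₂, h1, h2, h3, h4, h5, h6, h7, h8, h9, h10, h11⟩ := h n hn r hr
  have hth : ∀ M : Matroid (Fin n), Rk r M → (thC r t M).card ≤ h' ∧ (thH r t M).card ≤ h' := by
    intro M hM
    obtain ⟨ha, hb⟩ := hthk n r t i M hM
    constructor
    · by_contra hc
      push Not at hc
      have : (h' + 1) * t.choose i ≤ (thC r t M).card * t.choose i :=
        Nat.mul_le_mul_right _ hc
      omega
    · by_contra hc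
      push Not at hc
      have : (h' + 1) * t.choose i ≤ (thH r t M).card * t.choose i :=
        Nat.mul_le_mul_right _ hc
      omega
  have key := hcnt n r t Δ₁ Δ₂ h' u₁ a₁ u₂ D h1 h2 h3 h4 h5 h6 hth h8 h9 h10 hD
  calc (nmat n r D : ℝ) ≤ (((bl (2 ^ n) h') ^ 2 * bl (n.choose r * (2 * (bl n t) ^ 2)) u₁ *
      bl (n.choose r * (2 * (bl n t) ^ 2)) u₂ * istab n r D : ℕ) : ℝ) := by exact_mod_cast key
    _ = (((bl (2 ^ n) h') ^ 2 * bl (n.choose r * (2 * (bl n t) ^ 2)) u₁ *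
      bl (n.choose r * (2 * (bl n t) ^ 2)) u₂ : ℕ) : ℝ) * istab n r D := by push_cast; ring
    _ ≤ _ := by gcongr

theorem exc_le3 (hfin : FinmStmt) (hconn : ConnStmt) (n r k : ℕ) (B : ℝ)
    (hB : 0 ≤ B)
    (h1 : ∀ C : Finset (Fin n), 1 ≤ C.card → C.card ≤ k → (nmat n r (DC r C) : ℝ) ≤ B)
    (h2 : ∀ C : Finset (Fin n), 1 ≤ C.card → C.card ≤ k → (nmat n r (DD r C) : ℝ) ≤ B)
    (h3 : ∀ (j a : ℕ) (W : Finset (Fin n)), j < k → j + 2 ≤ W.card → j + 2 ≤ Wᶜ.card →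
      (nmat n r (DS r W a j) : ℝ) ≤ B) :
    (Set.ncard {M : Matroid (Fin n) | Rk r M ∧ ¬ KConn k M} : ℝ) ≤
      (2 + k * (r + 1)) * 2 ^ n * B := by
  classical
  haveI := hfin n
  set s1 : Finset (Finset (Fin n)) := univ.filter fun C => 1 ≤ C.card ∧ C.card ≤ k with hs1
  set s3 : Finset (ℕ × ℕ × Finset (Fin n)) :=
    ((range k) ×ˢ ((range (r + 1)) ×ˢ (univ : Finset (Finset (Fin n))))).filter fun p =>
      p.1 + 2 ≤ p.2.2.card ∧ p.1 + 2 ≤ p.2.2ᶜ.card with hs3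
  have hsub : {M : Matroid (Fin n) | Rk r M ∧ ¬ KConn k M} ⊆
      (⋃ C ∈ s1, {M : Matroid (Fin n) | Rk r M ∧ DC r C ⊆ NB r M}) ∪
      ((⋃ C ∈ s1, {M : Matroid (Fin n) | Rk r M ∧ DD r C ⊆ NB r M}) ∪
      (⋃ p ∈ s3, {M : Matroid (Fin n) | Rk r M ∧ DS r p.2.2 p.2.1 p.1 ⊆ NB r M})) := by
    intro M hM
    obtain ⟨hM1, hM2⟩ := hM
    rcases hconn n r k M hM1 hM2 with ⟨C, hC1, hC2, hC3⟩ | ⟨C, hC1, hC2, hC3⟩ |
      ⟨j, a, W, hj, ha, hW, hWc, hD⟩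
    · left
      rw [Set.mem_iUnion₂]
      exact ⟨C, by rw [hs1, Finset.mem_filter]; exact ⟨Finset.mem_univ _, hC1, hC2⟩, hM1, hC3⟩
    · right; left
      rw [Set.mem_iUnion₂]
      exact ⟨C, by rw [hs1, Finset.mem_filter]; exact ⟨Finset.mem_univ _, hC1, hC2⟩, hM1, hC3⟩
    · right; right
      rw [Set.mem_iUnion₂]
      refine ⟨(j, a, W), ?_, hM1, hD⟩
      rw [hs3, Finset.mem_filter, Finset.mem_product, Finset.mem_product, Finset.mem_range,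
        Finset.mem_range]
      exact ⟨⟨hj, by simp only; omega, Finset.mem_univ _⟩, hW, hWc⟩
  have hU : ∀ (ι : Type) (s : Finset ι) (f : ι → Set (Matroid (Fin n))),
      (∀ i ∈ s, ((f i).ncard : ℝ) ≤ B) → ((⋃ i ∈ s, f i).ncard : ℝ) ≤ s.card * B := by
    intro ι s f hf
    have h1 : (⋃ i ∈ s, f i).ncard ≤ ∑ i ∈ s, (f i).ncard := by
      clear hf
      induction s using Finset.induction_on with
      | empty => simp
      | insert a s ha ih =>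
        rw [Finset.set_biUnion_insert, Finset.sum_insert ha]
        exact (Set.ncard_union_le _ _).trans (by omega)
    calc ((⋃ i ∈ s, f i).ncard : ℝ) ≤ ((∑ i ∈ s, (f i).ncard : ℕ) : ℝ) := by exact_mod_cast h1
      _ = ∑ i ∈ s, ((f i).ncard : ℝ) := by push_cast; rfl
      _ ≤ ∑ i ∈ s, B := Finset.sum_le_sum hf
      _ = s.card * B := by rw [Finset.sum_const, nsmul_eq_mul]
  have hc1 : s1.card ≤ 2 ^ n := by
    calc s1.card ≤ (univ : Finset (Finset (Fin n))).card := Finset.card_filter_le _ _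
      _ = 2 ^ n := by rw [Finset.card_univ, Fintype.card_finset, Fintype.card_fin]
  have hc3 : s3.card ≤ k * (r + 1) * 2 ^ n := by
    calc s3.card ≤ ((range k) ×ˢ ((range (r + 1)) ×ˢ (univ : Finset (Finset (Fin n))))).card :=
          Finset.card_filter_le _ _
      _ = k * (r + 1) * 2 ^ n := by
        rw [Finset.card_product, Finset.card_product, Finset.card_range, Finset.card_range,
          Finset.card_univ, Fintype.card_finset, Fintype.card_fin, mul_assoc]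
  have e1 := hU _ s1 (fun C => {M : Matroid (Fin n) | Rk r M ∧ DC r C ⊆ NB r M})
    (fun C hC => h1 C (by rw [hs1, Finset.mem_filter] at hC; exact hC.2.1)
      (by rw [hs1, Finset.mem_filter] at hC; exact hC.2.2))
  have e2 := hU _ s1 (fun C => {M : Matroid (Fin n) | Rk r M ∧ DD r C ⊆ NB r M})
    (fun C hC => h2 C (by rw [hs1, Finset.mem_filter] at hC; exact hC.2.1)
      (by rw [hs1, Finset.mem_filter] at hC; exact hC.2.2))
  have e3 := hU _ s3 (fun p => {M : Matroid (Fin n) | Rk r M ∧ DS r p.2.2 p.2.1 p.1 ⊆ NB r M})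
    (fun p hp => by
      rw [hs3, Finset.mem_filter, Finset.mem_product, Finset.mem_range] at hp
      exact h3 p.1 p.2.1 p.2.2 hp.1.1 hp.2.1 hp.2.2)
  have e4 : (Set.ncard {M : Matroid (Fin n) | Rk r M ∧ ¬ KConn k M} : ℝ) ≤
      s1.card * B + (s1.card * B + s3.card * B) := by
    have hle := Set.ncard_le_ncard hsub (Set.toFinite _)
    have hle2 := Set.ncard_union_le (⋃ C ∈ s1, {M : Matroid (Fin n) | Rk r M ∧ DC r C ⊆ NB r M})
      ((⋃ C ∈ s1, {M : Matroid (Fin n) | Rk r M ∧ DD r C ⊆ NB r M}) ∪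
      (⋃ p ∈ s3, {M : Matroid (Fin n) | Rk r M ∧ DS r p.2.2 p.2.1 p.1 ⊆ NB r M}))
    have hle3 := Set.ncard_union_le (⋃ C ∈ s1, {M : Matroid (Fin n) | Rk r M ∧ DD r C ⊆ NB r M})
      (⋃ p ∈ s3, {M : Matroid (Fin n) | Rk r M ∧ DS r p.2.2 p.2.1 p.1 ⊆ NB r M})
    have q1 : (Set.ncard {M : Matroid (Fin n) | Rk r M ∧ ¬ KConn k M} : ℝ) ≤
        ((⋃ C ∈ s1, {M : Matroid (Fin n) | Rk r M ∧ DC r C ⊆ NB r M}).ncard : ℝ) +
        (((⋃ C ∈ s1, {M : Matroid (Fin n) | Rk r M ∧ DD r C ⊆ NB r M}).ncard : ℝ) +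
        ((⋃ p ∈ s3, {M : Matroid (Fin n) | Rk r M ∧ DS r p.2.2 p.2.1 p.1 ⊆ NB r M}).ncard : ℝ)) := by
      exact_mod_cast hle.trans (hle2.trans (Nat.add_le_add_left hle3 _))
    exact q1.trans (add_le_add e1 (add_le_add e2 e3))
  have hc1R : (s1.card : ℝ) ≤ 2 ^ n := by exact_mod_cast hc1
  have hc3R : (s3.card : ℝ) ≤ k * (r + 1) * 2 ^ n := by exact_mod_cast hc3
  calc (Set.ncard {M : Matroid (Fin n) | Rk r M ∧ ¬ KConn k M} : ℝ)
      ≤ s1.card * B + (s1.card * B + s3.card * B) := e4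
    _ ≤ 2 ^ n * B + (2 ^ n * B + k * (r + 1) * 2 ^ n * B) := by gcongr
    _ = (2 + k * (r + 1)) * 2 ^ n * B := by ring


/-- Powers of `n` with small exponents. -/
theorem ev_roots : ∃ n₀ : ℕ, ∀ n ≥ n₀,
    2 * (n : ℝ) ^ ((1 : ℝ) / 20) ≤ (n : ℝ) ^ ((1 : ℝ) / 17) ∧
    10 * (n : ℝ) ^ ((1 : ℝ) / 20) ≤ n := by
  have h1 : Tendsto (fun n : ℕ => (n : ℝ) ^ ((3 : ℝ) / 340)) atTop atTop :=
    (tendsto_rpow_atTop (by norm_num)).comp tendsto_natCast_atTop_atTop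
  have h2 : Tendsto (fun n : ℕ => (n : ℝ) ^ ((19 : ℝ) / 20)) atTop atTop :=
    (tendsto_rpow_atTop (by norm_num)).comp tendsto_natCast_atTop_atTop
  have e1 := h1.eventually_ge_atTop 2
  have e2 := h2.eventually_ge_atTop 10
  have := e1.and (e2.and (eventually_gt_atTop (0 : ℕ)))
  rw [eventually_atTop] at this
  obtain ⟨n₀, h⟩ := this
  refine ⟨n₀, fun n hn => ?_⟩
  obtain ⟨a1, a2, a3⟩ := h n hn
  have hnR : (0 : ℝ) < n := by exact_mod_cast a3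
  have hg : (0 : ℝ) < (n : ℝ) ^ ((1 : ℝ) / 20) := by positivity
  constructor
  · have : (n : ℝ) ^ ((1 : ℝ) / 17) = (n : ℝ) ^ ((3 : ℝ) / 340) * (n : ℝ) ^ ((1 : ℝ) / 20) := by
      rw [← Real.rpow_add hnR]
      norm_num
    rw [this]
    gcongr
  · have : (n : ℝ) = (n : ℝ) ^ ((19 : ℝ) / 20) * (n : ℝ) ^ ((1 : ℝ) / 20) := by
      rw [← Real.rpow_add hnR]
      norm_num
    conv_rhs => rw [this]
    gcongr

/-- The exceptions in a central rank. -/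
theorem excCen3 (hfin : FinmStmt) (hconn : ConnStmt)
    (hA : ∃ n₀, ∀ n ≥ n₀, ∀ r, Cen n r → ∀ D ⊆ V n r,
      (nmat n r D : ℝ) ≤ (2 : ℝ) ^ ((n.choose r : ℝ) / (n * (n : ℝ) ^ ((1 : ℝ) / 17))) *
        istab n r D)
    (hC : ∃ n₀, ∀ n ≥ n₀, ∀ r, Cen n r → ∀ C : Finset (Fin n), 1 ≤ C.card →
      1400 * (C.card : ℝ) ≤ Real.logb 2 n →
      (istab n r (DC r C) : ℝ) * (2 : ℝ) ^ ((n.choose r : ℝ) / (n * (n : ℝ) ^ ((1 : ℝ) / 20))) ≤
        istab n r ∅)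
    (hD : ∃ n₀, ∀ n ≥ n₀, ∀ r, Cen n r → ∀ C : Finset (Fin n), 1 ≤ C.card →
      1400 * (C.card : ℝ) ≤ Real.logb 2 n →
      (istab n r (DD r C) : ℝ) * (2 : ℝ) ^ ((n.choose r : ℝ) / (n * (n : ℝ) ^ ((1 : ℝ) / 20))) ≤
        istab n r ∅)
    (hS : ∃ n₀, ∀ n ≥ n₀, ∀ r, Cen n r → ∀ (j : ℕ) (W : Finset (Fin n)) (a : ℕ),
      1400 * (j : ℝ) ≤ Real.logb 2 n → j + 2 ≤ W.card → j + 2 ≤ Wᶜ.card →
      (istab n r (DS r W a j) : ℝ) * (2 : ℝ) ^ ((n.choose r : ℝ) / (n * (n : ℝ) ^ ((1 : ℝ) / 20))) ≤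
        istab n r ∅) :
    ∃ n₀, ∀ n ≥ n₀, ∀ r, Cen n r → ∀ k : ℕ, 1400 * (k : ℝ) ≤ Real.logb 2 n →
      (Set.ncard {M : Matroid (Fin n) | Rk r M ∧ ¬ KConn k M} : ℝ) ≤
        (2 + k * (r + 1)) * 2 ^ n *
          ((2 : ℝ) ^ (-((n.choose r : ℝ) / (2 * n * (n : ℝ) ^ ((1 : ℝ) / 20)))) * istab n r ∅) := by
  obtain ⟨n₁, h1⟩ := hC
  obtain ⟨n₂, h2⟩ := hD
  obtain ⟨n₃, h3⟩ := hS
  obtain ⟨n₄, h4⟩ := hA
  obtain ⟨n₅, h5⟩ := ev_roots
  refine ⟨max (max n₁ n₂) (max n₃ (max n₄ (max n₅ 1))), fun n hn r hr k hk => ?_⟩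
  have hn1 : n₁ ≤ n := le_trans (le_trans (le_max_left _ _) (le_max_left _ _)) hn
  have hn2 : n₂ ≤ n := le_trans (le_trans (le_max_right _ _) (le_max_left _ _)) hn
  have hn3 : n₃ ≤ n := le_trans (le_trans (le_max_left _ _) (le_max_right _ _)) hn
  have hn4 : n₄ ≤ n :=
    le_trans (le_trans (le_max_left _ _) (le_trans (le_max_right _ _) (le_max_right _ _))) hn
  have hn5 : n₅ ≤ n := le_trans (le_trans (le_max_left _ _) (le_trans (le_max_right _ _)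
    (le_trans (le_max_right _ _) (le_max_right _ _)))) hn
  have hn6 : 1 ≤ n := le_trans (le_trans (le_max_right _ _) (le_trans (le_max_right _ _)
    (le_trans (le_max_right _ _) (le_max_right _ _)))) hn
  have hnR : (0 : ℝ) < n := by exact_mod_cast (by omega : 0 < n)
  set g := (n : ℝ) ^ ((1 : ℝ) / 20) with hg
  have hgpos : 0 < g := by positivity
  have hroot := (h5 n hn5).1
  have hgen : ∀ (D : Finset (Finset (Fin n))), D ⊆ V n r →
      (istab n r D : ℝ) * (2 : ℝ) ^ ((n.choose r : ℝ) / (n * g)) ≤ istab n r ∅ →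
      (nmat n r D : ℝ) ≤ (2 : ℝ) ^ (-((n.choose r : ℝ) / (2 * n * g))) * istab n r ∅ := by
    intro D hDV hD'
    have ha := h4 n hn4 r hr D hDV
    have hexp : (n.choose r : ℝ) / (n * (n : ℝ) ^ ((1 : ℝ) / 17)) ≤ (n.choose r : ℝ) / (2 * n * g) := by
      apply div_le_div_of_nonneg_left (Nat.cast_nonneg _) (by positivity)
      calc 2 * n * g = n * (2 * g) := by ring
        _ ≤ n * (n : ℝ) ^ ((1 : ℝ) / 17) := by gcongr
    have hpos : (0 : ℝ) < (2 : ℝ) ^ ((n.choose r : ℝ) / (n * g)) := by positivity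
    have hb' : (istab n r D : ℝ) ≤ (2 : ℝ) ^ (-((n.choose r : ℝ) / (n * g))) * istab n r ∅ := by
      rw [Real.rpow_neg (by norm_num), ← div_eq_inv_mul, le_div_iff₀ hpos]
      exact hD'
    calc (nmat n r D : ℝ)
        ≤ (2 : ℝ) ^ ((n.choose r : ℝ) / (n * (n : ℝ) ^ ((1 : ℝ) / 17))) * istab n r D := ha
      _ ≤ (2 : ℝ) ^ ((n.choose r : ℝ) / (2 * n * g)) *
          ((2 : ℝ) ^ (-((n.choose r : ℝ) / (n * g))) * istab n r ∅) := by
          have := Real.rpow_le_rpow_of_exponent_le (x := (2 : ℝ)) (by norm_num) hexp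
          gcongr
      _ = (2 : ℝ) ^ (-((n.choose r : ℝ) / (2 * n * g))) * istab n r ∅ := by
          rw [← mul_assoc, ← Real.rpow_add (by norm_num)]
          congr 2
          field_simp
          ring
  have hkc : ∀ c : ℕ, c ≤ k → 1400 * (c : ℝ) ≤ Real.logb 2 n := by
    intro c hc
    have : (c : ℝ) ≤ k := by exact_mod_cast hc
    linarith
  apply exc_le3 hfin hconn n r k _ (by positivity)
  · intro C hC1 hCk
    exact hgen _ (by unfold DC; exact Finset.filter_subset _ _)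
      (h1 n hn1 r hr C hC1 (hkc _ hCk))
  · intro C hC1 hCk
    exact hgen _ (by unfold DD; exact Finset.filter_subset _ _)
      (h2 n hn2 r hr C hC1 (hkc _ hCk))
  · intro j a W hj hW hWc
    exact hgen _ (by unfold DS; exact Finset.filter_subset _ _)
      (h3 n hn3 r hr j W a (hkc _ hj.le) hW hWc)

/-- The number of the labelled matroids without the property `P`. -/
theorem totalGen (hfin : FinmStmt) (hcen : CenStmt) (hrng : RngStmt) (hlow : LowStmt)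
    (P : (n : ℕ) → Matroid (Fin n) → Prop)
    (hexc : ∃ n₀, ∀ n ≥ n₀, ∀ r, Cen n r →
      (Set.ncard {M : Matroid (Fin n) | Rk r M ∧ ¬ P n M} : ℝ) ≤
        (2 : ℝ) ^ (-(3 * ((2 : ℝ) ^ n / (n : ℝ) ^ 5))) * istab n r ∅) :
    ∃ n₀, ∀ n ≥ n₀, (numLab n (fun M => ¬ P n M) : ℝ) * n.factorial ≤
      (2 : ℝ) ^ (-((2 : ℝ) ^ n / (n : ℝ) ^ 5)) * numLab n (fun _ => True) := by
  classical
  obtain ⟨n₁, h1⟩ := hexc
  obtain ⟨n₂, h2⟩ := hcen.1
  obtain ⟨n₃, h3⟩ := ev_pow 6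
  refine ⟨max (max n₁ n₂) (max n₃ 4), fun n hn => ?_⟩
  have hn1 : n₁ ≤ n := le_trans (le_trans (le_max_left _ _) (le_max_left _ _)) hn
  have hn2 : n₂ ≤ n := le_trans (le_trans (le_max_right _ _) (le_max_left _ _)) hn
  have hn3 : n₃ ≤ n := le_trans (le_trans (le_max_left _ _) (le_max_right _ _)) hn
  have hn5 : 4 ≤ n := le_trans (le_trans (le_max_right _ _) (le_max_right _ _)) hn
  have hfn := hfin n
  have hnR : (4 : ℝ) ≤ n := by exact_mod_cast hn5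
  have hnpos : (0 : ℝ) < n := by linarith
  set L : ℝ := (numLab n (fun _ => True) : ℝ) with hL
  set x : ℝ := (2 : ℝ) ^ n / (n : ℝ) ^ 5 with hx
  have hxbig : 2 * (n : ℝ) ^ 2 + 3 * n + 1 ≤ x := by
    rw [hx, le_div_iff₀ (by positivity)]
    have h := h3 n hn3
    push_cast at h
    have e1 : 2 * (n : ℝ) ^ 2 + 3 * n + 1 ≤ 6 * (n : ℝ) ^ 2 := by nlinarith
    calc (2 * (n : ℝ) ^ 2 + 3 * n + 1) * (n : ℝ) ^ 5 ≤ (6 * (n : ℝ) ^ 2) * (n : ℝ) ^ 5 := by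
          gcongr
      _ = 6 * (n : ℝ) ^ 7 := by ring
      _ ≤ 2 ^ n := h
  have hx0 : 0 < x := by nlinarith
  have hL1' : (2 : ℝ) ^ (x * (n ^ 4 / (n + 1))) ≤ L := by
    obtain ⟨ha, hb⟩ := hlow n (n / 2) (by omega) (by omega)
    have haR : (istab n (n / 2) ∅ : ℝ) ≤ L := by rw [hL]; exact_mod_cast ha
    refine le_trans ?_ (hb.trans haR)
    apply Real.rpow_le_rpow_of_exponent_le (by norm_num)
    have hmid : (2 : ℝ) ^ n ≤ (n + 1) * n.choose (n / 2) := by exact_mod_cast two_pow_le n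
    rw [hx, le_div_iff₀ hnpos]
    have e : (2 : ℝ) ^ n / (n : ℝ) ^ 5 * ((n : ℝ) ^ 4 / (n + 1)) * n = 2 ^ n / (n + 1) := by
      field_simp
    rw [e, div_le_iff₀ (by positivity)]
    linarith
  have hLpos : 0 < L := lt_of_lt_of_le (by positivity) hL1'
  obtain ⟨hfac, hn1'⟩ := pow_bounds n
  apply sum_ranks hfin n _ _
  intro r hrn
  by_cases hr : Cen n r
  · obtain ⟨hr1, hr2⟩ := h2 n hn2 r hr
    have hc := h1 n hn1 r hr
    have hi : (istab n r ∅ : ℝ) ≤ L := by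
      rw [hL]
      exact_mod_cast (hlow n r (by omega) (by omega)).1
    calc (Set.ncard {M : Matroid (Fin n) | Rk r M ∧ ¬ P n M} : ℝ) * ((n + 1) * n.factorial)
        ≤ ((2 : ℝ) ^ (-(3 * x)) * istab n r ∅) * ((n + 1) * n.factorial) := by gcongr
      _ ≤ ((2 : ℝ) ^ (-(3 * x)) * L) * ((2 : ℝ) ^ (n : ℝ) * (2 : ℝ) ^ ((n : ℝ) ^ 2)) := by gcongr
      _ = (2 : ℝ) ^ (0 : ℝ) * (2 : ℝ) ^ (0 : ℝ) * ((2 : ℝ) ^ (-(3 * x)) * L) *
          ((2 : ℝ) ^ (n : ℝ) * (2 : ℝ) ^ ((n : ℝ) ^ 2)) := by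
          rw [Real.rpow_zero, one_mul, one_mul]
      _ = (2 : ℝ) ^ (0 + 0 + -(3 * x) + n + (n : ℝ) ^ 2) * L :=
          rpow5 _ _ _ _ _ L
      _ ≤ (2 : ℝ) ^ (-x) * L := by
          have : 0 + 0 + -(3 * x) + n + (n : ℝ) ^ 2 ≤ -x := by nlinarith
          have := Real.rpow_le_rpow_of_exponent_le (x := (2 : ℝ)) (by norm_num) this
          gcongr
  · have hsmall : (n : ℝ) ^ 3 * n.choose r < 2 ^ n := by
      unfold Cen at hr
      push Not at hr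
      exact_mod_cast hr hrn
    have hsub : {M : Matroid (Fin n) | Rk r M ∧ ¬ P n M} ⊆
        {M : Matroid (Fin n) | Rk r M ∧ ∅ ⊆ NB r M} := by
      intro M hM
      exact ⟨hM.1, Finset.empty_subset _⟩
    have hc : (Set.ncard {M : Matroid (Fin n) | Rk r M ∧ ¬ P n M} : ℝ) ≤
        (2 : ℝ) ^ (x * (n : ℝ) ^ 2) := by
      have h6 : Set.ncard {M : Matroid (Fin n) | Rk r M ∧ ¬ P n M} ≤ 2 ^ n.choose r :=
        (Set.ncard_le_ncard hsub (Set.toFinite _)).trans (hrng n r)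
      have h7 : (Set.ncard {M : Matroid (Fin n) | Rk r M ∧ ¬ P n M} : ℝ) ≤
          (2 : ℝ) ^ (n.choose r : ℝ) := by
        rw [Real.rpow_natCast]
        exact_mod_cast h6
      refine h7.trans ?_
      apply Real.rpow_le_rpow_of_exponent_le (by norm_num)
      rw [hx]
      have e : (2 : ℝ) ^ n / (n : ℝ) ^ 5 * (n : ℝ) ^ 2 = 2 ^ n / (n : ℝ) ^ 3 := by field_simp
      rw [e, le_div_iff₀ (by positivity)]
      linarith
    calc (Set.ncard {M : Matroid (Fin n) | Rk r M ∧ ¬ P n M} : ℝ) * ((n + 1) * n.factorial)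
        ≤ (2 : ℝ) ^ (x * (n : ℝ) ^ 2) * ((2 : ℝ) ^ (n : ℝ) * (2 : ℝ) ^ ((n : ℝ) ^ 2)) := by gcongr
      _ = (2 : ℝ) ^ (x * (n : ℝ) ^ 2 + n + (n : ℝ) ^ 2) := rpow3 _ _ _
      _ ≤ (2 : ℝ) ^ (-x + x * (n ^ 4 / (n + 1))) := by
          apply Real.rpow_le_rpow_of_exponent_le (by norm_num)
          have h8 : (n : ℝ) ^ 2 + 2 ≤ (n : ℝ) ^ 4 / (n + 1) := by
            rw [le_div_iff₀ (by positivity)]
            nlinarith [mul_nonneg (sub_nonneg.2 hnR) (sq_nonneg (n : ℝ)),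
              mul_nonneg (sub_nonneg.2 hnR) (mul_nonneg hnpos.le (sq_nonneg (n : ℝ)))]
          nlinarith [mul_le_mul_of_nonneg_left h8 hx0.le]
      _ = (2 : ℝ) ^ (-x) * (2 : ℝ) ^ (x * (n ^ 4 / (n + 1))) := by
          rw [Real.rpow_add (by norm_num)]
      _ ≤ (2 : ℝ) ^ (-x) * L := by gcongr

/-- The order of the connectivity. -/
noncomputable def kk (n : ℕ) : ℕ := ⌊Real.logb 2 n / 1400⌋₊

/-- The number of the labelled matroids with small connectivity. -/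
theorem total3 (hfin : FinmStmt) (hcen : CenStmt) (hrng : RngStmt) (hlow : LowStmt)
    (hexc : ∃ n₀, ∀ n ≥ n₀, ∀ r, Cen n r → ∀ k : ℕ, 1400 * (k : ℝ) ≤ Real.logb 2 n →
      (Set.ncard {M : Matroid (Fin n) | Rk r M ∧ ¬ KConn k M} : ℝ) ≤
        (2 + k * (r + 1)) * 2 ^ n *
          ((2 : ℝ) ^ (-((n.choose r : ℝ) / (2 * n * (n : ℝ) ^ ((1 : ℝ) / 20)))) * istab n r ∅)) :
    ∃ n₀, ∀ n ≥ n₀, (numLab n (fun M => ¬ KConn (kk n) M) : ℝ) * n.factorial ≤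
      (2 : ℝ) ^ (-((2 : ℝ) ^ n / (n : ℝ) ^ 5)) * numLab n (fun _ => True) := by
  apply totalGen hfin hcen hrng hlow (fun n M => KConn (kk n) M)
  obtain ⟨n₁, h1⟩ := hexc
  obtain ⟨n₂, h2⟩ := ev_roots
  obtain ⟨n₃, h3⟩ := ev_pow 6
  obtain ⟨n₄, h4⟩ := ev_logb 1
  refine ⟨max (max n₁ n₂) (max n₃ (max n₄ 4)), fun n hn r hr => ?_⟩
  have hn1 : n₁ ≤ n := le_trans (le_trans (le_max_left _ _) (le_max_left _ _)) hn
  have hn2 : n₂ ≤ n := le_trans (le_trans (le_max_right _ _) (le_max_left _ _)) hn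
  have hn3 : n₃ ≤ n := le_trans (le_trans (le_max_left _ _) (le_max_right _ _)) hn
  have hn4 : n₄ ≤ n :=
    le_trans (le_trans (le_max_left _ _) (le_trans (le_max_right _ _) (le_max_right _ _))) hn
  have hn5 : 4 ≤ n :=
    le_trans (le_trans (le_max_right _ _) (le_trans (le_max_right _ _) (le_max_right _ _))) hn
  obtain ⟨hL1, -, hLn⟩ := h4 n hn4
  have hnR : (4 : ℝ) ≤ n := by exact_mod_cast hn5
  have hnpos : (0 : ℝ) < n := by linarith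
  have hfl : ((kk n : ℕ) : ℝ) ≤ Real.logb 2 n / 1400 := Nat.floor_le (by positivity)
  have hkn : (kk n : ℝ) ≤ n := by linarith
  have hk14 : 1400 * (kk n : ℝ) ≤ Real.logb 2 n := by linarith
  refine (h1 n hn1 r hr (kk n) hk14).trans ?_
  set x : ℝ := (2 : ℝ) ^ n / (n : ℝ) ^ 5 with hx
  set g := (n : ℝ) ^ ((1 : ℝ) / 20) with hg
  have hgpos : 0 < g := by positivity
  have hg10 := (h2 n hn2).2
  have hxbig : 3 * (n : ℝ) + 1 ≤ x := by
    rw [hx, le_div_iff₀ (by positivity)]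
    have h := h3 n hn3
    push_cast at h
    have e1 : 3 * (n : ℝ) + 1 ≤ 6 * (n : ℝ) ^ 2 := by nlinarith
    calc (3 * (n : ℝ) + 1) * (n : ℝ) ^ 5 ≤ (6 * (n : ℝ) ^ 2) * (n : ℝ) ^ 5 := by
          gcongr
      _ = 6 * (n : ℝ) ^ 7 := by ring
      _ ≤ 2 ^ n := h
  have hexp : 5 * x ≤ (n.choose r : ℝ) / (2 * n * g) := by
    have hcn : (2 : ℝ) ^ n ≤ (n : ℝ) ^ 3 * n.choose r := by exact_mod_cast hr.2
    rw [hx, le_div_iff₀ (by positivity)]
    have e : 5 * ((2 : ℝ) ^ n / (n : ℝ) ^ 5) * (2 * n * g) = (10 * g) * (2 ^ n / (n : ℝ) ^ 4) := by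
      field_simp
      ring
    rw [e]
    calc (10 * g) * ((2 : ℝ) ^ n / (n : ℝ) ^ 4) ≤ n * ((2 : ℝ) ^ n / (n : ℝ) ^ 4) := by gcongr
      _ = (2 : ℝ) ^ n / (n : ℝ) ^ 3 := by field_simp
      _ ≤ n.choose r := by
          rw [div_le_iff₀ (by positivity)]
          linarith
  have hcoef : ((2 : ℝ) + kk n * (r + 1)) ≤ (2 : ℝ) ^ ((n : ℝ) + n) := by
    obtain ⟨-, hn1'⟩ := pow_bounds n
    have hr' : ((r : ℝ) + 1) ≤ (2 : ℝ) ^ (n : ℝ) := by
      have : (r : ℝ) ≤ n := by exact_mod_cast hr.1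
      linarith
    have hk' : (kk n : ℝ) + 1 ≤ (2 : ℝ) ^ (n : ℝ) := by linarith
    have hk0 : (0 : ℝ) ≤ kk n := Nat.cast_nonneg _
    have hr0 : (0 : ℝ) ≤ r := Nat.cast_nonneg _
    rw [Real.rpow_add (by norm_num)]
    have h5 : (5 : ℝ) ≤ (2 : ℝ) ^ (n : ℝ) := by linarith
    have e1 : (kk n : ℝ) * (r + 1) ≤ ((2 : ℝ) ^ (n : ℝ) - 1) * (2 : ℝ) ^ (n : ℝ) := by
      apply mul_le_mul (by linarith) hr' (by positivity) (by linarith)
    nlinarith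
  have h2n' : ((2 : ℝ) ^ n) = (2 : ℝ) ^ (n : ℝ) := (Real.rpow_natCast 2 n).symm
  calc (2 + (kk n : ℝ) * (r + 1)) * 2 ^ n *
        ((2 : ℝ) ^ (-((n.choose r : ℝ) / (2 * n * g))) * istab n r ∅)
      ≤ (2 : ℝ) ^ ((n : ℝ) + n) * (2 : ℝ) ^ (n : ℝ) * ((2 : ℝ) ^ (-(5 * x)) * istab n r ∅) := by
        rw [← h2n']
        have : (2 : ℝ) ^ (-((n.choose r : ℝ) / (2 * n * g))) ≤ (2 : ℝ) ^ (-(5 * x)) :=
          Real.rpow_le_rpow_of_exponent_le (by norm_num) (by linarith)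
        gcongr
    _ = (2 : ℝ) ^ ((n : ℝ) + n + n + -(5 * x)) * istab n r ∅ := by
        have e1 : (2 : ℝ) ^ ((n : ℝ) + n + n + -(5 * x)) =
            (2 : ℝ) ^ ((n : ℝ) + n) * (2 : ℝ) ^ (n : ℝ) * (2 : ℝ) ^ (-(5 * x)) := by
          rw [← Real.rpow_add (by norm_num), ← Real.rpow_add (by norm_num)]
        rw [e1]
        ring
    _ ≤ (2 : ℝ) ^ (-(3 * x)) * istab n r ∅ := by
        have : (n : ℝ) + n + n + -(5 * x) ≤ -(3 * x) := by linarith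
        have := Real.rpow_le_rpow_of_exponent_le (x := (2 : ℝ)) (by norm_num) this
        gcongr

end Pool.Agent.Helper53.KC
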