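import Pool.Agent.Helper53.KC.Goals3

/-!
# CEN3: central ranks are between `3n/8` and `5n/8`
-/

namespace Pool.Agent.Helper53.KC

open Finset

theorem choose_le3 (n r : ℕ) (hr : r ≤ n) : n.choose r * (3 ^ r * 5 ^ (n - r)) ≤ 8 ^ n := by
  have h := add_pow (3 : ℕ) 5 n
  have h2 : n.choose r * (3 ^ r * 5 ^ (n - r)) = 3 ^ r * 5 ^ (n - r) * n.choose r := by ring
  rw [show (8 : ℕ) = 3 + 5 by norm_num, h, h2]
  exact Finset.single_le_sum (f := fun m => 3 ^ m * 5 ^ (n - m) * n.choose m)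
    (fun i _ => Nat.zero_le _) (Finset.mem_range.2 (by omega))

theorem key3 (n r : ℕ) (hr : r ≤ n) (h4 : 8 * r < 3 * n) (hc : 2 ^ n ≤ n ^ 3 * n.choose r) :
    21600000 ^ n ≤ n ^ 24 * 16777216 ^ n := by
  have h1 : (n.choose r * (3 ^ r * 5 ^ (n - r))) ^ 8 ≤ (8 ^ n) ^ 8 :=
    Nat.pow_le_pow_left (choose_le3 n r hr) 8
  have h0 : 84375 ^ n ≤ (3 ^ r * 5 ^ (n - r)) ^ 8 := by
    have e1 : (84375 : ℕ) ^ n = 3 ^ (3 * n) * 5 ^ (5 * n) := by
      rw [pow_mul, pow_mul, ← mul_pow]; norm_num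
    have e2 : (3 ^ r * 5 ^ (n - r)) ^ 8 = 3 ^ (8 * r) * 5 ^ (8 * (n - r)) := by
      rw [mul_pow, ← pow_mul, ← pow_mul, mul_comm r 8, mul_comm (n - r) 8]
    have e3 : 3 * n = 8 * r + (3 * n - 8 * r) := by omega
    have e4 : 8 * (n - r) = (3 * n - 8 * r) + 5 * n := by omega
    rw [e1, e2, e4, pow_add 5, e3, pow_add 3, ← e3, mul_assoc]
    apply Nat.mul_le_mul_left
    exact Nat.mul_le_mul_right _ (Nat.pow_le_pow_left (by norm_num) _)
  have h2 : n.choose r ^ 8 * 84375 ^ n ≤ 16777216 ^ n := by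
    calc n.choose r ^ 8 * 84375 ^ n ≤ n.choose r ^ 8 * (3 ^ r * 5 ^ (n - r)) ^ 8 :=
          Nat.mul_le_mul_left _ h0
      _ = (n.choose r * (3 ^ r * 5 ^ (n - r))) ^ 8 := by rw [← mul_pow]
      _ ≤ (8 ^ n) ^ 8 := h1
      _ = 16777216 ^ n := by rw [← pow_mul, mul_comm, pow_mul]; norm_num
  have h3 : (2 ^ n) ^ 8 ≤ (n ^ 3 * n.choose r) ^ 8 := Nat.pow_le_pow_left hc 8
  calc 21600000 ^ n = (2 ^ n) ^ 8 * 84375 ^ n := by
        rw [← pow_mul, mul_comm n 8, pow_mul, ← mul_pow]; norm_num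
    _ ≤ (n ^ 3 * n.choose r) ^ 8 * 84375 ^ n := Nat.mul_le_mul_right _ h3
    _ = n ^ 24 * (n.choose r ^ 8 * 84375 ^ n) := by rw [mul_pow, ← pow_mul]; ring
    _ ≤ n ^ 24 * 16777216 ^ n := Nat.mul_le_mul_left _ h2

theorem large3 : ∃ n₀ : ℕ, ∀ n ≥ n₀, n ^ 24 * 16777216 ^ n < 21600000 ^ n := by
  have h := tendsto_pow_const_mul_const_pow_of_abs_lt_one 24 (r := (16777216 / 21600000 : ℝ))
    (by rw [abs_of_nonneg (by norm_num)]; norm_num)
  obtain ⟨n₀, hn₀⟩ := Filter.eventually_atTop.1 (h.eventually_lt_const zero_lt_one)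
  refine ⟨n₀, fun n hn => ?_⟩
  have h1 := hn₀ n hn
  rw [div_pow] at h1
  have h2 : (0 : ℝ) < 21600000 ^ n := by positivity
  have h3 : (n : ℝ) ^ 24 * 16777216 ^ n < 21600000 ^ n := by
    rw [← mul_div_assoc, div_lt_one h2] at h1
    exact h1
  exact_mod_cast h3

theorem cen3 : Cen3Stmt := by
  obtain ⟨n₀, hn₀⟩ := large3
  refine ⟨n₀, fun n hn r hC => ?_⟩
  obtain ⟨hr, hc⟩ := hC
  constructor
  · by_contra hlt
    have h1 := key3 n r hr (by omega) hc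
    have h2 := hn₀ n hn
    omega
  · by_contra hlt
    have h1 := key3 n (n - r) (Nat.sub_le _ _) (by omega) (by rw [Nat.choose_symm hr]; exact hc)
    have h2 := hn₀ n hn
    omega

end Pool.Agent.Helper53.KC
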