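import Pool.Agent.Helper53.KC.All
import Pool.Agent.Helper53.KC.Asm5
import Pool.Agent.Helper53.KC.Cen3
import Pool.Agent.Helper53.KC.Nums3
import Pool.Agent.Helper34.KC.Num3
import Pool.Agent.Helper13.KC.Lay
import Pool.Agent.Helper79.KC.Av3

/-!
# Connectivity of order `log n`: the theorem
-/

namespace Pool.Agent.Helper53.KC

open Finset Filter Topology

theorem kconn_mono {α : Type*} {k l : ℕ} (h : k ≤ l) {M : Matroid α} (hM : KConn l M) :
    KConn k M := fun j hj => hM j (lt_of_lt_of_le hj h)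

theorem logA :
    (∃ n₀ : ℕ, ∀ n ≥ n₀,
      (1 - (2 : ℝ) ^ (-((2 : ℝ) ^ n / (n : ℝ) ^ 5))) * numLab n (fun _ => True) ≤
        numLab n (fun M => KConn (kk n) M) ∧
      (1 - (2 : ℝ) ^ (-((2 : ℝ) ^ n / (n : ℝ) ^ 5))) * numUnl n (fun _ => True) ≤
        numUnl n (fun M => KConn (kk n) M)) := by
  have hC := gainC3 (Pool.Agent.Helper79.KC.av3 entA Pool.Agent.Helper13.KC.lay) avgA cen3
    (stab33w (Pool.Agent.Helper13.KC.cnts Pool.Agent.Helper83.KC.cont Pool.Agent.Helper24.KC.sup)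
      (nums3 Pool.Agent.Helper82.KC.bl))
  refine (transfer finA Pool.Agent.Helper67.KC.unl (fun n M => KConn (kk n) M)
    (fun n M σ => Pool.Agent.Helper59.KC.kinv n (kk n) M σ) ?_).1
  apply total3 finA cenA rngA lowA
  exact excCen3 finA Pool.Agent.Helper35.KC.conn
    (mainA3 (Pool.Agent.Helper62.KC.cnt Pool.Agent.Helper83.KC.cont Pool.Agent.Helper24.KC.sup
      Pool.Agent.Helper87.KC.loc (Pool.Agent.Helper39.KC.inj detA) Pool.Agent.Helper15.KC.ext)
      (Pool.Agent.Helper34.KC.num3 Pool.Agent.Helper82.KC.bl cenA) Pool.Agent.Helper35.KC.thk)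
    hC (gainD3 Pool.Agent.Helper56.KC.cmp hC)
    (gainS3 avgA Pool.Agent.Helper93.KC.sep Pool.Agent.Helper8.KC.sepn cen3)

theorem logConnA : ∃ κ : ℝ, 0 < κ ∧
    (∃ n₀ : ℕ, ∀ n ≥ n₀, ∀ k : ℕ, (k : ℝ) ≤ κ * Real.logb 2 n →
      (1 - (2 : ℝ) ^ (-((2 : ℝ) ^ n / (n : ℝ) ^ 5))) * numLab n (fun _ => True) ≤
        numLab n (fun M => KConn k M) ∧
      (1 - (2 : ℝ) ^ (-((2 : ℝ) ^ n / (n : ℝ) ^ 5))) * numUnl n (fun _ => True) ≤
        numUnl n (fun M => KConn k M)) ∧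
    ∀ k : ℕ,
      Tendsto (fun n => (numLab n (fun M => KConn k M) : ℝ) / numLab n (fun _ => True)) atTop (𝓝 1) ∧
      Tendsto (fun n => (numUnl n (fun M => KConn k M) : ℝ) / numUnl n (fun _ => True)) atTop
        (𝓝 1) := by
  have hmonoL : ∀ (n : ℕ) (P Q : Matroid (Fin n) → Prop), (∀ M, P M → Q M) →
      (numLab n P : ℝ) ≤ numLab n Q := by
    intro n P Q h
    have := finA n
    unfold numLab
    have hsub : {M ∈ Lab n | P M} ⊆ {M ∈ Lab n | Q M} := fun M hM => ⟨hM.1, h M hM.2⟩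
    exact_mod_cast Set.ncard_le_ncard hsub (Set.toFinite _)
  have hmonoU : ∀ (n : ℕ) (P Q : Matroid (Fin n) → Prop), (∀ M, P M → Q M) →
      (numUnl n P : ℝ) ≤ numUnl n Q := by
    intro n P Q h
    have := finA n
    unfold numUnl
    have hsub : {M ∈ Lab n | P M} ⊆ {M ∈ Lab n | Q M} := fun M hM => ⟨hM.1, h M hM.2⟩
    exact_mod_cast Set.ncard_le_ncard (Set.image_mono hsub) (Set.toFinite _)
  obtain ⟨n₀, h⟩ := logA
  have hmain : ∃ n₀ : ℕ, ∀ n ≥ n₀, ∀ k : ℕ, (k : ℝ) ≤ 1 / 1400 * Real.logb 2 n →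
      (1 - (2 : ℝ) ^ (-((2 : ℝ) ^ n / (n : ℝ) ^ 5))) * numLab n (fun _ => True) ≤
        numLab n (fun M => KConn k M) ∧
      (1 - (2 : ℝ) ^ (-((2 : ℝ) ^ n / (n : ℝ) ^ 5))) * numUnl n (fun _ => True) ≤
        numUnl n (fun M => KConn k M) := by
    refine ⟨n₀, fun n hn k hk => ?_⟩
    obtain ⟨h1, h2⟩ := h n hn
    have hkk : k ≤ kk n := Nat.le_floor (by linarith)
    exact ⟨h1.trans (hmonoL n _ _ fun M hM => kconn_mono hkk hM),
      h2.trans (hmonoU n _ _ fun M hM => kconn_mono hkk hM)⟩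
  refine ⟨1 / 1400, by norm_num, hmain, fun k => ?_⟩
  obtain ⟨n₁, h1⟩ := hmain
  obtain ⟨n₂, h2⟩ := ev_logb (1400 * k)
  have key : ∀ (f g : ℕ → ℕ),
      (∀ n ≥ max n₁ n₂, (1 - (2 : ℝ) ^ (-((2 : ℝ) ^ n / (n : ℝ) ^ 5))) * (g n : ℝ) ≤ f n) →
      (∀ n, (f n : ℝ) ≤ g n) → (∀ n, 0 < g n) →
      Tendsto (fun n => (f n : ℝ) / g n) atTop (𝓝 1) := by
    intro f g hfg hle hg
    apply tendsto_of_tendsto_of_tendsto_of_le_of_le' lim_one tendsto_const_nhds
    · filter_upwards [eventually_ge_atTop (max n₁ n₂)] with n hn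
      rw [le_div_iff₀ (by exact_mod_cast hg n)]
      exact hfg n hn
    · filter_upwards with n
      rw [div_le_one (by exact_mod_cast hg n)]
      exact hle n
  have hk : ∀ n ≥ max n₁ n₂, (k : ℝ) ≤ 1 / 1400 * Real.logb 2 n := by
    intro n hn
    have := (h2 n ((le_max_right _ _).trans hn)).2.1
    linarith
  constructor
  · exact key (fun n => numLab n (fun M => KConn k M)) (fun n => numLab n (fun _ => True))
      (fun n hn => (h1 n ((le_max_left _ _).trans hn) k (hk n hn)).1)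
      (fun n => hmonoL n _ _ fun _ _ => trivial) (fun n => (num_pos finA n).1)
  · exact key (fun n => numUnl n (fun M => KConn k M)) (fun n => numUnl n (fun _ => True))
      (fun n hn => (h1 n ((le_max_left _ _).trans hn) k (hk n hn)).2)
      (fun n => hmonoU n _ _ fun _ _ => trivial) (fun n => (num_pos finA n).2)

end Pool.Agent.Helper53.KC
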