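import Pool.Agent.Helper53.KC.Goals

/-!
# Assembly, part 1: the gains
-/

namespace Pool.Agent.Helper53.KC

open Finset

theorem mainA (hcnt : CntStmt) (hnum : NumStmt) (hthk : ThkStmt) :
    ∀ η : ℝ, 0 < η → ∃ n₀, ∀ n ≥ n₀, ∀ r, Cen n r → ∀ D ⊆ V n r,
      (nmat n r D : ℝ) ≤ (2 : ℝ) ^ (η * n.choose r / n) * istab n r D := by
  intro η hη
  obtain ⟨n₀, h⟩ := hnum η hη
  refine ⟨n₀, fun n hn r hr D hD => ?_⟩
  obtain ⟨t, Δ₁, Δ₂, i, h', u₁, a₁, u₂, h1, h2, h3, h4, h5, h6, h7, h8, h9, h10, h11⟩ := h n hn r hr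
  have hth : ∀ M : Matroid (Fin n), Rk r M → (thC r t M).card ≤ h' ∧ (thH r t M).card ≤ h' := by
    intro M hM
    obtain ⟨ha, hb⟩ := hthk n r t i M hM
    have hpos : 0 < t.choose i := by
      rcases Nat.eq_zero_or_pos (t.choose i) with h0 | h0
      · rw [h0] at h7
        simp at h7
      · exact h0
    constructor
    · by_contra hc
      push Not at hc
      have : (h' + 1) * t.choose i ≤ (thC r t M).card * t.choose i :=
        Nat.mul_le_mul_right _ hc
      omega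
    · by_contra hc
      push Not at hc
      have : (h' + 1) * t.choose i ≤ (thH r t M).card * t.choose i :=
        Nat.mul_le_mul_right _ hc
      omega
  have key := hcnt n r t Δ₁ Δ₂ h' u₁ a₁ u₂ D h1 h2 h3 h4 h5 h6 hth h8 h9 h10 hD
  calc (nmat n r D : ℝ) ≤ (((bl (2 ^ n) h') ^ 2 * bl (n.choose r * (2 * (bl n t) ^ 2)) u₁ *
      bl (n.choose r * (2 * (bl n t) ^ 2)) u₂ * istab n r D : ℕ) : ℝ) := by exact_mod_cast key
    _ = (((bl (2 ^ n) h') ^ 2 * bl (n.choose r * (2 * (bl n t) ^ 2)) u₁ *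
      bl (n.choose r * (2 * (bl n t) ^ 2)) u₂ : ℕ) : ℝ) * istab n r D := by push_cast; ring
    _ ≤ (2 : ℝ) ^ (η * n.choose r / n) * istab n r D := by gcongr

theorem stab33 (hcnts : CntsStmt) (hnums : NumsStmt) :
    ∃ n₀, ∀ n ≥ n₀, ∀ r, Cen n r → (istab n r ∅ : ℝ) ≤ (2 : ℝ) ^ (33 * n.choose r / n : ℝ) := by
  obtain ⟨n₀, h⟩ := hnums
  refine ⟨n₀, fun n hn r hr => ?_⟩
  obtain ⟨Δ₁, Δ₂, u₁, a₁, u₂, a₂, h1, h2, h3, h4, h5, h6, h7, h8, h9⟩ := h n hn r hr
  have key := hcnts n r Δ₁ Δ₂ u₁ a₁ u₂ a₂ h1 h2 h3 h4 h5 h6 h7 h8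
  exact le_trans (by exact_mod_cast key) h9

theorem istab_mono (n r : ℕ) (D : Finset (Finset (Fin n))) : istab n r D ≤ istab n r ∅ := by
  classical
  unfold istab
  apply Finset.card_le_card
  intro S hS
  rw [Finset.mem_filter, Finset.mem_powerset] at hS ⊢
  refine ⟨hS.1.trans ?_, hS.2⟩
  rw [Finset.sdiff_empty]
  exact Finset.sdiff_subset

theorem istab_pos (n r : ℕ) (D : Finset (Finset (Fin n))) : 1 ≤ istab n r D := by
  classical
  unfold istab
  apply Finset.card_pos.2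
  refine ⟨∅, ?_⟩
  rw [Finset.mem_filter, Finset.mem_powerset]
  exact ⟨Finset.empty_subset _, fun X hX => absurd hX (Finset.notMem_empty X)⟩

theorem card_DC (n r : ℕ) (C : Finset (Fin n)) (hr : C.card ≤ r) :
    (DC r C).card = (n - C.card).choose (r - C.card) := by
  classical
  have h : (DC r C).card = (powersetCard (r - C.card) (Cᶜ)).card := by
    apply Finset.card_bij' (fun X _ => X \ C) (fun Y _ => Y ∪ C)
    · intro X hX
      rw [DC, Finset.mem_filter, V, Finset.mem_powersetCard] at hX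
      rw [Finset.mem_powersetCard]
      refine ⟨?_, ?_⟩
      · intro x hx
        rw [Finset.mem_compl]
        exact (Finset.mem_sdiff.1 hx).2
      · rw [Finset.card_sdiff_of_subset hX.2, hX.1.2]
    · intro Y hY
      rw [Finset.mem_powersetCard] at hY
      rw [DC, Finset.mem_filter, V, Finset.mem_powersetCard]
      have hd : Disjoint Y C := by
        rw [Finset.disjoint_left]
        intro x hx hx'
        have := hY.1 hx
        rw [Finset.mem_compl] at this
        exact this hx'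
      refine ⟨⟨Finset.subset_univ _, ?_⟩, Finset.subset_union_right⟩
      rw [Finset.card_union_of_disjoint hd, hY.2]
      omega
    · intro X hX
      rw [DC, Finset.mem_filter] at hX
      exact Finset.sdiff_union_of_subset hX.2
    · intro Y hY
      rw [Finset.mem_powersetCard] at hY
      have hd : Disjoint Y C := by
        rw [Finset.disjoint_left]
        intro x hx hx'
        have := hY.1 hx
        rw [Finset.mem_compl] at this
        exact this hx'
      rw [Finset.union_sdiff_right, Finset.sdiff_eq_self_of_disjoint hd]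
  rw [h, Finset.card_powersetCard, Finset.card_compl, Fintype.card_fin]

/-- The gain for a small dependent set. -/
theorem gainC (hav : AvStmt) (havg : AvgStmt) (hcen : CenStmt)
    (h33 : ∃ n₀, ∀ n ≥ n₀, ∀ r, Cen n r → (istab n r ∅ : ℝ) ≤ (2 : ℝ) ^ (33 * n.choose r / n : ℝ)) :
    ∀ c : ℕ, ∃ δ : ℝ, 0 < δ ∧ ∃ n₀, ∀ n ≥ n₀, ∀ r, Cen n r → ∀ C : Finset (Fin n), C.card = c →
      (istab n r (DC r C) : ℝ) * (2 : ℝ) ^ (δ * n.choose r / n) ≤ istab n r ∅ := by
  classical
  intro c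
  set b : ℝ := 33 * 5 ^ c with hb
  refine ⟨(2 : ℝ) ^ (-b) / 5 ^ c, by positivity, ?_⟩
  obtain ⟨n₁, h1⟩ := hcen.1
  obtain ⟨n₂, h2⟩ := hcen.2 c 0
  obtain ⟨n₃, h3⟩ := h33
  refine ⟨max (max n₁ n₂) (max n₃ (4 * c + 1)), fun n hn r hr C hC => ?_⟩
  have hn1 : n₁ ≤ n := le_trans (le_trans (le_max_left _ _) (le_max_left _ _)) hn
  have hn2 : n₂ ≤ n := le_trans (le_trans (le_max_right _ _) (le_max_left _ _)) hn
  have hn3 : n₃ ≤ n := le_trans (le_trans (le_max_left _ _) (le_max_right _ _)) hn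
  have hn4 : 4 * c + 1 ≤ n := le_trans (le_trans (le_max_right _ _) (le_max_right _ _)) hn
  obtain ⟨hr1, hr2⟩ := h1 n hn1 r hr
  have hcr : c ≤ r := by omega
  have hnpos : 0 < n := by omega
  have hcard : (DC r C).card = (n - c).choose (r - c) := by
    rw [card_DC n r C (by omega), hC]
  have hch : n.choose r ≤ 5 ^ c * (DC r C).card := by
    have := h2 n hn2 r hr1 hr2
    rw [hcard]
    simpa using this
  have hchpos : 0 < n.choose r := Nat.choose_pos hr.1
  have hDpos : 0 < (DC r C).card := by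
    rcases Nat.eq_zero_or_pos (DC r C).card with h0 | h0
    · rw [h0] at hch; omega
    · exact h0
  have hchR : (n.choose r : ℝ) ≤ 5 ^ c * (DC r C).card := by exact_mod_cast hch
  have hlog : (r : ℝ) * Real.logb 2 (istab n r (DC r C)) ≤ b * (DC r C).card := by
    have hi1 : (1 : ℝ) ≤ istab n r (DC r C) := by exact_mod_cast istab_pos n r (DC r C)
    have hle : (istab n r (DC r C) : ℝ) ≤ (2 : ℝ) ^ (33 * n.choose r / n : ℝ) :=
      le_trans (by exact_mod_cast istab_mono n r (DC r C)) (h3 n hn3 r hr)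
    have hl : Real.logb 2 (istab n r (DC r C)) ≤ (33 * n.choose r / n : ℝ) := by
      rw [Real.logb_le_iff_le_rpow (by norm_num) (by linarith)]
      exact hle
    have hl0 : 0 ≤ Real.logb 2 (istab n r (DC r C)) := Real.logb_nonneg (by norm_num) hi1
    have hrn : (r : ℝ) ≤ n := by exact_mod_cast hr.1
    have hnR : (0 : ℝ) < n := by exact_mod_cast hnpos
    calc (r : ℝ) * Real.logb 2 (istab n r (DC r C)) ≤ n * (33 * n.choose r / n : ℝ) := by gcongr
      _ = 33 * n.choose r := by field_simp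
      _ ≤ 33 * (5 ^ c * (DC r C).card) := by gcongr
      _ = b * (DC r C).card := by rw [hb]; ring
  have hA := hav n r C b (Finset.card_pos.1 hDpos) hlog
  have hB := havg n r (DC r C) ((DC r C).card * (2 : ℝ) ^ (-b)) (by omega)
    (by unfold DC; exact Finset.filter_subset _ _)
    (by
      refine le_trans (le_of_eq ?_) hA
      ring)
  refine le_trans ?_ hB
  have hnR : (0 : ℝ) < n := by exact_mod_cast hnpos
  have hexp : (2 : ℝ) ^ (-b) / 5 ^ c * (n.choose r) / n ≤ ((DC r C).card * (2 : ℝ) ^ (-b)) / n := by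
    apply div_le_div_of_nonneg_right _ hnR.le
    have h2b : (0 : ℝ) < (2 : ℝ) ^ (-b) := by positivity
    have h5 : (0 : ℝ) < 5 ^ c := by positivity
    calc (2 : ℝ) ^ (-b) / 5 ^ c * (n.choose r) ≤ (2 : ℝ) ^ (-b) / 5 ^ c * (5 ^ c * (DC r C).card) := by
          gcongr
      _ = (DC r C).card * (2 : ℝ) ^ (-b) := by field_simp
  have := Real.rpow_le_rpow_of_exponent_le (x := (2 : ℝ)) (by norm_num) hexp
  gcongr

theorem cen_symm {n r : ℕ} (h : Cen n r) : Cen n (n - r) := by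
  refine ⟨Nat.sub_le _ _, ?_⟩
  rw [Nat.choose_symm h.1]
  exact h.2

/-- The gain for a small codependent set. -/
theorem gainD (hcmp : CmpStmt)
    (hC : ∀ c : ℕ, ∃ δ : ℝ, 0 < δ ∧ ∃ n₀, ∀ n ≥ n₀, ∀ r, Cen n r → ∀ C : Finset (Fin n), C.card = c →
      (istab n r (DC r C) : ℝ) * (2 : ℝ) ^ (δ * n.choose r / n) ≤ istab n r ∅) :
    ∀ c : ℕ, ∃ δ : ℝ, 0 < δ ∧ ∃ n₀, ∀ n ≥ n₀, ∀ r, Cen n r → ∀ C : Finset (Fin n), C.card = c →
      (istab n r (DD r C) : ℝ) * (2 : ℝ) ^ (δ * n.choose r / n) ≤ istab n r ∅ := by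
  intro c
  obtain ⟨δ, hδ, n₀, h⟩ := hC c
  refine ⟨δ, hδ, n₀, fun n hn r hr C hCc => ?_⟩
  obtain ⟨h1, h2⟩ := hcmp n r C hr.1
  rw [h1, h2, ← Nat.choose_symm hr.1]
  exact h n hn (n - r) (cen_symm hr) C hCc

/-- The gain for a separation. -/
theorem gainS (havg : AvgStmt) (hsep : SepStmt) (hsepn : SepnStmt) (hcen : CenStmt) :
    ∀ j : ℕ, ∃ δ : ℝ, 0 < δ ∧ ∃ n₀, ∀ n ≥ n₀, ∀ r, Cen n r → ∀ (W : Finset (Fin n)) (a : ℕ),
      j + 2 ≤ W.card → j + 2 ≤ Wᶜ.card →
      (istab n r (DS r W a j) : ℝ) * (2 : ℝ) ^ (δ * n.choose r / n) ≤ istab n r ∅ := by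
  classical
  intro j
  set m := j + 2 with hm
  refine ⟨1 / 5 ^ (m + m), by positivity, ?_⟩
  obtain ⟨n₁, h1⟩ := hcen.1
  obtain ⟨n₂, h2⟩ := hcen.2 m m
  refine ⟨max (max n₁ n₂) (4 * m + 1), fun n hn r hr W a hW hWc => ?_⟩
  have hn1 : n₁ ≤ n := le_trans (le_trans (le_max_left _ _) (le_max_left _ _)) hn
  have hn2 : n₂ ≤ n := le_trans (le_trans (le_max_right _ _) (le_max_left _ _)) hn
  have hn4 : 4 * m + 1 ≤ n := le_trans (le_max_right _ _) hn
  obtain ⟨hr1, hr2⟩ := h1 n hn1 r hr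
  have hmr : m ≤ r := by omega
  have hs := hsep n r a j W hW hWc hmr
  set D0 := (V n r).filter fun X => (X ∩ W).card + 1 < a ∨ a + j < (X ∩ W).card with hD0
  have hsub : D0 ⊆ DS r W a j := by
    intro X hX
    rw [hD0, Finset.mem_filter] at hX
    rw [DS, Finset.mem_filter]
    refine ⟨hX.1, ?_⟩
    rcases hX.2 with h | h
    · left; omega
    · right; omega
  have hch : n.choose r ≤ 5 ^ (m + m) * D0.card :=
    le_trans (h2 n hn2 r hr1 hr2) (Nat.mul_le_mul_left _ hs)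
  have hchR : (n.choose r : ℝ) ≤ 5 ^ (m + m) * D0.card := by exact_mod_cast hch
  have hB := havg n r (DS r W a j) (D0.card : ℝ) (by omega)
    (by unfold DS; exact Finset.filter_subset _ _)
    (by
      have hcardI : (istab n r (DS r W a j) : ℝ) =
          ∑ S ∈ ((V n r) \ (DS r W a j)).powerset.filter Stb, (1 : ℝ) := by
        rw [Finset.sum_const, nsmul_eq_mul, mul_one]
        rfl
      rw [hcardI, Finset.mul_sum]
      apply Finset.sum_le_sum
      intro S hS
      rw [Finset.mem_filter, Finset.mem_powerset] at hS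
      rw [mul_one]
      norm_cast
      apply Finset.card_le_card
      intro X hX
      rw [Finset.mem_filter]
      refine ⟨hsub hX, fun Y hY hadj => ?_⟩
      rw [hD0, Finset.mem_filter] at hX
      have hYV := Finset.mem_sdiff.1 (hS.1 hY)
      exact hYV.2 (hsepn n r a j W X Y hX.1 hYV.1 hadj hX.2))
  refine le_trans ?_ hB
  have hnR : (0 : ℝ) < n := by exact_mod_cast (by omega : 0 < n)
  have hexp : 1 / 5 ^ (m + m) * (n.choose r : ℝ) / n ≤ (D0.card : ℝ) / n := by
    apply div_le_div_of_nonneg_right _ hnR.le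
    have h5 : (0 : ℝ) < 5 ^ (m + m) := by positivity
    calc 1 / 5 ^ (m + m) * (n.choose r : ℝ) ≤ 1 / 5 ^ (m + m) * (5 ^ (m + m) * D0.card) := by
          gcongr
      _ = D0.card := by field_simp
  have := Real.rpow_le_rpow_of_exponent_le (x := (2 : ℝ)) (by norm_num) hexp
  gcongr

end Pool.Agent.Helper53.KC
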