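import Pool.Agent.Helper53.KC.Fin

/-!
# Assembly, part 3: the end of the proof
-/

namespace Pool.Agent.Helper53.KC

open Finset Filter Topology

theorem ev_pow (K : ℕ) : ∃ n₀ : ℕ, ∀ n ≥ n₀, (K : ℝ) * (n : ℝ) ^ 7 ≤ 2 ^ n := by
  have h : Tendsto (fun n : ℕ => (n : ℝ) ^ 7 / 2 ^ n) atTop (𝓝 0) :=
    tendsto_pow_const_div_const_pow_of_one_lt 7 (by norm_num)
  have h2 := h.eventually (gt_mem_nhds (show (0 : ℝ) < 1 / (K + 1) by positivity))
  rw [eventually_atTop] at h2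
  obtain ⟨n₀, h2⟩ := h2
  refine ⟨n₀, fun n hn => ?_⟩
  have h3 := h2 n hn
  rw [div_lt_div_iff₀ (by positivity) (by positivity)] at h3
  have h4 : (0 : ℝ) ≤ (n : ℝ) ^ 7 := by positivity
  nlinarith

theorem two_pow_le (n : ℕ) : 2 ^ n ≤ (n + 1) * n.choose (n / 2) := by
  rw [← Nat.sum_range_choose n]
  calc ∑ m ∈ range (n + 1), n.choose m ≤ ∑ m ∈ range (n + 1), n.choose (n / 2) :=
        Finset.sum_le_sum fun m _ => Nat.choose_le_middle m n
    _ = (n + 1) * n.choose (n / 2) := by simp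

theorem exists_rk (n : ℕ) (M : Matroid (Fin n)) (hM : M ∈ Lab n) : ∃ r ≤ n, Rk r M := by
  have h1 : M.eRank ≤ (n : ℕ∞) := by
    refine (M.eRank_le_encard_ground).trans ?_
    rw [show M.E = Set.univ from hM, Set.encard_univ]
    simp
  obtain ⟨r, hr, hr2⟩ := ENat.le_coe_iff.1 h1
  exact ⟨r, hr2, hM, hr⟩

theorem pow_bounds (n : ℕ) : ((n.factorial : ℕ) : ℝ) ≤ (2 : ℝ) ^ ((n : ℝ) ^ 2) ∧
    ((n : ℝ) + 1) ≤ (2 : ℝ) ^ (n : ℝ) := by
  have h2 : n + 1 ≤ 2 ^ n := Nat.lt_two_pow_self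
  constructor
  · have h : n.factorial ≤ 2 ^ (n ^ 2) := by
      calc n.factorial ≤ n ^ n := Nat.factorial_le_pow n
        _ ≤ (2 ^ n) ^ n := Nat.pow_le_pow_left (by omega) n
        _ = 2 ^ (n ^ 2) := by rw [← pow_mul, sq]
    have h' : ((n.factorial : ℕ) : ℝ) ≤ (2 : ℝ) ^ (n ^ 2) := by exact_mod_cast h
    calc ((n.factorial : ℕ) : ℝ) ≤ (2 : ℝ) ^ (n ^ 2) := h'
      _ = (2 : ℝ) ^ ((n : ℝ) ^ 2) := by
        rw [← Real.rpow_natCast]
        push_cast
        rfl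
  · have h' : ((n : ℝ) + 1) ≤ (2 : ℝ) ^ n := by exact_mod_cast h2
    rwa [Real.rpow_natCast]

theorem rpow5 (a b c d e L : ℝ) : (2 : ℝ) ^ a * (2 : ℝ) ^ b * ((2 : ℝ) ^ c * L) *
    ((2 : ℝ) ^ d * (2 : ℝ) ^ e) = (2 : ℝ) ^ (a + b + c + d + e) * L := by
  rw [Real.rpow_add (by norm_num), Real.rpow_add (by norm_num), Real.rpow_add (by norm_num),
    Real.rpow_add (by norm_num)]
  ring

theorem rpow3 (a b c : ℝ) : (2 : ℝ) ^ a * ((2 : ℝ) ^ b * (2 : ℝ) ^ c) =
    (2 : ℝ) ^ (a + b + c) := by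
  rw [Real.rpow_add (by norm_num), Real.rpow_add (by norm_num)]
  ring

/-- The number of the labelled matroids which are not `k`-connected. -/
theorem total (hfin : FinmStmt) (hcen : CenStmt) (hrng : RngStmt) (hlow : LowStmt) (k : ℕ)
    (hexc : ∃ ε : ℝ, 0 < ε ∧ ∃ n₀, ∀ n ≥ n₀, ∀ r, Cen n r →
      (Set.ncard {M : Matroid (Fin n) | Rk r M ∧ ¬ KConn k M} : ℝ) ≤
        (2 + k * (r + 1)) * 2 ^ n * ((2 : ℝ) ^ (-(ε * n.choose r / n)) * istab n r ∅)) :
    ∃ n₀, ∀ n ≥ n₀, (numLab n (fun M => ¬ KConn k M) : ℝ) * n.factorial ≤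
      (2 : ℝ) ^ (-((2 : ℝ) ^ n / (n : ℝ) ^ 5)) * numLab n (fun _ => True) := by
  classical
  obtain ⟨ε, hε, n₁, h1⟩ := hexc
  obtain ⟨n₂, h2⟩ := hcen.1
  obtain ⟨n₃, h3⟩ := ev_pow (k + 6)
  obtain ⟨n₄, h4⟩ := exists_nat_ge (2 / ε)
  refine ⟨max (max n₁ n₂) (max n₃ (max n₄ 4)), fun n hn => ?_⟩
  have hn1 : n₁ ≤ n := le_trans (le_trans (le_max_left _ _) (le_max_left _ _)) hn
  have hn2 : n₂ ≤ n := le_trans (le_trans (le_max_right _ _) (le_max_left _ _)) hn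
  have hn3 : n₃ ≤ n := le_trans (le_trans (le_max_left _ _) (le_max_right _ _)) hn
  have hn4 : n₄ ≤ n :=
    le_trans (le_trans (le_max_left _ _) (le_trans (le_max_right _ _) (le_max_right _ _))) hn
  have hn5 : 4 ≤ n :=
    le_trans (le_trans (le_max_right _ _) (le_trans (le_max_right _ _) (le_max_right _ _))) hn
  haveI := hfin n
  have hnR : (4 : ℝ) ≤ n := by exact_mod_cast hn5
  have hnpos : (0 : ℝ) < n := by linarith
  set L : ℝ := (numLab n (fun _ => True) : ℝ) with hL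
  set x : ℝ := (2 : ℝ) ^ n / (n : ℝ) ^ 5 with hx
  have hxbig : (n : ℝ) ^ 2 + 3 * n + k + 1 ≤ x := by
    rw [hx, le_div_iff₀ (by positivity)]
    have h := h3 n hn3
    push_cast at h
    have e1 : (n : ℝ) ^ 2 + 3 * n + k + 1 ≤ (k + 6) * (n : ℝ) ^ 2 := by
      have hk : (0 : ℝ) ≤ k := Nat.cast_nonneg k
      nlinarith [mul_nonneg hk (sub_nonneg.2 (show (1 : ℝ) ≤ (n : ℝ) ^ 2 by nlinarith))]
    calc ((n : ℝ) ^ 2 + 3 * n + k + 1) * (n : ℝ) ^ 5 ≤ ((k + 6) * (n : ℝ) ^ 2) * (n : ℝ) ^ 5 := by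
          gcongr
      _ = (k + 6) * (n : ℝ) ^ 7 := by ring
      _ ≤ 2 ^ n := h
  have hx0 : 0 < x := by
    have hk : (0 : ℝ) ≤ k := Nat.cast_nonneg k
    nlinarith
  have hL1 : (2 : ℝ) ^ (x * (n ^ 4 / (n + 1))) ≤ L := by
    obtain ⟨ha, hb⟩ := hlow n (n / 2) (by omega) (by omega)
    have haR : (istab n (n / 2) ∅ : ℝ) ≤ L := by rw [hL]; exact_mod_cast ha
    refine le_trans ?_ (hb.trans haR)
    apply Real.rpow_le_rpow_of_exponent_le (by norm_num)
    have hmid : (2 : ℝ) ^ n ≤ (n + 1) * n.choose (n / 2) := by exact_mod_cast two_pow_le n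
    rw [hx, le_div_iff₀ hnpos]
    have e : (2 : ℝ) ^ n / (n : ℝ) ^ 5 * ((n : ℝ) ^ 4 / (n + 1)) * n = 2 ^ n / (n + 1) := by
      field_simp
    rw [e, div_le_iff₀ (by positivity)]
    linarith
  have hLpos : 0 < L := lt_of_lt_of_le (by positivity) hL1
  obtain ⟨hfac, hn1'⟩ := pow_bounds n
  -- the bound for one rank
  have hpiece : ∀ r ≤ n, (Set.ncard {M : Matroid (Fin n) | Rk r M ∧ ¬ KConn k M} : ℝ) *
      ((n + 1) * n.factorial) ≤ (2 : ℝ) ^ (-x) * L := by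
    intro r hrn
    by_cases hr : Cen n r
    · obtain ⟨hr1, hr2⟩ := h2 n hn2 r hr
      have hc := h1 n hn1 r hr
      have hi : (istab n r ∅ : ℝ) ≤ L := by
        rw [hL]
        exact_mod_cast (hlow n r (by omega) (by omega)).1
      have hcoef : ((2 : ℝ) + k * (r + 1)) ≤ (2 : ℝ) ^ ((k : ℝ) + n + 1) := by
        have hk1 : (k : ℝ) ≤ (2 : ℝ) ^ (k : ℝ) := by
          rw [Real.rpow_natCast]; exact_mod_cast (Nat.lt_two_pow_self (n := k)).le
        have hr' : ((r : ℝ) + 1) ≤ (2 : ℝ) ^ (n : ℝ) := by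
          have : (r : ℝ) ≤ n := by exact_mod_cast hrn
          linarith
        have h2k : (1 : ℝ) ≤ (2 : ℝ) ^ (k : ℝ) := by
          rw [Real.rpow_natCast]; exact_mod_cast Nat.one_le_two_pow
        have h2n : (2 : ℝ) ≤ (2 : ℝ) ^ (n : ℝ) := by
          have := hn1'
          linarith
        have hprod : (k : ℝ) * (r + 1) ≤ (2 : ℝ) ^ (k : ℝ) * (2 : ℝ) ^ (n : ℝ) := by gcongr
        have hprod2 : (2 : ℝ) ≤ (2 : ℝ) ^ (k : ℝ) * (2 : ℝ) ^ (n : ℝ) := by nlinarith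
        rw [Real.rpow_add (by norm_num), Real.rpow_add (by norm_num), Real.rpow_one]
        linarith
      have hexp2 : (2 : ℝ) ^ (-(ε * n.choose r / n)) ≤ (2 : ℝ) ^ (-(ε * n * x)) := by
        apply Real.rpow_le_rpow_of_exponent_le (by norm_num)
        have hcn : (2 : ℝ) ^ n ≤ (n : ℝ) ^ 3 * n.choose r := by exact_mod_cast hr.2
        have : ε * n * x ≤ ε * n.choose r / n := by
          rw [hx, le_div_iff₀ hnpos]
          have e : ε * n * ((2 : ℝ) ^ n / (n : ℝ) ^ 5) * n = ε * (2 ^ n / (n : ℝ) ^ 3) := by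
            field_simp
          rw [e]
          have : (2 : ℝ) ^ n / (n : ℝ) ^ 3 ≤ n.choose r := by
            rw [div_le_iff₀ (by positivity)]
            linarith
          gcongr
        linarith
      have h2n' : ((2 : ℝ) ^ n) = (2 : ℝ) ^ (n : ℝ) := (Real.rpow_natCast 2 n).symm
      calc (Set.ncard {M : Matroid (Fin n) | Rk r M ∧ ¬ KConn k M} : ℝ) * ((n + 1) * n.factorial)
          ≤ ((2 + k * (r + 1)) * 2 ^ n * ((2 : ℝ) ^ (-(ε * n.choose r / n)) * istab n r ∅)) *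
            ((n + 1) * n.factorial) := by gcongr
        _ ≤ ((2 : ℝ) ^ ((k : ℝ) + n + 1) * (2 : ℝ) ^ (n : ℝ) * ((2 : ℝ) ^ (-(ε * n * x)) * L)) *
            ((2 : ℝ) ^ (n : ℝ) * (2 : ℝ) ^ ((n : ℝ) ^ 2)) := by
            rw [h2n']
            gcongr
        _ = (2 : ℝ) ^ ((k : ℝ) + n + 1 + n + -(ε * n * x) + n + (n : ℝ) ^ 2) * L := by
            exact rpow5 _ _ _ _ _ L
        _ ≤ (2 : ℝ) ^ (-x) * L := by
            gcongr
            · norm_num
            · have h5 : 2 ≤ ε * n := by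
                have : 2 / ε ≤ n := h4.trans (by exact_mod_cast hn4)
                rw [div_le_iff₀ hε] at this
                linarith
              nlinarith
    · have hsmall : (n : ℝ) ^ 3 * n.choose r < 2 ^ n := by
        unfold Cen at hr
        push Not at hr
        exact_mod_cast hr hrn
      have hsub : {M : Matroid (Fin n) | Rk r M ∧ ¬ KConn k M} ⊆
          {M : Matroid (Fin n) | Rk r M ∧ ∅ ⊆ NB r M} := by
        intro M hM
        exact ⟨hM.1, Finset.empty_subset _⟩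
      have hc : (Set.ncard {M : Matroid (Fin n) | Rk r M ∧ ¬ KConn k M} : ℝ) ≤
          (2 : ℝ) ^ (x * (n : ℝ) ^ 2) := by
        have h6 : Set.ncard {M : Matroid (Fin n) | Rk r M ∧ ¬ KConn k M} ≤ 2 ^ n.choose r :=
          (Set.ncard_le_ncard hsub (Set.toFinite _)).trans (hrng n r)
        have h7 : (Set.ncard {M : Matroid (Fin n) | Rk r M ∧ ¬ KConn k M} : ℝ) ≤
            (2 : ℝ) ^ (n.choose r : ℝ) := by
          rw [Real.rpow_natCast]
          exact_mod_cast h6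
        refine h7.trans ?_
        apply Real.rpow_le_rpow_of_exponent_le (by norm_num)
        rw [hx]
        have e : (2 : ℝ) ^ n / (n : ℝ) ^ 5 * (n : ℝ) ^ 2 = 2 ^ n / (n : ℝ) ^ 3 := by field_simp
        rw [e, le_div_iff₀ (by positivity)]
        linarith
      calc (Set.ncard {M : Matroid (Fin n) | Rk r M ∧ ¬ KConn k M} : ℝ) * ((n + 1) * n.factorial)
          ≤ (2 : ℝ) ^ (x * (n : ℝ) ^ 2) * ((2 : ℝ) ^ (n : ℝ) * (2 : ℝ) ^ ((n : ℝ) ^ 2)) := by gcongr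
        _ = (2 : ℝ) ^ (x * (n : ℝ) ^ 2 + n + (n : ℝ) ^ 2) := rpow3 _ _ _
        _ ≤ (2 : ℝ) ^ (-x + x * (n ^ 4 / (n + 1))) := by
            apply Real.rpow_le_rpow_of_exponent_le (by norm_num)
            have h8 : (n : ℝ) ^ 2 + 2 ≤ (n : ℝ) ^ 4 / (n + 1) := by
              rw [le_div_iff₀ (by positivity)]
              nlinarith [mul_nonneg (sub_nonneg.2 hnR) (sq_nonneg (n : ℝ)),
                mul_nonneg (sub_nonneg.2 hnR) (mul_nonneg hnpos.le (sq_nonneg (n : ℝ)))]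
            have hk : (0 : ℝ) ≤ k := Nat.cast_nonneg k
            nlinarith [mul_le_mul_of_nonneg_left h8 hx0.le]
        _ = (2 : ℝ) ^ (-x) * (2 : ℝ) ^ (x * (n ^ 4 / (n + 1))) := by
            rw [Real.rpow_add (by norm_num)]
        _ ≤ (2 : ℝ) ^ (-x) * L := by gcongr
  -- sum over the ranks
  have hsub : {M ∈ Lab n | ¬ KConn k M} ⊆
      ⋃ r ∈ range (n + 1), {M : Matroid (Fin n) | Rk r M ∧ ¬ KConn k M} := by
    intro M hM
    obtain ⟨r, hr, hr2⟩ := exists_rk n M hM.1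
    rw [Set.mem_iUnion₂]
    exact ⟨r, Finset.mem_range.2 (by omega), hr2, hM.2⟩
  have hsum : ∀ s : Finset ℕ,
      (⋃ r ∈ s, {M : Matroid (Fin n) | Rk r M ∧ ¬ KConn k M}).ncard ≤
      ∑ r ∈ s, Set.ncard {M : Matroid (Fin n) | Rk r M ∧ ¬ KConn k M} := by
    intro s
    induction s using Finset.induction_on with
    | empty => simp
    | insert a s ha ih =>
      rw [Finset.set_biUnion_insert, Finset.sum_insert ha]
      exact (Set.ncard_union_le _ _).trans (by omega)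
  have hall : (numLab n (fun M => ¬ KConn k M) : ℝ) ≤
      ∑ r ∈ range (n + 1), (Set.ncard {M : Matroid (Fin n) | Rk r M ∧ ¬ KConn k M} : ℝ) := by
    have := (Set.ncard_le_ncard hsub (Set.toFinite _)).trans (hsum (range (n + 1)))
    unfold numLab
    exact_mod_cast this
  have hn1pos : (0 : ℝ) < (n : ℝ) + 1 := by linarith
  have hfin2 : (numLab n (fun M => ¬ KConn k M) : ℝ) * ((n + 1) * n.factorial) ≤
      (n + 1) * ((2 : ℝ) ^ (-x) * L) := by
    calc (numLab n (fun M => ¬ KConn k M) : ℝ) * ((n + 1) * n.factorial)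
        ≤ (∑ r ∈ range (n + 1), (Set.ncard {M : Matroid (Fin n) | Rk r M ∧ ¬ KConn k M} : ℝ)) *
          ((n + 1) * n.factorial) := by gcongr
      _ = ∑ r ∈ range (n + 1), (Set.ncard {M : Matroid (Fin n) | Rk r M ∧ ¬ KConn k M} : ℝ) *
          ((n + 1) * n.factorial) := by rw [Finset.sum_mul]
      _ ≤ ∑ r ∈ range (n + 1), ((2 : ℝ) ^ (-x) * L) :=
          Finset.sum_le_sum fun r hr => hpiece r (by rw [Finset.mem_range] at hr; omega)
      _ = (n + 1) * ((2 : ℝ) ^ (-x) * L) := by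
          rw [Finset.sum_const, Finset.card_range, nsmul_eq_mul]
          push_cast
          ring
  have : (n + 1 : ℝ) * ((numLab n (fun M => ¬ KConn k M) : ℝ) * n.factorial) ≤
      (n + 1) * ((2 : ℝ) ^ (-x) * L) := by
    calc (n + 1 : ℝ) * ((numLab n (fun M => ¬ KConn k M) : ℝ) * n.factorial)
        = (numLab n (fun M => ¬ KConn k M) : ℝ) * ((n + 1) * n.factorial) := by ring
      _ ≤ _ := hfin2
  exact le_of_mul_le_mul_left this hn1pos

end Pool.Agent.Helper53.KC
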