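import Pool.Agent.Helper53.KC.Goals2
import Pool.Agent.Helper53.KC.Tot

/-!
# Assembly for the automorphisms
-/

namespace Pool.Agent.Helper53.KC

open Finset Filter Topology

theorem mainSym (hcnt : Cnt2Stmt) (hnum : Num2Stmt) (hthk : ThkStmt) :
    ∃ n₀, ∀ n ≥ n₀, ∀ r, Cen n r → ∀ σ : Equiv.Perm (Fin n),
      (nsym n r σ : ℝ) ≤ (2 : ℝ) ^ ((n.choose r : ℝ) / (n * (Real.logb 2 n) ^ 2)) * isym n r σ := by
  obtain ⟨n₀, h⟩ := hnum
  refine ⟨n₀, fun n hn r hr σ => ?_⟩
  obtain ⟨t, Δ₁, Δ₂, i, h', u₁, a₁, u₂, h1, h2, h3, h4, h5, h6, h7, h8, h9, h10, h11⟩ := h n hn r hr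
  have hth : ∀ M : Matroid (Fin n), Rk r M → (thC r t M).card ≤ h' ∧ (thH r t M).card ≤ h' := by
    intro M hM
    obtain ⟨ha, hb⟩ := hthk n r t i M hM
    constructor
    · by_contra hc
      push Not at hc
      have : (h' + 1) * t.choose i ≤ (thC r t M).card * t.choose i :=
        Nat.mul_le_mul_right _ hc
      omega
    · by_contra hc
      push Not at hc
      have : (h' + 1) * t.choose i ≤ (thH r t M).card * t.choose i :=
        Nat.mul_le_mul_right _ hc
      omega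
  have key := hcnt n r t Δ₁ Δ₂ h' u₁ a₁ u₂ σ h1 h2 h3 h4 h5 h6 hth h8 h9 h10
  calc (nsym n r σ : ℝ) ≤ (((bl (2 ^ n) h') ^ 2 * bl (n.choose r * (2 * (bl n t) ^ 2)) u₁ *
      bl (n.choose r * (2 * (bl n t) ^ 2)) u₂ * isym n r σ : ℕ) : ℝ) := by exact_mod_cast key
    _ = (((bl (2 ^ n) h') ^ 2 * bl (n.choose r * (2 * (bl n t) ^ 2)) u₁ *
      bl (n.choose r * (2 * (bl n t) ^ 2)) u₂ : ℕ) : ℝ) * isym n r σ := by push_cast; ring
    _ ≤ _ := by gcongr

theorem card_D2 (n r : ℕ) (x y : Fin n) (hxy : x ≠ y) (hr : 1 ≤ r) :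
    (n - 1 - 1).choose (r - 1) ≤ (D2 r x y).card := by
  classical
  have h : (powersetCard (r - 1) (({x, y} : Finset (Fin n))ᶜ)).card ≤ (D2 r x y).card := by
    apply Finset.card_le_card_of_injOn (fun Y => insert x Y)
    · intro Y hY
      rw [Finset.mem_coe, Finset.mem_powersetCard] at hY
      have hx : x ∉ Y := fun h => by
        have := hY.1 h
        simp at this
      have hy : y ∉ Y := fun h => by
        have := hY.1 h
        simp at this
      rw [Finset.mem_coe, D2, Finset.mem_filter, V, Finset.mem_powersetCard]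
      refine ⟨⟨Finset.subset_univ _, ?_⟩, ?_⟩
      · rw [Finset.card_insert_of_notMem hx, hY.2]; omega
      · intro h
        have := h.1 (Finset.mem_insert_self _ _)
        rw [Finset.mem_insert] at this
        rcases this with h1 | h1
        · exact hxy h1.symm
        · exact hy h1
    · intro Y hY Y' hY' hE
      rw [Finset.mem_coe, Finset.mem_powersetCard] at hY hY'
      have hx : x ∉ Y := fun h => by
        have := hY.1 h
        simp at this
      have hx' : x ∉ Y' := fun h => by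
        have := hY'.1 h
        simp at this
      have : (insert x Y).erase x = (insert x Y').erase x := by
        simp only at hE
        rw [hE]
      rwa [Finset.erase_insert hx, Finset.erase_insert hx'] at this
  rw [Finset.card_powersetCard, Finset.card_compl, Fintype.card_fin, Finset.card_pair hxy] at h
  exact h

/-- The gain for a transposition. -/
theorem gain2 (hav : Av2Stmt) (havg : AvgStmt) (hcen : CenStmt)
    (h33 : ∃ n₀, ∀ n ≥ n₀, ∀ r, Cen n r → (istab n r ∅ : ℝ) ≤ (2 : ℝ) ^ (33 * n.choose r / n : ℝ)) :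
    ∃ δ : ℝ, 0 < δ ∧ ∃ n₀, ∀ n ≥ n₀, ∀ r, Cen n r → ∀ x y : Fin n, x ≠ y →
      (istab n r (D2 r x y) : ℝ) * (2 : ℝ) ^ (δ * n.choose r / n) ≤ istab n r ∅ := by
  classical
  set b : ℝ := 66 * 5 ^ 2 with hb
  refine ⟨(2 : ℝ) ^ (-b) / 5 ^ 2, by positivity, ?_⟩
  obtain ⟨n₁, h1⟩ := hcen.1
  obtain ⟨n₂, h2⟩ := hcen.2 1 1
  obtain ⟨n₃, h3⟩ := h33
  refine ⟨max (max n₁ n₂) (max n₃ 5), fun n hn r hr x y hxy => ?_⟩
  have hn1 : n₁ ≤ n := le_trans (le_trans (le_max_left _ _) (le_max_left _ _)) hn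
  have hn2 : n₂ ≤ n := le_trans (le_trans (le_max_right _ _) (le_max_left _ _)) hn
  have hn3 : n₃ ≤ n := le_trans (le_trans (le_max_left _ _) (le_max_right _ _)) hn
  have hn4 : 5 ≤ n := le_trans (le_trans (le_max_right _ _) (le_max_right _ _)) hn
  obtain ⟨hr1, hr2⟩ := h1 n hn1 r hr
  have hnpos : 0 < n := by omega
  have hch : n.choose r ≤ 5 ^ 2 * (D2 r x y).card :=
    le_trans (h2 n hn2 r hr1 hr2) (Nat.mul_le_mul_left _ (card_D2 n r x y hxy (by omega)))
  have hchpos : 0 < n.choose r := Nat.choose_pos hr.1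
  have hDpos : 0 < (D2 r x y).card := by
    rcases Nat.eq_zero_or_pos (D2 r x y).card with h0 | h0
    · rw [h0] at hch; omega
    · exact h0
  have hchR : (n.choose r : ℝ) ≤ 5 ^ 2 * (D2 r x y).card := by exact_mod_cast hch
  have hnR : (0 : ℝ) < n := by exact_mod_cast hnpos
  have hlog : 2 * (n : ℝ) * Real.logb 2 (istab n r (D2 r x y)) ≤ b * (D2 r x y).card := by
    have hi1 : (1 : ℝ) ≤ istab n r (D2 r x y) := by exact_mod_cast istab_pos n r (D2 r x y)
    have hle : (istab n r (D2 r x y) : ℝ) ≤ (2 : ℝ) ^ (33 * n.choose r / n : ℝ) :=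
      le_trans (by exact_mod_cast istab_mono n r (D2 r x y)) (h3 n hn3 r hr)
    have hl : Real.logb 2 (istab n r (D2 r x y)) ≤ (33 * n.choose r / n : ℝ) := by
      rw [Real.logb_le_iff_le_rpow (by norm_num) (by linarith)]
      exact hle
    calc 2 * (n : ℝ) * Real.logb 2 (istab n r (D2 r x y))
        ≤ 2 * n * (33 * n.choose r / n : ℝ) := by gcongr
      _ = 66 * n.choose r := by field_simp; ring
      _ ≤ 66 * (5 ^ 2 * (D2 r x y).card) := by gcongr
      _ = b * (D2 r x y).card := by rw [hb]; ring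
  have hA := hav n r x y b hxy (Finset.card_pos.1 hDpos) hlog
  have hB := havg n r (D2 r x y) ((D2 r x y).card * (2 : ℝ) ^ (-b)) (by omega)
    (by unfold D2; exact Finset.filter_subset _ _)
    (by
      refine le_trans (le_of_eq ?_) hA
      ring)
  refine le_trans ?_ hB
  have hexp : (2 : ℝ) ^ (-b) / 5 ^ 2 * (n.choose r) / n ≤
      ((D2 r x y).card * (2 : ℝ) ^ (-b)) / n := by
    apply div_le_div_of_nonneg_right _ hnR.le
    have h2b : (0 : ℝ) < (2 : ℝ) ^ (-b) := by positivity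
    calc (2 : ℝ) ^ (-b) / 5 ^ 2 * (n.choose r)
        ≤ (2 : ℝ) ^ (-b) / 5 ^ 2 * (5 ^ 2 * (D2 r x y).card) := by gcongr
      _ = (D2 r x y).card * (2 : ℝ) ^ (-b) := by field_simp
  have := Real.rpow_le_rpow_of_exponent_le (x := (2 : ℝ)) (by norm_num) hexp
  gcongr

theorem istab_mono2 (n r : ℕ) {D D' : Finset (Finset (Fin n))} (h : D ⊆ D') :
    istab n r D' ≤ istab n r D := by
  classical
  unfold istab
  apply Finset.card_le_card
  intro S hS
  rw [Finset.mem_filter, Finset.mem_powerset] at hS ⊢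
  exact ⟨hS.1.trans (Finset.sdiff_subset_sdiff le_rfl h), hS.2⟩

theorem D2_sub_Mv (n r : ℕ) (σ : Equiv.Perm (Fin n)) (x : Fin n) : D2 r x (σ x) ⊆ Mv r σ := by
  classical
  intro X hX
  rw [D2, Finset.mem_filter] at hX
  rw [Mv, Finset.mem_filter]
  refine ⟨hX.1, fun h => hX.2 ?_⟩
  have h1 : σ x ∈ act σ X ↔ x ∈ X := by
    unfold act
    rw [Finset.mem_map]
    constructor
    · rintro ⟨y, hy, hxy⟩
      have : y = x := σ.injective hxy
      rwa [← this]
    · intro hx
      exact ⟨x, hx, rfl⟩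
  rw [← h1, h]

end Pool.Agent.Helper53.KC
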