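import Pool.Agent.Helper53.KC.Asm2

/-!
# The number of the matroids with a nontrivial automorphism
-/

namespace Pool.Agent.Helper53.KC

open Finset Filter Topology

/-- `log₂ n = o(n)`. -/
theorem ev_logb (K : ℝ) : ∃ n₀ : ℕ, ∀ n ≥ n₀, 1 ≤ Real.logb 2 n ∧ K ≤ Real.logb 2 n ∧
    K * Real.logb 2 n ≤ n := by
  have h1 : Tendsto (fun n : ℕ => Real.logb 2 (n : ℝ)) atTop atTop :=
    (Real.tendsto_logb_atTop (by norm_num)).comp tendsto_natCast_atTop_atTop
  have h2 : Tendsto (fun n : ℕ => Real.log (n : ℝ) / (n : ℝ)) atTop (𝓝 0) := by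
    have h : Tendsto (fun x : ℝ => Real.log x / x) atTop (𝓝 0) := by
      have := Real.isLittleO_log_id_atTop
      exact this.tendsto_div_nhds_zero
    exact h.comp tendsto_natCast_atTop_atTop
  have hl2 : 0 < Real.log 2 := Real.log_pos (by norm_num)
  have e1 := h1.eventually_ge_atTop 1
  have e2 := h1.eventually_ge_atTop K
  have e3 := h2.eventually (gt_mem_nhds (show (0 : ℝ) < Real.log 2 / (|K| + 1) by positivity))
  have e4 := eventually_gt_atTop (0 : ℕ)
  have := (e1.and (e2.and (e3.and e4)))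
  rw [eventually_atTop] at this
  obtain ⟨n₀, h⟩ := this
  refine ⟨n₀, fun n hn => ?_⟩
  obtain ⟨a1, a2, a3, a4⟩ := h n hn
  refine ⟨a1, a2, ?_⟩
  have hnR : (0 : ℝ) < n := by exact_mod_cast a4
  rw [div_lt_div_iff₀ hnR (by positivity)] at a3
  have hlog0 : 0 ≤ Real.log (n : ℝ) := Real.log_nonneg (by exact_mod_cast a4)
  have h5 : Real.logb 2 n * Real.log 2 = Real.log n := by
    unfold Real.logb
    field_simp
  have h6 : |K| * Real.logb 2 n ≤ n := by
    have : (|K| + 1) * Real.logb 2 n * Real.log 2 ≤ Real.log 2 * n := by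
      calc (|K| + 1) * Real.logb 2 n * Real.log 2 = Real.log n * (|K| + 1) := by
            rw [mul_assoc, h5]; ring
        _ ≤ Real.log 2 * n := a3.le
    have h7 : (|K| + 1) * Real.logb 2 n ≤ n := by
      by_contra hc
      push Not at hc
      nlinarith
    linarith
  calc K * Real.logb 2 n ≤ |K| * Real.logb 2 n := by
        apply mul_le_mul_of_nonneg_right (le_abs_self K)
        linarith
    _ ≤ n := h6

theorem symBound (hsymc : SymcStmt) (hbl : BlStmt)
    (hg : ∃ δ : ℝ, 0 < δ ∧ ∃ n₀, ∀ n ≥ n₀, ∀ r, Cen n r → ∀ x y : Fin n, x ≠ y →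
      (istab n r (D2 r x y) : ℝ) * (2 : ℝ) ^ (δ * n.choose r / n) ≤ istab n r ∅)
    (hm : ∃ n₀, ∀ n ≥ n₀, ∀ r, Cen n r → ∀ σ : Equiv.Perm (Fin n),
      (nsym n r σ : ℝ) ≤ (2 : ℝ) ^ ((n.choose r : ℝ) / (n * (Real.logb 2 n) ^ 2)) * isym n r σ) :
    ∃ ε : ℝ, 0 < ε ∧ ∃ n₀, ∀ n ≥ n₀, ∀ r, Cen n r → ∀ σ : Equiv.Perm (Fin n), σ ≠ 1 →
      (nsym n r σ : ℝ) ≤ (2 : ℝ) ^ (-(ε * n.choose r / (n * Real.logb 2 n))) * istab n r ∅ := by
  obtain ⟨δ', hδ', n₁, h1'⟩ := hg
  obtain ⟨n₂, h2⟩ := hm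
  -- we may assume `δ ≤ 1`
  set δ := min δ' 1 with hδdef
  have hδ : 0 < δ := lt_min hδ' one_pos
  have hδ1 : δ ≤ 1 := min_le_right _ _
  have h1 : ∀ n ≥ n₁, ∀ r, Cen n r → ∀ x y : Fin n, x ≠ y →
      (istab n r (D2 r x y) : ℝ) * (2 : ℝ) ^ (δ * n.choose r / n) ≤ istab n r ∅ :=
    fun n hn r hr x y hxy => le_trans
      (mul_le_mul_of_nonneg_left (rpow_anti n r (min_le_left _ _)) (Nat.cast_nonneg _))
      (h1' n hn r hr x y hxy)
  obtain ⟨n₃, h3⟩ := ev_logb (64 / δ + 24 / δ + 1)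
  obtain ⟨n₄, h4⟩ := ev_pow 1
  obtain ⟨n₅, h5⟩ := exists_nat_ge (128 / δ)
  refine ⟨δ / 32, by positivity, max (max n₁ n₂) (max n₃ (max n₄ (max n₅ 2))),
    fun n hn r hr σ hσ => ?_⟩
  have hn1 : n₁ ≤ n := le_trans (le_trans (le_max_left _ _) (le_max_left _ _)) hn
  have hn2 : n₂ ≤ n := le_trans (le_trans (le_max_right _ _) (le_max_left _ _)) hn
  have hn3 : n₃ ≤ n := le_trans (le_trans (le_max_left _ _) (le_max_right _ _)) hn
  have hn4 : n₄ ≤ n :=
    le_trans (le_trans (le_max_left _ _) (le_trans (le_max_right _ _) (le_max_right _ _))) hn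
  have hn5 : n₅ ≤ n := le_trans (le_trans (le_max_left _ _) (le_trans (le_max_right _ _)
    (le_trans (le_max_right _ _) (le_max_right _ _)))) hn
  have hn6 : 2 ≤ n := le_trans (le_trans (le_max_right _ _) (le_trans (le_max_right _ _)
    (le_trans (le_max_right _ _) (le_max_right _ _)))) hn
  obtain ⟨hL1, hLK, hLn⟩ := h3 n hn3
  set L := Real.logb 2 n with hL
  have hnR : (2 : ℝ) ≤ n := by exact_mod_cast hn6
  have hnpos : (0 : ℝ) < n := by linarith
  set N : ℝ := (n.choose r : ℝ) with hN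
  have hNpos : 0 < N := by rw [hN]; exact_mod_cast Nat.choose_pos hr.1
  set F : ℝ := N / n with hF
  have hFpos : 0 < F := by positivity
  have h64 : 64 / δ ≤ L := by
    have : 0 < 24 / δ := by positivity
    linarith
  have h24 : 24 / δ * L ≤ n := by
    have h1 : 0 < 64 / δ := by positivity
    have h2 : 24 / δ * L ≤ (64 / δ + 24 / δ + 1) * L := by
      apply mul_le_mul_of_nonneg_right _ (by linarith)
      linarith
    linarith
  -- `F` is large
  have hFbig : 128 * L / δ ≤ F := by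
    have hcn : (2 : ℝ) ^ n ≤ (n : ℝ) ^ 3 * N := by
      rw [hN]; exact_mod_cast hr.2
    have hp := h4 n hn4
    push_cast at hp
    have hFge : (n : ℝ) ^ 3 ≤ F := by
      rw [hF, le_div_iff₀ hnpos]
      have h3pos : (0 : ℝ) < (n : ℝ) ^ 3 := by positivity
      have : (n : ℝ) ^ 3 * ((n : ℝ) ^ 3 * n) ≤ (n : ℝ) ^ 3 * N := by
        calc (n : ℝ) ^ 3 * ((n : ℝ) ^ 3 * n) = 1 * (n : ℝ) ^ 7 := by ring
          _ ≤ 2 ^ n := by linarith
          _ ≤ _ := hcn
      exact le_of_mul_le_mul_left this h3pos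
    have hLle : L ≤ n := by
      have : L ≤ 24 / δ * L := by
        have h : 1 ≤ 24 / δ := by
          rw [le_div_iff₀ hδ]; linarith
        nlinarith
      linarith
    have h128 : 128 / δ ≤ n := h5.trans (by exact_mod_cast hn5)
    calc 128 * L / δ = 128 / δ * L := by ring
      _ ≤ n * n := by gcongr
      _ ≤ (n : ℝ) ^ 3 := by nlinarith [sq_nonneg ((n : ℝ))]
      _ ≤ F := hFge
  set y : ℝ := δ * F / (8 * L) with hy
  have hLpos : 0 < L := by linarith
  have hy16 : 16 ≤ y := by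
    rw [hy, le_div_iff₀ (by positivity)]
    rw [div_le_iff₀ hδ] at hFbig
    linarith
  have hyN : y ≤ N := by
    have h1 : y ≤ F := by
      rw [hy, div_le_iff₀ (by positivity)]
      nlinarith
    have h2 : F ≤ N := by
      rw [hF]
      exact div_le_self hNpos.le (by linarith)
    linarith
  set τ := ⌊y⌋₊ with hτ
  have hτy : (τ : ℝ) ≤ y := Nat.floor_le (by linarith)
  have hτy' : y < τ + 1 := Nat.lt_floor_add_one y
  have hB := hbl (n.choose r) τ y hτy (by linarith) hyN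
  have hbase : Real.exp 1 * N / y ≤ (2 : ℝ) ^ (2 * L) := by
    have e1 : (2 : ℝ) ^ (2 * L) = (n : ℝ) ^ 2 := by
      rw [mul_comm, Real.rpow_mul (by norm_num), hL, Real.rpow_logb (by norm_num) (by norm_num) hnpos]
      norm_num
    rw [e1, div_le_iff₀ (by linarith)]
    have e2 : y * n = δ * N / (8 * L) := by
      rw [hy, hF]; field_simp
    have e3 : Real.exp 1 ≤ 3 := by
      have := Real.exp_one_lt_d9
      linarith
    have e4 : 3 * N ≤ (n : ℝ) ^ 2 * y := by
      have : (n : ℝ) ^ 2 * y = n * (δ * N / (8 * L)) := by rw [← e2]; ring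
      rw [this]
      have h6 : 24 * L ≤ δ * n := by
        have : 24 / δ * L * δ ≤ n * δ := by gcongr
        have h7 : 24 / δ * L * δ = 24 * L := by field_simp
        linarith
      have h8 : n * (δ * N / (8 * L)) = (δ * n) * N / (8 * L) := by ring
      rw [h8, le_div_iff₀ (by positivity)]
      nlinarith
    nlinarith
  have hbase0 : 0 ≤ Real.exp 1 * N / y := by positivity
  have hB2 : (bl (n.choose r) τ : ℝ) ≤ (2 : ℝ) ^ (δ * F / 4) := by
    calc (bl (n.choose r) τ : ℝ) ≤ (Real.exp 1 * N / y) ^ y := hB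
      _ ≤ ((2 : ℝ) ^ (2 * L)) ^ y := Real.rpow_le_rpow hbase0 hbase (by linarith)
      _ = (2 : ℝ) ^ (δ * F / 4) := by
        rw [← Real.rpow_mul (by norm_num)]
        congr 1
        rw [hy]
        field_simp
        ring
  -- the symmetric families
  obtain ⟨x, hx⟩ : ∃ x, σ x ≠ x := by
    by_contra hc
    push Not at hc
    exact hσ (Equiv.ext hc)
  set I : ℝ := (istab n r ∅ : ℝ) with hI
  have hIpos : 0 ≤ I := Nat.cast_nonneg _
  have hMv : (istab n r (Mv r σ) : ℝ) ≤ (2 : ℝ) ^ (-(δ * F)) * I := by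
    have ha : (istab n r (Mv r σ) : ℝ) ≤ istab n r (D2 r x (σ x)) := by
      exact_mod_cast istab_mono2 n r (D2_sub_Mv n r σ x)
    have hb := h1 n hn1 r hr x (σ x) (Ne.symm hx)
    have hc : δ * (n.choose r : ℝ) / n = δ * F := by rw [hF, ← hN]; ring
    rw [hc] at hb
    rw [Real.rpow_neg (by norm_num), ← div_eq_inv_mul, le_div_iff₀ (by positivity)]
    exact le_trans (mul_le_mul_of_nonneg_right ha (by positivity)) hb
  have hsy : (isym n r σ : ℝ) ≤ (2 : ℝ) ^ (2 - y) * I := by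
    have h := hsymc n r τ σ
    have hR : (2 : ℝ) ^ τ * isym n r σ ≤
        (2 : ℝ) ^ τ * (istab n r (Mv r σ) * bl (n.choose r) τ) + I := by
      rw [hI]; exact_mod_cast h
    have h2τ : (0 : ℝ) < (2 : ℝ) ^ τ := by positivity
    have h9 : (isym n r σ : ℝ) ≤ istab n r (Mv r σ) * bl (n.choose r) τ + I / (2 : ℝ) ^ τ := by
      have : (2 : ℝ) ^ τ * (istab n r (Mv r σ) * bl (n.choose r) τ + I / (2 : ℝ) ^ τ) =
          (2 : ℝ) ^ τ * (istab n r (Mv r σ) * bl (n.choose r) τ) + I := by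
        field_simp
      rw [← this] at hR
      exact le_of_mul_le_mul_left hR h2τ
    have h10 : (istab n r (Mv r σ) : ℝ) * bl (n.choose r) τ ≤ (2 : ℝ) ^ (1 - y) * I := by
      calc (istab n r (Mv r σ) : ℝ) * bl (n.choose r) τ
          ≤ ((2 : ℝ) ^ (-(δ * F)) * I) * (2 : ℝ) ^ (δ * F / 4) := by gcongr
        _ = (2 : ℝ) ^ (-(δ * F) + δ * F / 4) * I := by
            rw [Real.rpow_add (by norm_num)]; ring
        _ ≤ (2 : ℝ) ^ (1 - y) * I := by
            have : -(δ * F) + δ * F / 4 ≤ 1 - y := by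
              have h11 : y ≤ δ * F / 8 := by
                rw [hy]
                apply div_le_div_of_nonneg_left (by positivity) (by norm_num)
                linarith
              have : 0 < δ * F := by positivity
              linarith
            have := Real.rpow_le_rpow_of_exponent_le (x := (2 : ℝ)) (by norm_num) this
            gcongr
    have h11 : I / (2 : ℝ) ^ τ ≤ (2 : ℝ) ^ (1 - y) * I := by
      rw [div_le_iff₀ h2τ]
      have : (1 : ℝ) ≤ (2 : ℝ) ^ (1 - y) * (2 : ℝ) ^ τ := by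
        rw [← Real.rpow_natCast 2 τ, ← Real.rpow_add (by norm_num)]
        exact Real.one_le_rpow (by norm_num) (by linarith)
      calc I = 1 * I := (one_mul I).symm
        _ ≤ ((2 : ℝ) ^ (1 - y) * (2 : ℝ) ^ τ) * I := by gcongr
        _ = (2 : ℝ) ^ (1 - y) * I * (2 : ℝ) ^ τ := by ring
    calc (isym n r σ : ℝ) ≤ istab n r (Mv r σ) * bl (n.choose r) τ + I / (2 : ℝ) ^ τ := h9
      _ ≤ (2 : ℝ) ^ (1 - y) * I + (2 : ℝ) ^ (1 - y) * I := add_le_add h10 h11
      _ = (2 : ℝ) ^ (2 - y) * I := by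
        have : (2 : ℝ) ^ (2 - y) = 2 * (2 : ℝ) ^ (1 - y) := by
          rw [show (2 : ℝ) - y = 1 + (1 - y) by ring, Real.rpow_add (by norm_num), Real.rpow_one]
        rw [this]; ring
  have hfin := h2 n hn2 r hr σ
  calc (nsym n r σ : ℝ) ≤ (2 : ℝ) ^ (N / (n * L ^ 2)) * isym n r σ := hfin
    _ ≤ (2 : ℝ) ^ (N / (n * L ^ 2)) * ((2 : ℝ) ^ (2 - y) * I) := by gcongr
    _ = (2 : ℝ) ^ (N / (n * L ^ 2) + (2 - y)) * I := by
        rw [Real.rpow_add (by norm_num)]; ring
    _ ≤ (2 : ℝ) ^ (-(δ / 32 * n.choose r / (n * L))) * I := by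
        have hexp : N / (n * L ^ 2) + (2 - y) ≤ -(δ / 32 * n.choose r / (n * L)) := by
          have e1 : N / (n * L ^ 2) = F / L / L := by rw [hF]; field_simp
          have e2 : δ / 32 * (n.choose r : ℝ) / (n * L) = y / 4 := by
            rw [hy, hF, ← hN]; field_simp; ring
          have e3 : F / L / L ≤ y / 8 := by
            rw [hy, div_le_iff₀ hLpos]
            have h12 : 64 ≤ L * δ := by rwa [div_le_iff₀ hδ] at h64
            have h13 : δ * F / (8 * L) / 8 * L = (L * δ) * (F / L) / 64 := by field_simp; ring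
            rw [h13, le_div_iff₀ (by norm_num)]
            have : 0 < F / L := by positivity
            nlinarith
          rw [e1, e2]
          linarith
        have := Real.rpow_le_rpow_of_exponent_le (x := (2 : ℝ)) (by norm_num) hexp
        gcongr

end Pool.Agent.Helper53.KC
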