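import Pool.Agent.Helper53.KC.Goals3
import Pool.Agent.Helper53.KC.Asm3
import Pool.Agent.Helper49.KC.Cen

/-!
# Connectivity of order `log n`: the gains
-/

namespace Pool.Agent.Helper53.KC

open Finset

theorem stab33w (hcnts : CntsStmt) (hnums : Nums3Stmt) :
    ∃ n₀, ∀ n ≥ n₀, ∀ r, n ≤ 4 * r → 4 * r ≤ 3 * n →
      (istab n r ∅ : ℝ) ≤ (2 : ℝ) ^ (33 * n.choose r / n : ℝ) := by
  obtain ⟨n₀, h⟩ := hnums
  refine ⟨n₀, fun n hn r hr hr' => ?_⟩
  obtain ⟨Δ₁, Δ₂, u₁, a₁, u₂, a₂, h1, h2, h3, h4, h5, h6, h7, h8, h9⟩ := h n hn r hr hr'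
  have key := hcnts n r Δ₁ Δ₂ u₁ a₁ u₂ a₂ h1 h2 h3 h4 h5 h6 h7 h8
  exact le_trans (by exact_mod_cast key) h9

theorem bin3 (n r a b : ℕ) (h1 : 3 * n ≤ 8 * r) (h2 : 8 * r ≤ 5 * n) (hab : 40 * (a + b) ≤ n) :
    n.choose r ≤ 5 ^ (a + b) * (n - a - b).choose (r - a) := by
  have h3 := Pool.Agent.Helper49.KC.steps1 n r a (by omega) (by omega)
  have h4 := Pool.Agent.Helper49.KC.steps2 (n - a) (r - a) b (by omega) (by omega)
  calc n.choose r ≤ 5 ^ a * (n - a).choose (r - a) := h3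
    _ ≤ 5 ^ a * (5 ^ b * (n - a - b).choose (r - a)) := Nat.mul_le_mul_left _ h4
    _ = 5 ^ (a + b) * (n - a - b).choose (r - a) := by rw [pow_add, mul_assoc]

/-- `2 ^ x ≤ n ^ (1/20)` if `20 x ≤ log₂ n`. -/
theorem two_rpow_le (n : ℕ) (hn : 1 ≤ n) (x : ℝ) (hx : 20 * x ≤ Real.logb 2 n) :
    (2 : ℝ) ^ x ≤ (n : ℝ) ^ ((1 : ℝ) / 20) := by
  have hnR : (0 : ℝ) < n := by exact_mod_cast hn
  have h : (n : ℝ) ^ ((1 : ℝ) / 20) = (2 : ℝ) ^ (Real.logb 2 n / 20) := by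
    conv_lhs => rw [← Real.rpow_logb (b := 2) (by norm_num) (by norm_num) hnR]
    rw [← Real.rpow_mul (by norm_num)]
    congr 1
    ring
  rw [h]
  apply Real.rpow_le_rpow_of_exponent_le (by norm_num)
  linarith

/-- The gain for a small dependent set. -/
theorem gainC3 (hav : Av3Stmt) (havg : AvgStmt) (hcen : Cen3Stmt)
    (h33 : ∃ n₀, ∀ n ≥ n₀, ∀ r, n ≤ 4 * r → 4 * r ≤ 3 * n →
      (istab n r ∅ : ℝ) ≤ (2 : ℝ) ^ (33 * n.choose r / n : ℝ)) :
    ∃ n₀, ∀ n ≥ n₀, ∀ r, Cen n r → ∀ C : Finset (Fin n), 1 ≤ C.card →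
      1400 * (C.card : ℝ) ≤ Real.logb 2 n →
      (istab n r (DC r C) : ℝ) * (2 : ℝ) ^ ((n.choose r : ℝ) / (n * (n : ℝ) ^ ((1 : ℝ) / 20))) ≤
        istab n r ∅ := by
  classical
  obtain ⟨n₁, h1⟩ := hcen
  obtain ⟨n₃, h3⟩ := h33
  obtain ⟨n₄, h4⟩ := ev_logb 1
  refine ⟨max n₁ (max (2 * n₃) (max n₄ 100)), fun n hn r hr C hC hCn => ?_⟩
  have hn1 : n₁ ≤ n := le_trans (le_max_left _ _) hn
  have hn3 : 2 * n₃ ≤ n := le_trans (le_trans (le_max_left _ _) (le_max_right _ _)) hn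
  have hn4 : n₄ ≤ n := le_trans (le_trans (le_max_left _ _)
    (le_trans (le_max_right _ _) (le_max_right _ _))) hn
  have hn5 : 100 ≤ n := le_trans (le_trans (le_max_right _ _)
    (le_trans (le_max_right _ _) (le_max_right _ _))) hn
  obtain ⟨hL1, -, hLn⟩ := h4 n hn4
  obtain ⟨hr1, hr2⟩ := h1 n hn1 r hr
  set c := C.card with hc
  have hcn : 1400 * c ≤ n := by
    have : (1400 : ℝ) * c ≤ n := by linarith
    exact_mod_cast this
  have hnR : (0 : ℝ) < n := by exact_mod_cast (by omega : 0 < n)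
  have hcard : (DC r C).card = (n - c).choose (r - c) := card_DC n r C (by omega)
  have hch : n.choose r ≤ 5 ^ c * (DC r C).card := by
    have := bin3 n r c 0 hr1 hr2 (by omega)
    rw [hcard]
    simpa using this
  have hchpos : 0 < n.choose r := Nat.choose_pos hr.1
  have hDpos : 0 < (DC r C).card := by
    rcases Nat.eq_zero_or_pos (DC r C).card with h0 | h0
    · rw [h0] at hch; omega
    · exact h0
  have hchR : (n.choose r : ℝ) ≤ 5 ^ c * (DC r C).card := by exact_mod_cast hch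
  set b : ℝ := 66 * c with hb
  have hlog : (r : ℝ) * (c * Real.logb 2 (istab (n - c) (r + 1 - c) ∅)) ≤ b * (DC r C).card := by
    have hi1 : (1 : ℝ) ≤ istab (n - c) (r + 1 - c) ∅ := by exact_mod_cast istab_pos _ _ _
    have hle := h3 (n - c) (by omega) (r + 1 - c) (by omega) (by omega)
    have hl : Real.logb 2 (istab (n - c) (r + 1 - c) ∅) ≤
        (33 * (n - c).choose (r + 1 - c) / (n - c : ℕ) : ℝ) := by
      rw [Real.logb_le_iff_le_rpow (by norm_num) (by linarith)]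
      exact hle
    have hid := Nat.choose_succ_right_eq (n - c) (r - c)
    have e1 : r - c + 1 = r + 1 - c := by omega
    have e2 : (n - c) - (r - c) = n - r := by omega
    rw [e1, e2, ← hcard] at hid
    have hidR : ((n - c).choose (r + 1 - c) : ℝ) * ((r + 1 - c : ℕ) : ℝ) =
        (DC r C).card * ((n - r : ℕ) : ℝ) := by exact_mod_cast hid
    have hp1 : (0 : ℝ) < ((r + 1 - c : ℕ) : ℝ) := by exact_mod_cast (by omega : 0 < r + 1 - c)
    have hp2 : (0 : ℝ) < ((n - c : ℕ) : ℝ) := by exact_mod_cast (by omega : 0 < n - c)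
    have hq1 : (r : ℝ) ≤ 2 * ((r + 1 - c : ℕ) : ℝ) := by exact_mod_cast (by omega : r ≤ 2 * (r + 1 - c))
    have hq2 : ((n - r : ℕ) : ℝ) ≤ ((n - c : ℕ) : ℝ) := by exact_mod_cast (by omega : n - r ≤ n - c)
    have hD0 : (0 : ℝ) ≤ (DC r C).card := Nat.cast_nonneg _
    have hkey : (r : ℝ) * ((n - c).choose (r + 1 - c) : ℝ) ≤ 2 * ((n - c : ℕ) : ℝ) * (DC r C).card := by
      calc (r : ℝ) * ((n - c).choose (r + 1 - c) : ℝ)
          ≤ (2 * ((r + 1 - c : ℕ) : ℝ)) * ((n - c).choose (r + 1 - c) : ℝ) := by gcongr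
        _ = 2 * (((n - c).choose (r + 1 - c) : ℝ) * ((r + 1 - c : ℕ) : ℝ)) := by ring
        _ = 2 * ((DC r C).card * ((n - r : ℕ) : ℝ)) := by rw [hidR]
        _ ≤ 2 * ((DC r C).card * ((n - c : ℕ) : ℝ)) := by gcongr
        _ = 2 * ((n - c : ℕ) : ℝ) * (DC r C).card := by ring
    calc (r : ℝ) * (c * Real.logb 2 (istab (n - c) (r + 1 - c) ∅))
        ≤ r * (c * (33 * (n - c).choose (r + 1 - c) / (n - c : ℕ) : ℝ)) := by gcongr
      _ = 33 * c * ((r : ℝ) * ((n - c).choose (r + 1 - c) : ℝ)) / ((n - c : ℕ) : ℝ) := by ring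
      _ ≤ 33 * c * (2 * ((n - c : ℕ) : ℝ) * (DC r C).card) / ((n - c : ℕ) : ℝ) := by gcongr
      _ = b * (DC r C).card := by rw [hb]; field_simp; ring
  have hA := hav n r C b hC (by omega) hr.1 (Finset.card_pos.1 hDpos) hlog
  have hB := havg n r (DC r C) ((DC r C).card * (2 : ℝ) ^ (-b)) (by omega)
    (by unfold DC; exact Finset.filter_subset _ _)
    (by
      refine le_trans (le_of_eq ?_) hA
      ring)
  refine le_trans ?_ hB
  have hexp : (n.choose r : ℝ) / (n * (n : ℝ) ^ ((1 : ℝ) / 20)) ≤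
      ((DC r C).card * (2 : ℝ) ^ (-b)) / n := by
    have h5c : ((5 : ℝ) ^ c) ≤ (2 : ℝ) ^ (3 * (c : ℝ)) := by
      have : (2 : ℝ) ^ (3 * (c : ℝ)) = 8 ^ c := by
        rw [Real.rpow_mul (by norm_num), Real.rpow_natCast]
        norm_num
      rw [this]
      exact pow_le_pow_left₀ (by norm_num) (by norm_num) c
    have hg : (2 : ℝ) ^ (3 * (c : ℝ)) * (2 : ℝ) ^ b ≤ (n : ℝ) ^ ((1 : ℝ) / 20) := by
      rw [← Real.rpow_add (by norm_num)]
      apply two_rpow_le n (by omega)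
      rw [hb]
      have : (0 : ℝ) ≤ c := Nat.cast_nonneg _
      linarith
    have h2b : (0 : ℝ) < (2 : ℝ) ^ b := by positivity
    have h2b' : (2 : ℝ) ^ (-b) * (2 : ℝ) ^ b = 1 := by
      rw [← Real.rpow_add (by norm_num)]; simp
    have hgpos : (0 : ℝ) < (n : ℝ) ^ ((1 : ℝ) / 20) := by positivity
    rw [div_le_div_iff₀ (by positivity) hnR]
    have hD0 : (0 : ℝ) ≤ (DC r C).card := Nat.cast_nonneg _
    have h2bn : (0 : ℝ) < (2 : ℝ) ^ (-b) := by positivity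
    have hmain : (n.choose r : ℝ) ≤ (DC r C).card * (2 : ℝ) ^ (-b) * (n : ℝ) ^ ((1 : ℝ) / 20) := by
      calc (n.choose r : ℝ) ≤ 5 ^ c * (DC r C).card := hchR
        _ = (DC r C).card * ((2 : ℝ) ^ (-b) * (5 ^ c * (2 : ℝ) ^ b)) := by
            rw [show (2 : ℝ) ^ (-b) * (5 ^ c * (2 : ℝ) ^ b) =
              5 ^ c * ((2 : ℝ) ^ (-b) * (2 : ℝ) ^ b) by ring, h2b']
            ring
        _ ≤ (DC r C).card * ((2 : ℝ) ^ (-b) * ((2 : ℝ) ^ (3 * (c : ℝ)) * (2 : ℝ) ^ b)) := by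
            gcongr
        _ ≤ (DC r C).card * ((2 : ℝ) ^ (-b) * (n : ℝ) ^ ((1 : ℝ) / 20)) := by gcongr
        _ = (DC r C).card * (2 : ℝ) ^ (-b) * (n : ℝ) ^ ((1 : ℝ) / 20) := by ring
    calc (n.choose r : ℝ) * n
        ≤ ((DC r C).card * (2 : ℝ) ^ (-b) * (n : ℝ) ^ ((1 : ℝ) / 20)) * n := by gcongr
      _ = (DC r C).card * (2 : ℝ) ^ (-b) * (n * (n : ℝ) ^ ((1 : ℝ) / 20)) := by ring
  have := Real.rpow_le_rpow_of_exponent_le (x := (2 : ℝ)) (by norm_num) hexp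
  gcongr

/-- The gain for a small codependent set. -/
theorem gainD3 (hcmp : CmpStmt)
    (hC : ∃ n₀, ∀ n ≥ n₀, ∀ r, Cen n r → ∀ C : Finset (Fin n), 1 ≤ C.card →
      1400 * (C.card : ℝ) ≤ Real.logb 2 n →
      (istab n r (DC r C) : ℝ) * (2 : ℝ) ^ ((n.choose r : ℝ) / (n * (n : ℝ) ^ ((1 : ℝ) / 20))) ≤
        istab n r ∅) :
    ∃ n₀, ∀ n ≥ n₀, ∀ r, Cen n r → ∀ C : Finset (Fin n), 1 ≤ C.card →
      1400 * (C.card : ℝ) ≤ Real.logb 2 n →
      (istab n r (DD r C) : ℝ) * (2 : ℝ) ^ ((n.choose r : ℝ) / (n * (n : ℝ) ^ ((1 : ℝ) / 20))) ≤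
        istab n r ∅ := by
  obtain ⟨n₀, h⟩ := hC
  refine ⟨n₀, fun n hn r hr C hC1 hCc => ?_⟩
  obtain ⟨h1, h2⟩ := hcmp n r C hr.1
  rw [h1, h2, ← Nat.choose_symm hr.1]
  exact h n hn (n - r) (cen_symm hr) C hC1 hCc

/-- The gain for a separation. -/
theorem gainS3 (havg : AvgStmt) (hsep : SepStmt) (hsepn : SepnStmt) (hcen : Cen3Stmt) :
    ∃ n₀, ∀ n ≥ n₀, ∀ r, Cen n r → ∀ (j : ℕ) (W : Finset (Fin n)) (a : ℕ),
      1400 * (j : ℝ) ≤ Real.logb 2 n → j + 2 ≤ W.card → j + 2 ≤ Wᶜ.card →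
      (istab n r (DS r W a j) : ℝ) * (2 : ℝ) ^ ((n.choose r : ℝ) / (n * (n : ℝ) ^ ((1 : ℝ) / 20))) ≤
        istab n r ∅ := by
  classical
  obtain ⟨n₁, h1⟩ := hcen
  obtain ⟨n₄, h4⟩ := ev_logb 1000
  refine ⟨max n₁ (max n₄ 1000), fun n hn r hr j W a hj hW hWc => ?_⟩
  have hn1 : n₁ ≤ n := le_trans (le_max_left _ _) hn
  have hn4 : n₄ ≤ n := le_trans (le_trans (le_max_left _ _) (le_max_right _ _)) hn
  have hn5 : 1000 ≤ n := le_trans (le_trans (le_max_right _ _) (le_max_right _ _)) hn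
  obtain ⟨hL1, hL2, hLn⟩ := h4 n hn4
  obtain ⟨hr1, hr2⟩ := h1 n hn1 r hr
  set m := j + 2 with hm
  have hjn : 1400 * j ≤ n := by
    have : (1400 : ℝ) * j ≤ n := by nlinarith
    exact_mod_cast this
  have hmr : m ≤ r := by omega
  have hs := hsep n r a j W hW hWc hmr
  set D0 := (V n r).filter fun X => (X ∩ W).card + 1 < a ∨ a + j < (X ∩ W).card with hD0
  have hsub : D0 ⊆ DS r W a j := by
    intro X hX
    rw [hD0, Finset.mem_filter] at hX
    rw [DS, Finset.mem_filter]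
    refine ⟨hX.1, ?_⟩
    rcases hX.2 with h | h
    · left; omega
    · right; omega
  have hch : n.choose r ≤ 5 ^ (m + m) * D0.card :=
    le_trans (bin3 n r m m hr1 hr2 (by omega)) (Nat.mul_le_mul_left _ hs)
  have hchR : (n.choose r : ℝ) ≤ 5 ^ (m + m) * D0.card := by exact_mod_cast hch
  have hB := havg n r (DS r W a j) (D0.card : ℝ) (by omega)
    (by unfold DS; exact Finset.filter_subset _ _)
    (by
      have hcardI : (istab n r (DS r W a j) : ℝ) =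
          ∑ S ∈ ((V n r) \ (DS r W a j)).powerset.filter Stb, (1 : ℝ) := by
        rw [Finset.sum_const, nsmul_eq_mul, mul_one]
        rfl
      rw [hcardI, Finset.mul_sum]
      apply Finset.sum_le_sum
      intro S hS
      rw [Finset.mem_filter, Finset.mem_powerset] at hS
      rw [mul_one]
      norm_cast
      apply Finset.card_le_card
      intro X hX
      rw [Finset.mem_filter]
      refine ⟨hsub hX, fun Y hY hadj => ?_⟩
      rw [hD0, Finset.mem_filter] at hX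
      have hYV := Finset.mem_sdiff.1 (hS.1 hY)
      exact hYV.2 (hsepn n r a j W X Y hX.1 hYV.1 hadj hX.2))
  refine le_trans ?_ hB
  have hnR : (0 : ℝ) < n := by exact_mod_cast (by omega : 0 < n)
  have hexp : (n.choose r : ℝ) / (n * (n : ℝ) ^ ((1 : ℝ) / 20)) ≤ (D0.card : ℝ) / n := by
    have h5c : ((5 : ℝ) ^ (m + m)) ≤ (n : ℝ) ^ ((1 : ℝ) / 20) := by
      have h8 : (2 : ℝ) ^ (3 * ((m + m : ℕ) : ℝ)) = 8 ^ (m + m) := by
        rw [Real.rpow_mul (by norm_num), Real.rpow_natCast]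
        norm_num
      calc (5 : ℝ) ^ (m + m) ≤ 8 ^ (m + m) := pow_le_pow_left₀ (by norm_num) (by norm_num) _
        _ = (2 : ℝ) ^ (3 * ((m + m : ℕ) : ℝ)) := h8.symm
        _ ≤ _ := by
          apply two_rpow_le n (by omega)
          rw [hm]
          push_cast
          linarith
    rw [div_le_div_iff₀ (by positivity) hnR]
    calc (n.choose r : ℝ) * n ≤ (5 ^ (m + m) * D0.card) * n := by gcongr
      _ ≤ ((n : ℝ) ^ ((1 : ℝ) / 20) * D0.card) * n := by gcongr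
      _ = D0.card * (n * (n : ℝ) ^ ((1 : ℝ) / 20)) := by ring
  have := Real.rpow_le_rpow_of_exponent_le (x := (2 : ℝ)) (by norm_num) hexp
  gcongr

end Pool.Agent.Helper53.KC
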