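import Mathlib

/-!
# Almost every matroid is `k`-connected: definitions

`MP_8c9d5b_co`. Vertices of the Johnson graph are `r`-subsets of `Fin n`; `NB r M` is the set of the
dependent `r`-sets (non-bases) of a matroid `M` of rank `r` on `Fin n`.
-/

namespace Pool.Agent.Helper53.KC

open Finset

variable {n : ℕ}

/-! ### Johnson graph -/

/-- The `r`-element subsets of `Fin n`. -/
def V (n r : ℕ) : Finset (Finset (Fin n)) := powersetCard r univ

/-- Adjacency in the Johnson graph. -/
def adj (X Y : Finset (Fin n)) : Prop := X.card = Y.card ∧ (X ∩ Y).card + 1 = X.card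

/-- Stable sets of the Johnson graph. -/
def Stb (S : Finset (Finset (Fin n))) : Prop := ∀ X ∈ S, ∀ Y ∈ S, ¬ adj X Y

open Classical in
/-- The number of stable sets of `r`-sets which avoid `D`. -/
noncomputable def istab (n r : ℕ) (D : Finset (Finset (Fin n))) : ℕ :=
  (((V n r) \ D).powerset.filter Stb).card

/-- All vertices of `A` have fewer than `Δ` neighbours in `A`. -/
def Low (A : Finset (Finset (Fin n))) (Δ : ℕ) : Prop :=
  ∀ v ∈ A, ∀ W ⊆ A, (∀ w ∈ W, adj v w) → W.card < Δ

/-- `e` replaced by `f`. -/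
def sw (X : Finset (Fin n)) (e f : Fin n) : Finset (Fin n) := insert f (X.erase e)

/-- The central ranks. -/
def Cen (n r : ℕ) : Prop := r ≤ n ∧ 2 ^ n ≤ n ^ 3 * n.choose r

/-- The number of the subsets of size at most `u` of a set of size `m`. -/
def bl (m u : ℕ) : ℕ := ∑ j ∈ range (u + 1), m.choose j

/-! ### Matroids on `Fin n` -/

/-- `M` is a matroid with ground set `Fin n`, of rank `r`. -/
def Rk (r : ℕ) (M : Matroid (Fin n)) : Prop := M.E = Set.univ ∧ M.eRank = (r : ℕ∞)

open Classical in
/-- The dependent `r`-sets. -/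
noncomputable def NB (r : ℕ) (M : Matroid (Fin n)) : Finset (Finset (Fin n)) :=
  (V n r).filter fun X => ¬ M.Indep (X : Set (Fin n))

open Classical in
/-- The circuits of size at most `r + 1 - t`. -/
noncomputable def thC (r t : ℕ) (M : Matroid (Fin n)) : Finset (Finset (Fin n)) :=
  univ.filter fun C => M.IsCircuit (C : Set (Fin n)) ∧ C.card + t ≤ r + 1

open Classical in
/-- The hyperplanes (complements of cocircuits) of size at least `r - 1 + t`. -/
noncomputable def thH (r t : ℕ) (M : Matroid (Fin n)) : Finset (Finset (Fin n)) :=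
  univ.filter fun H => M.IsCocircuit ((Hᶜ : Finset (Fin n)) : Set (Fin n)) ∧ r + t ≤ H.card + 1

/-- All neighbours of `X` are dependent. -/
def flag (M : Matroid (Fin n)) (X : Finset (Fin n)) : Prop :=
  ∀ e ∈ X, ∀ f ∉ X, ¬ M.Indep (sw X e f : Set (Fin n))

open Classical in
/-- The `f ∉ X` for which all `X - e + f` are dependent. -/
noncomputable def Pf (M : Matroid (Fin n)) (X : Finset (Fin n)) : Finset (Fin n) :=
  univ.filter fun f => f ∉ X ∧ ∀ e ∈ X, ¬ M.Indep (sw X e f : Set (Fin n))

open Classical in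
/-- The `e ∈ X` for which all `X - e + f` are dependent. -/
noncomputable def Qe (M : Matroid (Fin n)) (X : Finset (Fin n)) : Finset (Fin n) :=
  X.filter fun e => ∀ f ∉ X, ¬ M.Indep (sw X e f : Set (Fin n))

open Classical in
/-- The `r`-sets whose dependence is clear from the small circuits `CC`, the large hyperplanes `HH`
and the known set `L` of non-bases. -/
def det (r Δ : ℕ) (CC HH L : Finset (Finset (Fin n))) (X : Finset (Fin n)) : Prop :=
  (∃ C ∈ CC, C ⊆ X) ∨ (∃ H ∈ HH, X ⊆ H) ∨
  (∃ f, f ∉ X ∧ (∀ C ∈ CC, ¬ C ⊆ insert f X) ∧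
    r + 1 ≤ ((insert f X).filter fun e => (insert f X).erase e ∈ L).card + Δ) ∨
  (∃ e, e ∈ X ∧ (∀ H ∈ HH, ¬ X.erase e ⊆ H) ∧
    n - r + 1 ≤ (univ.filter fun g => g ∉ X.erase e ∧ insert g (X.erase e) ∈ L).card + Δ)

/-- The undetermined non-bases in `A`, outside the given set `D`. -/
def Und (r t Δ : ℕ) (A D : Finset (Finset (Fin n))) (M : Matroid (Fin n)) (X : Finset (Fin n)) :
    Prop :=
  X ∈ NB r M ∧ X ∈ A ∧ X ∉ D ∧ ¬ det r Δ (thC r t M) (thH r t M) (NB r M \ A) X

/-- The number of matroids of rank `r` on `Fin n` in which all members of `D` are dependent. -/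
noncomputable def nmat (n r : ℕ) (D : Finset (Finset (Fin n))) : ℕ :=
  Set.ncard {M : Matroid (Fin n) | Rk r M ∧ D ⊆ NB r M}

open Classical in
/-- The `r`-sets which contain `C`. -/
noncomputable def DC (r : ℕ) (C : Finset (Fin n)) : Finset (Finset (Fin n)) :=
  (V n r).filter fun X => C ⊆ X

open Classical in
/-- The `r`-sets which are disjoint from `C`. -/
noncomputable def DD (r : ℕ) (C : Finset (Fin n)) : Finset (Finset (Fin n)) :=
  (V n r).filter fun X => Disjoint C X

open Classical in
/-- The `r`-sets whose trace on `W` has less than `a` or at least `a + j` elements. -/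
noncomputable def DS (r : ℕ) (W : Finset (Fin n)) (a j : ℕ) : Finset (Finset (Fin n)) :=
  (V n r).filter fun X => (X ∩ W).card < a ∨ a + j ≤ (X ∩ W).card

/-! ### The statement -/

/-- The labelled `n`-element matroids. -/
def Lab (n : ℕ) : Set (Matroid (Fin n)) := {M | M.E = Set.univ}

/-- `M` is `k`-connected: no `j`-separation with `j < k`. A `j`-separation is a partition `(X, Y)` of
the ground set with `|X|, |Y| ≥ j` and `r(X) + r(Y) - r(M) ≤ j - 1`. -/
def KConn {α : Type*} (k : ℕ) (M : Matroid α) : Prop :=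
  ∀ j < k, ∀ X Y : Set α, X ∪ Y = M.E → Disjoint X Y → (j : ℕ∞) ≤ X.encard → (j : ℕ∞) ≤ Y.encard →
    M.eRank + j < M.eRk X + M.eRk Y + 1

/-- The isomorphism class of `M`. -/
def cls (M : Matroid (Fin n)) : Set (Matroid (Fin n)) :=
  {M' | ∃ σ : Equiv.Perm (Fin n), M' = M.mapEquiv σ}

/-- The number of labelled `n`-element matroids with the property `P`. -/
noncomputable def numLab (n : ℕ) (P : Matroid (Fin n) → Prop) : ℕ :=
  Set.ncard {M ∈ Lab n | P M}

/-- The number of isomorphism classes of `n`-element matroids with the (isomorphism invariant)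
property `P`. -/
noncomputable def numUnl (n : ℕ) (P : Matroid (Fin n) → Prop) : ℕ :=
  Set.ncard (cls '' {M ∈ Lab n | P M})

end Pool.Agent.Helper53.KC
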