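import Pool.Agent.Helper53.KC.Asm

/-!
# Assembly, part 2: the count of the matroids which are not `k`-connected
-/

namespace Pool.Agent.Helper53.KC

open Finset

/-- Uniform constants. -/
theorem unif (G : ℕ → ℝ → ℕ → Prop) (hanti : ∀ c δ δ' n, δ' ≤ δ → G c δ n → G c δ' n)
    (h : ∀ c, ∃ δ : ℝ, 0 < δ ∧ ∃ n₀, ∀ n ≥ n₀, G c δ n) (k : ℕ) :
    ∃ δ : ℝ, 0 < δ ∧ ∃ n₀, ∀ n ≥ n₀, ∀ c ≤ k, G c δ n := by
  induction k with
  | zero =>
    obtain ⟨δ, hδ, n₀, h0⟩ := h 0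
    refine ⟨δ, hδ, n₀, fun n hn c hc => ?_⟩
    obtain rfl : c = 0 := by omega
    exact h0 n hn
  | succ k ih =>
    obtain ⟨δ₁, hδ₁, n₁, h1⟩ := ih
    obtain ⟨δ₂, hδ₂, n₂, h2⟩ := h (k + 1)
    refine ⟨min δ₁ δ₂, lt_min hδ₁ hδ₂, max n₁ n₂, fun n hn c hc => ?_⟩
    rcases Nat.lt_or_ge k c with hk | hk
    · obtain rfl : c = k + 1 := by omega
      exact hanti _ _ _ _ (min_le_right _ _) (h2 n (le_trans (le_max_right _ _) hn))
    · exact hanti _ _ _ _ (min_le_left _ _) (h1 n (le_trans (le_max_left _ _) hn) c hk)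

theorem rpow_anti {δ δ' : ℝ} (n r : ℕ) (h : δ' ≤ δ) :
    (2 : ℝ) ^ (δ' * n.choose r / n) ≤ (2 : ℝ) ^ (δ * n.choose r / n) := by
  apply Real.rpow_le_rpow_of_exponent_le (by norm_num)
  gcongr

theorem exc_le (hfin : FinmStmt) (hconn : ConnStmt) (n r k : ℕ) (B : ℝ)
    (hB : 0 ≤ B)
    (h1 : ∀ C : Finset (Fin n), C.card ≤ k → (nmat n r (DC r C) : ℝ) ≤ B)
    (h2 : ∀ C : Finset (Fin n), C.card ≤ k → (nmat n r (DD r C) : ℝ) ≤ B)
    (h3 : ∀ (j a : ℕ) (W : Finset (Fin n)), j < k → j + 2 ≤ W.card → j + 2 ≤ Wᶜ.card →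
      (nmat n r (DS r W a j) : ℝ) ≤ B) :
    (Set.ncard {M : Matroid (Fin n) | Rk r M ∧ ¬ KConn k M} : ℝ) ≤
      (2 + k * (r + 1)) * 2 ^ n * B := by
  classical
  haveI := hfin n
  set s1 : Finset (Finset (Fin n)) := univ.filter fun C => C.card ≤ k with hs1
  set s3 : Finset (ℕ × ℕ × Finset (Fin n)) :=
    ((range k) ×ˢ ((range (r + 1)) ×ˢ (univ : Finset (Finset (Fin n))))).filter fun p =>
      p.1 + 2 ≤ p.2.2.card ∧ p.1 + 2 ≤ p.2.2ᶜ.card with hs3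
  have hsub : {M : Matroid (Fin n) | Rk r M ∧ ¬ KConn k M} ⊆
      (⋃ C ∈ s1, {M : Matroid (Fin n) | Rk r M ∧ DC r C ⊆ NB r M}) ∪
      ((⋃ C ∈ s1, {M : Matroid (Fin n) | Rk r M ∧ DD r C ⊆ NB r M}) ∪
      (⋃ p ∈ s3, {M : Matroid (Fin n) | Rk r M ∧ DS r p.2.2 p.2.1 p.1 ⊆ NB r M})) := by
    intro M hM
    obtain ⟨hM1, hM2⟩ := hM
    rcases hconn n r k M hM1 hM2 with ⟨C, hC1, hC2, hC3⟩ | ⟨C, hC1, hC2, hC3⟩ |
      ⟨j, a, W, hj, ha, hW, hWc, hD⟩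
    · left
      rw [Set.mem_iUnion₂]
      exact ⟨C, by rw [hs1, Finset.mem_filter]; exact ⟨Finset.mem_univ _, hC2⟩, hM1, hC3⟩
    · right; left
      rw [Set.mem_iUnion₂]
      exact ⟨C, by rw [hs1, Finset.mem_filter]; exact ⟨Finset.mem_univ _, hC2⟩, hM1, hC3⟩
    · right; right
      rw [Set.mem_iUnion₂]
      refine ⟨(j, a, W), ?_, hM1, hD⟩
      rw [hs3, Finset.mem_filter, Finset.mem_product, Finset.mem_product, Finset.mem_range,
        Finset.mem_range]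
      exact ⟨⟨hj, by simp only; omega, Finset.mem_univ _⟩, hW, hWc⟩
  have hU : ∀ (ι : Type) (s : Finset ι) (f : ι → Set (Matroid (Fin n))),
      (∀ i ∈ s, ((f i).ncard : ℝ) ≤ B) → ((⋃ i ∈ s, f i).ncard : ℝ) ≤ s.card * B := by
    intro ι s f hf
    have h1 : (⋃ i ∈ s, f i).ncard ≤ ∑ i ∈ s, (f i).ncard := by
      clear hf
      induction s using Finset.induction_on with
      | empty => simp
      | insert a s ha ih =>
        rw [Finset.set_biUnion_insert, Finset.sum_insert ha]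
        exact (Set.ncard_union_le _ _).trans (by omega)
    calc ((⋃ i ∈ s, f i).ncard : ℝ) ≤ ((∑ i ∈ s, (f i).ncard : ℕ) : ℝ) := by exact_mod_cast h1
      _ = ∑ i ∈ s, ((f i).ncard : ℝ) := by push_cast; rfl
      _ ≤ ∑ i ∈ s, B := Finset.sum_le_sum hf
      _ = s.card * B := by rw [Finset.sum_const, nsmul_eq_mul]
  have hc1 : s1.card ≤ 2 ^ n := by
    calc s1.card ≤ (univ : Finset (Finset (Fin n))).card := Finset.card_filter_le _ _
      _ = 2 ^ n := by rw [Finset.card_univ, Fintype.card_finset, Fintype.card_fin]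
  have hc3 : s3.card ≤ k * (r + 1) * 2 ^ n := by
    calc s3.card ≤ ((range k) ×ˢ ((range (r + 1)) ×ˢ (univ : Finset (Finset (Fin n))))).card :=
          Finset.card_filter_le _ _
      _ = k * (r + 1) * 2 ^ n := by
        rw [Finset.card_product, Finset.card_product, Finset.card_range, Finset.card_range,
          Finset.card_univ, Fintype.card_finset, Fintype.card_fin, mul_assoc]
  have e1 := hU _ s1 (fun C => {M : Matroid (Fin n) | Rk r M ∧ DC r C ⊆ NB r M})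
    (fun C hC => h1 C (by rw [hs1, Finset.mem_filter] at hC; exact hC.2))
  have e2 := hU _ s1 (fun C => {M : Matroid (Fin n) | Rk r M ∧ DD r C ⊆ NB r M})
    (fun C hC => h2 C (by rw [hs1, Finset.mem_filter] at hC; exact hC.2))
  have e3 := hU _ s3 (fun p => {M : Matroid (Fin n) | Rk r M ∧ DS r p.2.2 p.2.1 p.1 ⊆ NB r M})
    (fun p hp => by
      rw [hs3, Finset.mem_filter, Finset.mem_product, Finset.mem_range] at hp
      exact h3 p.1 p.2.1 p.2.2 hp.1.1 hp.2.1 hp.2.2)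
  have e4 : (Set.ncard {M : Matroid (Fin n) | Rk r M ∧ ¬ KConn k M} : ℝ) ≤
      s1.card * B + (s1.card * B + s3.card * B) := by
    have hle := Set.ncard_le_ncard hsub (Set.toFinite _)
    have hle2 := Set.ncard_union_le (⋃ C ∈ s1, {M : Matroid (Fin n) | Rk r M ∧ DC r C ⊆ NB r M})
      ((⋃ C ∈ s1, {M : Matroid (Fin n) | Rk r M ∧ DD r C ⊆ NB r M}) ∪
      (⋃ p ∈ s3, {M : Matroid (Fin n) | Rk r M ∧ DS r p.2.2 p.2.1 p.1 ⊆ NB r M}))
    have hle3 := Set.ncard_union_le (⋃ C ∈ s1, {M : Matroid (Fin n) | Rk r M ∧ DD r C ⊆ NB r M})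
      (⋃ p ∈ s3, {M : Matroid (Fin n) | Rk r M ∧ DS r p.2.2 p.2.1 p.1 ⊆ NB r M})
    have q1 : (Set.ncard {M : Matroid (Fin n) | Rk r M ∧ ¬ KConn k M} : ℝ) ≤
        ((⋃ C ∈ s1, {M : Matroid (Fin n) | Rk r M ∧ DC r C ⊆ NB r M}).ncard : ℝ) +
        (((⋃ C ∈ s1, {M : Matroid (Fin n) | Rk r M ∧ DD r C ⊆ NB r M}).ncard : ℝ) +
        ((⋃ p ∈ s3, {M : Matroid (Fin n) | Rk r M ∧ DS r p.2.2 p.2.1 p.1 ⊆ NB r M}).ncard : ℝ)) := by
      exact_mod_cast hle.trans (hle2.trans (Nat.add_le_add_left hle3 _))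
    exact q1.trans (add_le_add e1 (add_le_add e2 e3))
  have hc1R : (s1.card : ℝ) ≤ 2 ^ n := by exact_mod_cast hc1
  have hc3R : (s3.card : ℝ) ≤ k * (r + 1) * 2 ^ n := by exact_mod_cast hc3
  calc (Set.ncard {M : Matroid (Fin n) | Rk r M ∧ ¬ KConn k M} : ℝ)
      ≤ s1.card * B + (s1.card * B + s3.card * B) := e4
    _ ≤ 2 ^ n * B + (2 ^ n * B + k * (r + 1) * 2 ^ n * B) := by gcongr
    _ = (2 + k * (r + 1)) * 2 ^ n * B := by ring

/-- The exceptions in a central rank. -/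
theorem excCen (hfin : FinmStmt) (hconn : ConnStmt)
    (hA : ∀ η : ℝ, 0 < η → ∃ n₀, ∀ n ≥ n₀, ∀ r, Cen n r → ∀ D ⊆ V n r,
      (nmat n r D : ℝ) ≤ (2 : ℝ) ^ (η * n.choose r / n) * istab n r D)
    (hC : ∀ c : ℕ, ∃ δ : ℝ, 0 < δ ∧ ∃ n₀, ∀ n ≥ n₀, ∀ r, Cen n r → ∀ C : Finset (Fin n), C.card = c →
      (istab n r (DC r C) : ℝ) * (2 : ℝ) ^ (δ * n.choose r / n) ≤ istab n r ∅)
    (hD : ∀ c : ℕ, ∃ δ : ℝ, 0 < δ ∧ ∃ n₀, ∀ n ≥ n₀, ∀ r, Cen n r → ∀ C : Finset (Fin n), C.card = c →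
      (istab n r (DD r C) : ℝ) * (2 : ℝ) ^ (δ * n.choose r / n) ≤ istab n r ∅)
    (hS : ∀ j : ℕ, ∃ δ : ℝ, 0 < δ ∧ ∃ n₀, ∀ n ≥ n₀, ∀ r, Cen n r → ∀ (W : Finset (Fin n)) (a : ℕ),
      j + 2 ≤ W.card → j + 2 ≤ Wᶜ.card →
      (istab n r (DS r W a j) : ℝ) * (2 : ℝ) ^ (δ * n.choose r / n) ≤ istab n r ∅) (k : ℕ) :
    ∃ ε : ℝ, 0 < ε ∧ ∃ n₀, ∀ n ≥ n₀, ∀ r, Cen n r →
      (Set.ncard {M : Matroid (Fin n) | Rk r M ∧ ¬ KConn k M} : ℝ) ≤
        (2 + k * (r + 1)) * 2 ^ n * ((2 : ℝ) ^ (-(ε * n.choose r / n)) * istab n r ∅) := by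
  obtain ⟨δ₁, hδ₁, n₁, h1⟩ := unif
    (fun c δ n => ∀ r, Cen n r → ∀ C : Finset (Fin n), C.card = c →
      (istab n r (DC r C) : ℝ) * (2 : ℝ) ^ (δ * n.choose r / n) ≤ istab n r ∅)
    (fun c δ δ' n hle h r hr C hCc => le_trans
      (mul_le_mul_of_nonneg_left (rpow_anti n r hle) (Nat.cast_nonneg _)) (h r hr C hCc)) hC k
  obtain ⟨δ₂, hδ₂, n₂, h2⟩ := unif
    (fun c δ n => ∀ r, Cen n r → ∀ C : Finset (Fin n), C.card = c →
      (istab n r (DD r C) : ℝ) * (2 : ℝ) ^ (δ * n.choose r / n) ≤ istab n r ∅)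
    (fun c δ δ' n hle h r hr C hCc => le_trans
      (mul_le_mul_of_nonneg_left (rpow_anti n r hle) (Nat.cast_nonneg _)) (h r hr C hCc)) hD k
  obtain ⟨δ₃, hδ₃, n₃, h3⟩ := unif
    (fun j δ n => ∀ r, Cen n r → ∀ (W : Finset (Fin n)) (a : ℕ),
      j + 2 ≤ W.card → j + 2 ≤ Wᶜ.card →
      (istab n r (DS r W a j) : ℝ) * (2 : ℝ) ^ (δ * n.choose r / n) ≤ istab n r ∅)
    (fun c δ δ' n hle h r hr W a hW hWc => le_trans
      (mul_le_mul_of_nonneg_left (rpow_anti n r hle) (Nat.cast_nonneg _)) (h r hr W a hW hWc)) hS k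
  set δ := min δ₁ (min δ₂ δ₃) with hδdef
  have hδ : 0 < δ := lt_min hδ₁ (lt_min hδ₂ hδ₃)
  obtain ⟨n₄, h4⟩ := hA (δ / 2) (by linarith)
  refine ⟨δ / 2, by linarith, max (max n₁ n₂) (max n₃ n₄), fun n hn r hr => ?_⟩
  have hn1 : n₁ ≤ n := le_trans (le_trans (le_max_left _ _) (le_max_left _ _)) hn
  have hn2 : n₂ ≤ n := le_trans (le_trans (le_max_right _ _) (le_max_left _ _)) hn
  have hn3 : n₃ ≤ n := le_trans (le_trans (le_max_left _ _) (le_max_right _ _)) hn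
  have hn4 : n₄ ≤ n := le_trans (le_trans (le_max_right _ _) (le_max_right _ _)) hn
  have hgen : ∀ (D : Finset (Finset (Fin n))) (δ' : ℝ), δ ≤ δ' → D ⊆ V n r →
      (istab n r D : ℝ) * (2 : ℝ) ^ (δ' * n.choose r / n) ≤ istab n r ∅ →
      (nmat n r D : ℝ) ≤ (2 : ℝ) ^ (-(δ / 2 * n.choose r / n)) * istab n r ∅ := by
    intro D δ' hle hDV hD'
    have ha := h4 n hn4 r hr D hDV
    have hb : (istab n r D : ℝ) * (2 : ℝ) ^ (δ * n.choose r / n) ≤ istab n r ∅ :=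
      le_trans (mul_le_mul_of_nonneg_left (rpow_anti n r hle) (Nat.cast_nonneg _)) hD'
    have hpos : (0 : ℝ) < (2 : ℝ) ^ (δ * n.choose r / n) := by positivity
    have hb' : (istab n r D : ℝ) ≤ (2 : ℝ) ^ (-(δ * n.choose r / n)) * istab n r ∅ := by
      rw [Real.rpow_neg (by norm_num), ← div_eq_inv_mul, le_div_iff₀ hpos]
      exact hb
    calc (nmat n r D : ℝ) ≤ (2 : ℝ) ^ (δ / 2 * n.choose r / n) * istab n r D := ha
      _ ≤ (2 : ℝ) ^ (δ / 2 * n.choose r / n) *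
          ((2 : ℝ) ^ (-(δ * n.choose r / n)) * istab n r ∅) := by gcongr
      _ = (2 : ℝ) ^ (-(δ / 2 * n.choose r / n)) * istab n r ∅ := by
          rw [← mul_assoc, ← Real.rpow_add (by norm_num)]
          congr 2
          ring
  apply exc_le hfin hconn n r k _ (by positivity)
  · intro C hCk
    exact hgen _ δ₁ (min_le_left _ _) (by unfold DC; exact Finset.filter_subset _ _)
      (h1 n hn1 C.card hCk r hr C rfl)
  · intro C hCk
    exact hgen _ δ₂ (le_trans (min_le_right _ _) (min_le_left _ _))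
      (by unfold DD; exact Finset.filter_subset _ _) (h2 n hn2 C.card hCk r hr C rfl)
  · intro j a W hj hW hWc
    exact hgen _ δ₃ (le_trans (min_le_right _ _) (min_le_right _ _))
      (by unfold DS; exact Finset.filter_subset _ _) (h3 n hn3 j hj.le r hr W a hW hWc)

end Pool.Agent.Helper53.KC
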