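import Pool.Agent.Helper53.KC.Defs

/-!
# Almost every matroid is `k`-connected (`MP_8c9d5b_co`): goals

All goals are independent: any goal may assume any other goal as a hypothesis. `N = C(n,r)`.
Plan: a matroid `M` of rank `r` on `Fin n` is determined by its small circuits, its large
hyperplanes, few non-bases with a little information on their neighbours, and a stable set of the
Johnson graph. So the number of the matroids of rank `r` in which all members of `D` are dependent is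
at most `2^(o(N/n))` times the number of the stable sets which avoid `D`. If all sets which contain
(or avoid) a set `C` of at most `k` elements are dependent, or if there is a separation, then the
latter number is at most `2^(-δ N/n)` times the number of all stable sets, which is at most the number
of all matroids (sparse paving matroids).
-/

namespace Pool.Agent.Helper53.KC

open Finset

/-! ### General lemmas -/

/-- FINM. There are finitely many matroids on `Fin n`. Proof: `M` is determined by `M.E` and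
`M.Indep` (`Matroid.ext_indep`), elements of `Set (Fin n) × Set (Set (Fin n))`, a finite type. -/
def FinmStmt : Prop := ∀ n : ℕ, Finite (Matroid (Fin n))

/-- CONT. The container lemma. Proof by strong induction on `A.card`. If no `v ∈ A` has `D`
neighbours in `A`, take `c U = A` and `U = ∅`. Otherwise fix such a `v ∈ A` and the set `W ⊆ A` of ALL
neighbours of `v` in `A` (`D ≤ W.card`, `v ∉ W` by irreflexivity). Let `c₀` be the function for
`A.erase v` and `c₁` the one for `A \ insert v W`, and put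
`c U = if v ∈ U then c₁ (U.erase v) else c₀ U`. For `K` with `v ∉ K` take the set `U` of `c₀`, for
`v ∈ K` take `insert v U₁` (`U₁ ⊆ A \ insert v W` so `v ∉ U₁`, and
`(U₁.card + 1) * D ≤ (A.card - W.card - 1) + D ≤ A.card`). -/
def ContStmt : Prop := ∀ (α : Type) [DecidableEq α] (ad : α → α → Prop) (A : Finset α) (D : ℕ),
  1 ≤ D → (∀ x y, ad x y → ad y x) → (∀ x, ¬ ad x x) →
  ∃ c : Finset α → Finset α, (∀ U, c U ⊆ A) ∧
    (∀ U, ∀ v ∈ c U, ∀ W ⊆ c U, (∀ w ∈ W, ad v w) → W.card < D) ∧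
    ∀ K : Finset α, ∃ U ⊆ K, U ⊆ A ∧ U.card * D ≤ A.card ∧
      ∀ v ∈ A, v ∉ c U → v ∈ U ∨ (∃ u ∈ U, ad u v) ∨ v ∉ K

/-- SUP. Supersaturation. Proof: for an `(r-1)`-set `Y` let `a Y` be the number of the `X ∈ A` with
`Y ⊆ X`. Then `∑ a Y = r |A|` and `∑ (a Y)^2 = r |A| + #{(X, X') ∈ A × A adjacent}
≤ |A| (r + Δ)` (adjacent sets have exactly one common `(r-1)`-subset, distinct nonadjacent ones none).
By Cauchy-Schwarz `(r |A|)^2 ≤ C(n,r-1) |A| (r + Δ)`, and `C(n,r-1) (n-r+1) = r C(n,r)`. -/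
def SupStmt : Prop := ∀ (n r Δ : ℕ) (A : Finset (Finset (Fin n))), A ⊆ V n r → Low A Δ →
  1 ≤ r → r ≤ n → A.card * (r * (n - r + 1)) ≤ n.choose r * (Δ + r)

/-- GS. Graham-Sloane. Proof: colour an `r`-set by the sum of its elements modulo `n`; adjacent sets
have different colours, as `X' = X - e + f` with `e ≠ f` in `Fin n`. One of the `n` colour classes of
`W` has at least `W.card / n` elements. -/
def GsStmt : Prop := ∀ (n r : ℕ) (W : Finset (Finset (Fin n))), 1 ≤ n → W ⊆ V n r →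
  ∃ S ⊆ W, Stb S ∧ W.card ≤ n * S.card

/-- SPM. Sparse paving matroids. Proof: the bases are the `r`-sets not in `S`. There is one, since
`V n r` contains two adjacent sets (`0 < r < n`). Exchange for `B₁, B₂`, `e ∈ B₁ \ B₂`: if
`B₂ \ B₁` is a singleton `{f}` then `B₁ - e + f = B₂`; otherwise take `f ≠ f'` in `B₂ \ B₁`: the sets
`B₁ - e + f` and `B₁ - e + f'` are adjacent, so one of them is not in `S`. (Use
`Matroid.ofIsBaseOfFinite` or similar.) An `r`-set is independent iff it is a base. -/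
def SpmStmt : Prop := ∀ (n r : ℕ) (S : Finset (Finset (Fin n))), 1 ≤ r → r < n → S ⊆ V n r →
  Stb S → ∃ M : Matroid (Fin n), Rk r M ∧ NB r M = S

/-! ### Structure of matroids -/

/-- THK. There are few small circuits and few large hyperplanes. Proof for hyperplanes: let `H` be a
hyperplane (complement of a cocircuit) with `r + t ≤ |H| + 1`. Choose a basis `I` of `H`, it has `r - 1`
elements, so `J = H \ I` has at least `t` elements; choose `J' ⊆ J` with exactly `t` elements. For an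
`i`-subset `T` of `J'` the set `H \ T` contains `I`, so its closure is `H`; hence the map
`(H, T) ↦ H \ T` is injective on the pairs, and its values are subsets of `Fin n`. Circuits: apply
this to the dual matroid, of rank `n - r` (the complements of circuits of `M` are the hyperplanes of
`M✶`, and `|C| + t ≤ r + 1` iff `(n - r) + t ≤ (n - |C|) + 1`). -/
def ThkStmt : Prop := ∀ (n r t i : ℕ) (M : Matroid (Fin n)), Rk r M →
  (thH r t M).card * t.choose i ≤ 2 ^ n ∧ (thC r t M).card * t.choose i ≤ 2 ^ n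

/-- LOC. The neighbours of a non-base `X` (`|X| = r`, `X` dependent). Proof. If `flag M X` then `Qe`
is `X` and `Pf` is the complement of `X`. Otherwise some `X - e + f` is independent, so `X` has rank
`r - 1`, contains exactly one circuit `C`, and `H = cl X` is a hyperplane. For `e ∈ X`, `f ∉ X`:
`X - e + f` is independent iff `e ∈ C` and `f ∉ H` (if `e ∈ C` then `X - e` is independent with
closure `H`). So `Pf M X = H \ X`, `Qe M X = X \ C`. If `t < |Pf|` then `|H| > r + t` and `H` is in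
`thH`; a member of `thH` which contains `X` is a hyperplane, so it is `H`. If `t < |Qe|` then
`|C| < r - t` and `C` is in `thC`; a member of `thC` contained in `X` is `C`. (If `X = ∅`, i.e. `r = 0`,
there are no dependent `r`-sets.) -/
def LocStmt : Prop := ∀ (n r t : ℕ) (M : Matroid (Fin n)), Rk r M → ∀ X ∈ NB r M,
  (∀ e ∈ X, ∀ f ∉ X, (¬ M.Indep (sw X e f : Set (Fin n)) ↔ e ∈ Qe M X ∨ f ∈ Pf M X)) ∧
  (¬ flag M X →
    (t < (Pf M X).card → ∃ H ∈ thH r t M, X ⊆ H) ∧ (∀ H ∈ thH r t M, X ⊆ H → Pf M X = H \ X) ∧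
    (t < (Qe M X).card → ∃ C ∈ thC r t M, C ⊆ X) ∧ (∀ C ∈ thC r t M, C ⊆ X → Qe M X = X \ C))

/-- DET. The rules are sound. Proof. Let `X` be an independent `r`-set, so a base. (1) It contains no
circuit. (2) It is contained in no hyperplane. (3) Let `f ∉ X`, `Y = X + f`, and let `C` be the unique
circuit in `Y`; for `e ∈ Y`, `Y - e` is dependent iff `e ∉ C`, so at most `r + 1 - |C|` of the `Y - e`
are in `L`. If `r + 1 ≤ #.. + Δ` then `|C| ≤ Δ`, so `|C| + t ≤ r + 1` and `C` is in `thC`. (4) Let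
`e ∈ X`, `Z = X - e`, independent of size `r - 1`, and let `H` be its closure, a hyperplane. For
`g ∉ Z`, `Z + g` is dependent iff `g ∈ H`, so at most `|H| - (r - 1)` of the `Z + g` are in `L`. If
`n - r + 1 ≤ #.. + Δ` then `|H| ≥ n - Δ`, so `r + t ≤ |H| + 1`, and `H ∈ thH`, `Z ⊆ H`. -/
def DetStmt : Prop := ∀ (n r t Δ : ℕ) (M : Matroid (Fin n)) (L : Finset (Finset (Fin n)))
  (X : Finset (Fin n)), Rk r M → Δ + t ≤ r + 1 → Δ + t ≤ n - r + 1 → L ⊆ NB r M → X ∈ V n r →
  det r Δ (thC r t M) (thH r t M) L X → X ∈ NB r M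

/-- INJ. A matroid is determined by the data. Proof. Let `X' ∈ NB r M`. If `X' ∉ A` then `X' ∈ NB r M'`
by hypothesis. If `X' ∈ D` then too. If `X'` satisfies `det` for the data of `M`, which are those of
`M'`, use DET for `M'` (with `L = NB r M' \ A`). So let `X'` be undetermined. If `X' ∈ S` we are done.
Otherwise there is an undetermined `X ∈ S` adjacent to `X'`, and `X ∈ NB r M'`. Write
`X' = X - e + f`, `Y = X + f = X' + e`, `Z = X - e = X' - f`.
Case 1: `Z` is independent in `M`. Then `e, f ∈ cl Z`, so `Y` has rank `r - 1` and all `r + 1` sets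
`Y - g` are in `NB r M`. Since `X ∈ A` has less than `Δ` neighbours in `A`, at most `Δ` of them are in
`A`, the others are in `NB r M \ A`. As `det` fails for `X` there is `C ∈ thC` with `C ⊆ Y`. As `det`
fails for `X` and `X'`, `C` is contained neither in `X` nor in `X'`, so `e, f ∈ C`. In `M'`: `C` is a
circuit, and `X` contains a circuit `C₁`; `C₁ ≠ C` since `f ∉ C₁`. If `X'` were independent in `M'`,
then `Y = X' + e` would contain only one circuit (`Matroid.IsCircuit.eq_fundCircuit_of_subset`).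
Case 2: `Z` is dependent in `M`. Then all `n - r + 1` sets `Z + g`, `g ∉ Z`, are in `NB r M`, at most
`Δ` of them in `A`. As `det` fails for `X` there is `H ∈ thH` with `Z ⊆ H`; as it fails for `X`, `X'`,
`e, f ∉ H`. In `M'`: `H` is a hyperplane. If `X'` were a base of `M'` then `Z` would be independent
with `r - 1` elements, so `cl Z = H` and `X = Z + e` would be independent, a contradiction. -/
def InjStmt : Prop := ∀ (n r t Δ : ℕ) (M M' : Matroid (Fin n)) (A D S : Finset (Finset (Fin n))),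
  Rk r M → Rk r M' → A ⊆ V n r → Low A Δ → Δ + t ≤ r + 1 → Δ + t ≤ n - r + 1 →
  thC r t M = thC r t M' → thH r t M = thH r t M' → NB r M \ A = NB r M' \ A →
  D ⊆ NB r M' → S ⊆ NB r M' →
  (∀ X', Und r t Δ A D M X' → X' ∉ S → ∃ X ∈ S, Und r t Δ A D M X ∧ adj X X') →
  NB r M ⊆ NB r M'

/-- EXT. Matroids of rank `r` with the same dependent `r`-sets are equal. -/
def ExtStmt : Prop := ∀ (n r : ℕ) (M M' : Matroid (Fin n)), Rk r M → Rk r M' →
  NB r M = NB r M' → M = M'

/-- CNT. The number of the matroids. Proof (assumes CONT, SUP, LOC, INJ, EXT, FINM). Let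
`c₁` be the function of CONT for `A = V n r`, `D = Δ₁`, and for each `U₁` let `c₂ U₁` be the function
of CONT for `c₁ U₁` and `Δ₂` (relation `adj`, symmetric and irreflexive). For a matroid `M` of the
family let `K = NB r M`, `U₁` the set of CONT (`|U₁| ≤ u₁`), `A₁ = c₁ U₁` (`|A₁| ≤ a₁` by SUP),
`U₂` the set of CONT (`|U₂| ≤ u₂`), `A = c₂ U₁ U₂`. For `X ∈ K` let
`info X = (flag M X, if |Pf M X| ≤ t then Pf M X else ∅, if |Qe M X| ≤ t then Qe M X else ∅)`.
Let `S` be a maximal stable subset of the set of the undetermined non-bases (`Und r t Δ₂ A D M`); it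
avoids `D`. The map `M ↦ (thC, thH, {(X, info X) | X ∈ U₁}, {(X, info X) | X ∈ U₂}, S)` is injective:
if `M, M'` have the same data then `U₁, U₂, A` are the same, and `NB r M \ A = NB r M' \ A`: a vertex
`X' ∉ A` is in `U₁` or `U₂` (then a non-base of both), or a neighbour of some `X ∈ U₁ ∪ U₂`,
`X' = X - e + f`, and then by LOC its status is determined by `info X`, `thC`, `thH`, or it is not in
`NB r M` and not in `NB r M'`. Now INJ in both directions, and EXT. Count: `thC`, `thH` are sets of at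
most `h` subsets; the third and fourth component are subsets of size at most `u₁`, `u₂` of a set of
`C(n,r) · 2 · (bl n t)^2` elements. -/
def CntStmt : Prop := ∀ (n r t Δ₁ Δ₂ h u₁ a₁ u₂ : ℕ) (D : Finset (Finset (Fin n))),
  1 ≤ r → r < n → 1 ≤ Δ₁ → 1 ≤ Δ₂ → Δ₂ + t ≤ r + 1 → Δ₂ + t ≤ n - r + 1 →
  (∀ M : Matroid (Fin n), Rk r M → (thC r t M).card ≤ h ∧ (thH r t M).card ≤ h) →
  n.choose r < Δ₁ * (u₁ + 1) → n.choose r * (Δ₁ + r) < (a₁ + 1) * (r * (n - r + 1)) →
  a₁ < Δ₂ * (u₂ + 1) → D ⊆ V n r →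
  nmat n r D ≤ (bl (2 ^ n) h) ^ 2 * bl (n.choose r * (2 * (bl n t) ^ 2)) u₁ *
    bl (n.choose r * (2 * (bl n t) ^ 2)) u₂ * istab n r D

/-- CNTS. The number of the stable sets. Proof (assumes CONT, SUP): as CNT, with `K = S` stable: a
member of `S` outside `A₁` is in `U₁`, a member in `A₁` outside `A` is in `U₂`, so `S` is determined by
`U₁`, `U₂` and `S ∩ A`, and `|A| ≤ a₂` by SUP. -/
def CntsStmt : Prop := ∀ (n r Δ₁ Δ₂ u₁ a₁ u₂ a₂ : ℕ),
  1 ≤ r → r < n → 1 ≤ Δ₁ → 1 ≤ Δ₂ → n.choose r < Δ₁ * (u₁ + 1) →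
  n.choose r * (Δ₁ + r) < (a₁ + 1) * (r * (n - r + 1)) → a₁ < Δ₂ * (u₂ + 1) →
  n.choose r * (Δ₂ + r) < (a₂ + 1) * (r * (n - r + 1)) →
  istab n r ∅ ≤ bl (n.choose r) u₁ * bl (n.choose r) u₂ * 2 ^ a₂

/-! ### Numerical estimates -/

/-- BL. Proof: for `0 < x ≤ 1`, `bl m u ≤ ∑_{j ≤ u} C(m,j) x^j / x^u ≤ (1+x)^m / x^u`; take `x = u/m`,
which gives `(e m / u)^u`; the function `y ↦ (e m / y)^y` is increasing for `0 < y ≤ m`, so one may
replace `u` by any real `y` with `u ≤ y ≤ m`. -/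
def BlStmt : Prop := ∀ (m u : ℕ) (y : ℝ), (u : ℝ) ≤ y → 0 < y → y ≤ m →
  (bl m u : ℝ) ≤ (Real.exp 1 * m / y) ^ y

/-- CEN. Central ranks are between `n/4` and `3n/4`. Proof: `C(n,r) (1/3)^r ≤ (4/3)^n`; for `4 r < n`
this gives `C(n,r) ≤ ((4/3)^4 · 3)^(n/4) = (256/27)^(n/4)`, and `256/27 < 10`, `16 > 10`: so
`n^3 C(n,r) ≤ n^3 10^(n/4) < 16^(n/4) = 2^n` for large `n`. For `4 r > 3 n` use the symmetry
`C(n,r) = C(n,n-r)`. The other statements: `C(n-a-b, r-a) / C(n,r)` is a product of `a + b` factors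
`(r-i)/(n-..)`, `(n-r-i)/(n-..)`, each at least `1/5` for `n/4 ≤ r ≤ 3n/4` and `n ≥ 20 (a+b)`; e.g. by
induction from `C(n,r) r = n C(n-1,r-1)` and `C(n,r) (n-r) = n C(n-1,r)`. -/
def CenStmt : Prop := (∃ n₀, ∀ n ≥ n₀, ∀ r, Cen n r → n ≤ 4 * r ∧ 4 * r ≤ 3 * n) ∧
  ∀ a b : ℕ, ∃ n₀, ∀ n ≥ n₀, ∀ r, n ≤ 4 * r → 4 * r ≤ 3 * n →
    n.choose r ≤ 5 ^ (a + b) * (n - a - b).choose (r - a)

/-- NUM. The choice of the parameters. Proof (assumes BL, CEN). Let `N = C(n,r) ≥ 2^n/n^3`, `s` the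
largest natural number with `s^16 ≤ n` (so `n < (s+1)^16`, `s → ∞`, and `log₂ (n+1) ≤ 16 log₂ (s+1) + 1
≤ s` for large `s`). Take `t = s^4`, `i = 21`, `h = ⌊2^n / C(t,21)⌋`, `Δ₁ = n s^6`, `u₁ = ⌊N/Δ₁⌋`,
`a₁ = ⌊N (Δ₁ + r)/(r (n-r+1))⌋`, `Δ₂ = s^12`, `u₂ = ⌊a₁/Δ₂⌋`. With `n/4 ≤ r ≤ 3n/4` one has
`a₁ ≤ 32 N s^6/n`, `u₂ ≤ 32 N/(n s^6)`, `Δ₂ + t ≤ 2 s^12 ≤ n/4`. Now `bl (2^n) h ≤ (2^n + 1)^h ≤
2^((n+1) h)` with `(n+1) h ≤ (n+1) n^3 N/C(s^4,21) ≤ (N/n) · 2 n^5 21^21/s^84`, and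
`n^5 ≤ (s+1)^80`. `bl n t ≤ (n+1)^t = 2^(t log₂ (n+1)) ≤ 2^(s^5)`. By BL with
`m = 2 (bl n t)^2 N` and `y = N/(n s^6)` (resp. `y = 32 N/(n s^6)`),
`log₂ (bl m u) ≤ y (2 + 1 + 2 s^5 + log₂ (n s^6)) ≤ y · 3 s^5` for large `n`. So all exponents are
`(N/n) · O(1/s)`. -/
def NumStmt : Prop := ∀ η : ℝ, 0 < η → ∃ n₀, ∀ n ≥ n₀, ∀ r, Cen n r →
  ∃ t Δ₁ Δ₂ i h u₁ a₁ u₂ : ℕ, 1 ≤ r ∧ r < n ∧ 1 ≤ Δ₁ ∧ 1 ≤ Δ₂ ∧ Δ₂ + t ≤ r + 1 ∧
    Δ₂ + t ≤ n - r + 1 ∧ 2 ^ n < (h + 1) * t.choose i ∧ n.choose r < Δ₁ * (u₁ + 1) ∧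
    n.choose r * (Δ₁ + r) < (a₁ + 1) * (r * (n - r + 1)) ∧ a₁ < Δ₂ * (u₂ + 1) ∧
    (((bl (2 ^ n) h) ^ 2 * bl (n.choose r * (2 * (bl n t) ^ 2)) u₁ *
      bl (n.choose r * (2 * (bl n t) ^ 2)) u₂ : ℕ) : ℝ) ≤ (2 : ℝ) ^ (η * n.choose r / n)

/-- NUMS. Proof (assumes BL, CEN). As NUM, with `Δ₁ = n s^6`, `u₁ ≤ N/(n s^6)`, `a₁ ≤ 32 N s^6/n`,
`Δ₂ = n`, `u₂ ≤ 32 N s^6/n^2`, `a₂ ≤ 16 N (n + r)/n^2 ≤ 32 N/n`, and
`log₂ bl(N,u₁) ≤ (N/(n s^6)) (2 + log₂ (n s^6))`,
`log₂ bl(N,u₂) ≤ (32 N s^6/n^2) (2 + log₂ (n^2))`, both `o(N/n)`. -/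
def NumsStmt : Prop := ∃ n₀, ∀ n ≥ n₀, ∀ r, Cen n r →
  ∃ Δ₁ Δ₂ u₁ a₁ u₂ a₂ : ℕ, 1 ≤ r ∧ r < n ∧ 1 ≤ Δ₁ ∧ 1 ≤ Δ₂ ∧ n.choose r < Δ₁ * (u₁ + 1) ∧
    n.choose r * (Δ₁ + r) < (a₁ + 1) * (r * (n - r + 1)) ∧ a₁ < Δ₂ * (u₂ + 1) ∧
    n.choose r * (Δ₂ + r) < (a₂ + 1) * (r * (n - r + 1)) ∧
    ((bl (n.choose r) u₁ * bl (n.choose r) u₂ * 2 ^ a₂ : ℕ) : ℝ) ≤ (2 : ℝ) ^ (33 * n.choose r / n : ℝ)

/-! ### Stable sets which avoid `D` -/

/-- ENT. Dual Shearer inequality for uniform measures (for `S` uniform in `I`: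
`∑_j H(S | S \ B j) ≤ t H(S)`). Proof by induction on the size of a set `Ω` which contains all members
of `I`. (`Ω = ∅`: `I` is a singleton, all logarithms are zero.) Let `v ∈ Ω`,
`I₀ = {S ∈ I | v ∉ S}`, `I₁ = {S \ {v} | v ∈ S ∈ I}` (if one of them is empty, it is immediate from the
induction hypothesis for the other one, removing `v` from all sets). For `S ∈ I` let `n_j(S)` be the
number in the claim, and `n'_j(S)` the number of those `S'` which moreover contain `v` iff `S` does.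
By induction `∑_j ∑_S log₂ n'_j(S) ≤ t (|I₀| log₂ |I₀| + |I₁| log₂ |I₁|)
= t |I| (log₂ |I| - h(|I₁|/|I|))`, `h` the binary entropy function. For `j` with `v ∉ B j`,
`n_j = n'_j`. For each of the at most `t` other `j`, group the `S` by the fibres of `S \ B j`; a fibre
with `a` members without `v` and `b` members with `v` contributes
`a log₂ ((a+b)/a) + b log₂ ((a+b)/b) = (a+b) h(b/(a+b))` to `∑_S log₂ (n_j/n'_j)`, and by concavity of
`h` (log sum inequality) the sum over the fibres is at most `|I| h(|I₁|/|I|)`. -/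
def EntStmt : Prop := ∀ (α ι : Type) [DecidableEq α] (I : Finset (Finset α)) (J : Finset ι)
  (B : ι → Finset α) (t : ℕ), I.Nonempty → (∀ v, (J.filter fun j => v ∈ B j).card ≤ t) →
  ∑ j ∈ J, ∑ S ∈ I, Real.logb 2 ((I.filter fun S' => S' \ B j = S \ B j).card : ℝ) ≤
    t * I.card * Real.logb 2 (I.card : ℝ)

/-- AV. The average number of the available vertices. `I` is the family of the stable sets which avoid
`DC r C`. Proof (assumes ENT). For `X ∈ DC r C` let `B X = {X - e + f | e ∈ C, f ∉ X}`; a vertex `v` is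
in at most `r` of these sets (`v = X - e + f` implies `C \ v = {e}` and `X = v - f + e`, `f ∈ v`).
So by ENT `∑_X ∑_S log₂ n_X(S) ≤ r |I| log₂ |I|`. Each fibre `{S' | S' \ B X = S \ B X}` contains
exactly one set disjoint from `B X`, namely `S \ B X` (which is in `I`), so the number of the `S ∈ I`
disjoint from `B X` is `∑_S 1/n_X(S)`. By Jensen (convexity of `2^(-x)`) the average of
`2^(-log₂ n_X(S))` over all pairs `(X, S)` is at least `2^(-avg) ≥ 2^(-r log₂ |I|/|DC|)`. Finally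
`N(X) \ DC r C ⊆ B X`, so the `X` counted here are available: no member of `S` is adjacent to `X`. -/
def AvStmt : Prop := ∀ (n r : ℕ) (C : Finset (Fin n)) (b : ℝ), (DC r C).Nonempty →
  r * Real.logb 2 (istab n r (DC r C)) ≤ b * (DC r C).card →
  open Classical in
  (istab n r (DC r C) : ℝ) * (DC r C).card * (2 : ℝ) ^ (-b) ≤
    ∑ S ∈ ((V n r) \ (DC r C)).powerset.filter Stb,
      (((DC r C).filter fun X => ∀ Y ∈ S, ¬ adj X Y).card : ℝ)

/-- AVG. Proof (assumes GS). For `S` in the family `I` of the stable sets avoiding `D`, let `Av S` be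
the set of the `X ∈ D` not adjacent to any member of `S`; by GS it contains a stable set `T_S` with
`|Av S| ≤ n |T_S|`; all sets `S ∪ T`, `T ⊆ T_S`, are stable and distinct (`S = (S ∪ T) \ D`). So
`istab n r ∅ ≥ ∑_S 2^(|Av S|/n) ≥ |I| 2^(avg |Av S|/n)` by Jensen. -/
def AvgStmt : Prop := ∀ (n r : ℕ) (D : Finset (Finset (Fin n))) (a : ℝ), 1 ≤ n → D ⊆ V n r →
  open Classical in
  a * (istab n r D : ℝ) ≤ ∑ S ∈ ((V n r) \ D).powerset.filter Stb,
      ((D.filter fun X => ∀ Y ∈ S, ¬ adj X Y).card : ℝ) →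
  (istab n r D : ℝ) * (2 : ℝ) ^ (a / n) ≤ istab n r ∅

/-- CMP. Complements. Proof: `X ↦ Xᶜ` is an isomorphism of Johnson graphs. -/
def CmpStmt : Prop := ∀ (n r : ℕ) (C : Finset (Fin n)), r ≤ n →
  istab n r (DD r C) = istab n (n - r) (DC (n - r) C) ∧ istab n r ∅ = istab n (n - r) ∅

/-- SEP. Proof: Let `j' = j + 2`, choose `X' ⊆ W`, `Y' ⊆ Wᶜ` with `j'` elements each. For each
`(r - j')`-subset `Q` of the complement of `X' ∪ Y'` the `j' + 1` sets `Q ∪ X'_i ∪ Y'_(j'-i)`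
(`X'_i ⊆ X'` a fixed subset with `i` elements, similarly `Y'`), `i = 0, …, j'`, are `r`-sets whose
traces on `W` have `j' + 1` consecutive sizes; at most `j' = j + 2` sizes `x` satisfy
`a ≤ x + 1` and `x ≤ a + j`. So some set of this kind is in the left set; different `Q` give different
sets. (For `r < j'` the left hand side... the binomial coefficient `C(n - 2j', r - j')` is only used for
`j' ≤ r`, which is a hypothesis.) -/
def SepStmt : Prop := ∀ (n r a j : ℕ) (W : Finset (Fin n)), j + 2 ≤ W.card → j + 2 ≤ Wᶜ.card →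
  j + 2 ≤ r → (n - (j + 2) - (j + 2)).choose (r - (j + 2)) ≤
    ((V n r).filter fun X => (X ∩ W).card + 1 < a ∨ a + j < (X ∩ W).card).card

/-- SEPN. Neighbours of members of `{X | (X ∩ W).card + 1 < a ∨ a + j < (X ∩ W).card}` are in
`DS r W a j`: adjacent sets have traces on `W` whose sizes differ by at most one. -/
def SepnStmt : Prop := ∀ (n r a j : ℕ) (W X Y : Finset (Fin n)), X ∈ V n r → Y ∈ V n r → adj X Y →
  (X ∩ W).card + 1 < a ∨ a + j < (X ∩ W).card → Y ∈ DS r W a j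

/-! ### Connectivity and the end of the proof -/

/-- CONN. A matroid which is not `k`-connected has many non-bases. Proof. Let `(X, Y)` be a
`j`-separation, `j < k`, so `j ≥ 1` and `r(X) + r(Y) + 1 ≤ r + j`. Let `a = r - r(Y)`. A base `B`
satisfies `|B ∩ X| ≤ r(X) < a + j` and `|B ∩ Y| ≤ r(Y)`, i.e. `|B ∩ X| ≥ a`. So `DS r X a j` consists
of non-bases (as `|B ∩ Y| = r - |B ∩ X|`). If `|X|, |Y| ≥ j + 2` this is the third alternative. If
`|X| ≤ j + 1` (`≤ k`; and `|X| ≥ j ≥ 1`): for `a ≥ 1` all `r`-sets disjoint from `X` are non-bases; for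
`a = 0` a base has `|B ∩ X| < j ≤ |X|`, so all `r`-sets containing `X` are non-bases. If
`|Y| ≤ j + 1`: the same with `X, Y` exchanged. -/
def ConnStmt : Prop := ∀ (n r k : ℕ) (M : Matroid (Fin n)), Rk r M → ¬ KConn k M →
  (∃ C : Finset (Fin n), 1 ≤ C.card ∧ C.card ≤ k ∧ DC r C ⊆ NB r M) ∨
  (∃ C : Finset (Fin n), 1 ≤ C.card ∧ C.card ≤ k ∧ DD r C ⊆ NB r M) ∨
  (∃ (j a : ℕ) (W : Finset (Fin n)), j < k ∧ a ≤ r ∧ j + 2 ≤ W.card ∧ j + 2 ≤ Wᶜ.card ∧
    DS r W a j ⊆ NB r M)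

/-- RNG. Trivial upper bound. Proof (assumes EXT): `M` is determined by `NB r M ⊆ V n r`. -/
def RngStmt : Prop := ∀ n r : ℕ, nmat n r ∅ ≤ 2 ^ n.choose r

/-- LOW. Lower bounds (assumes SPM, EXT, FINM, GS): sparse paving matroids; and all subsets of a stable
set of size at least `C(n,r)/n` are stable. -/
def LowStmt : Prop := ∀ n r : ℕ, 1 ≤ r → r < n → istab n r ∅ ≤ numLab n (fun _ => True) ∧
  (2 : ℝ) ^ ((n.choose r : ℝ) / n) ≤ istab n r ∅

/-- UNL. Isomorphism classes. Proof (assumes FINM): an isomorphism class has at most `n!` members, so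
`l(n) ≤ n! f(n)`; the number of the classes with the property `¬ P` is at most the number of the
labelled matroids with `¬ P`; and `f(n) - #{classes with P} = #{classes with ¬ P}`, since `P` is
invariant. -/
def UnlStmt : Prop := ∀ (n : ℕ) (P : Matroid (Fin n) → Prop),
  (∀ (M : Matroid (Fin n)) (σ : Equiv.Perm (Fin n)), P M ↔ P (M.mapEquiv σ)) →
  numLab n (fun _ => True) ≤ n.factorial * numUnl n (fun _ => True) ∧
  numUnl n (fun _ => True) ≤ numUnl n P + numLab n (fun M => ¬ P M) ∧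
  numUnl n P ≤ numUnl n (fun _ => True) ∧
  numLab n (fun _ => True) = numLab n P + numLab n (fun M => ¬ P M)

/-- KINV. `k`-connectivity is invariant under isomorphism (`Matroid.mapEquiv` preserves ranks). -/
def KinvStmt : Prop := ∀ (n k : ℕ) (M : Matroid (Fin n)) (σ : Equiv.Perm (Fin n)),
  KConn k M ↔ KConn k (M.mapEquiv σ)

end Pool.Agent.Helper53.KC
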