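import Pool.Agent.Helper53.KC.Goals

/-!
# Almost every matroid has no nontrivial automorphism: definitions and goals

Same method, for matroids which are invariant under a fixed permutation `σ ≠ 1`. All goals are
independent: any goal may assume any other goal (also of `Goals.lean`) as a hypothesis.
-/

namespace Pool.Agent.Helper53.KC

open Finset

variable {n : ℕ}

/-- The image of a set. -/
def act (σ : Equiv.Perm (Fin n)) (X : Finset (Fin n)) : Finset (Fin n) := X.map σ.toEmbedding

/-- The `r`-sets moved by `σ`. -/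
def Mv (r : ℕ) (σ : Equiv.Perm (Fin n)) : Finset (Finset (Fin n)) :=
  (V n r).filter fun X => act σ X ≠ X

/-- `S` is invariant under `σ`, and adjacent members of `S` are in the same orbit of `σ`. -/
def Sym (σ : Equiv.Perm (Fin n)) (S : Finset (Finset (Fin n))) : Prop :=
  (∀ X ∈ S, act σ X ∈ S) ∧ ∀ X ∈ S, ∀ Y ∈ S, adj X Y → ∃ i : ℕ, Y = act (σ ^ i) X

open Classical in
/-- The number of these families of `r`-sets. -/
noncomputable def isym (n r : ℕ) (σ : Equiv.Perm (Fin n)) : ℕ :=
  ((V n r).powerset.filter (Sym σ)).card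

/-- `M` is invariant under `σ`. -/
def Inv (σ : Equiv.Perm (Fin n)) (M : Matroid (Fin n)) : Prop :=
  ∀ X : Finset (Fin n), M.Indep (act σ X : Set (Fin n)) ↔ M.Indep (X : Set (Fin n))

/-- The number of the matroids of rank `r` which are invariant under `σ`. -/
noncomputable def nsym (n r : ℕ) (σ : Equiv.Perm (Fin n)) : ℕ :=
  Set.ncard {M : Matroid (Fin n) | Rk r M ∧ Inv σ M}

/-- The `r`-sets which contain exactly one of `x`, `y`. -/
def D2 (r : ℕ) (x y : Fin n) : Finset (Finset (Fin n)) :=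
  (V n r).filter fun X => ¬ (x ∈ X ↔ y ∈ X)

/-- `M` has no nontrivial automorphism. -/
def Asym (M : Matroid (Fin n)) : Prop := ∀ σ : Equiv.Perm (Fin n), M.mapEquiv σ = M → σ = 1

/-- INJ2. As INJ, with a weaker last hypothesis: `X` need not be undetermined, it only contains no
small circuit and is contained in no large hyperplane. Proof as for INJ (helper39,
`Pool/Agent/Helper39/KC/Inj.lean`): let `X'` be undetermined, not in `S`, and `X ∈ S` as given,
`X' = X - e + f`, `Z = X ∩ X'`, `Y = X ∪ X' = X' + e`. Case 1, `Z` independent in `M`: `Y` has rank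
`r - 1`, all `Y - g` are in `NB r M`, at most `Δ` of them in `A` (as `X' ∈ A` has less than `Δ`
neighbours in `A`). As `det` fails for `X'` (third rule, with the element `e`) there is `C ∈ thC`,
`C ⊆ Y`; `C` is contained neither in `X'` (`det` fails) nor in `X`, so `e, f ∈ C`; end as in INJ. Case
2, `Z` dependent in `M`: by the fourth rule for `X'` and the element `f` there is `H ∈ thH` with
`Z ⊆ H`, `f ∉ H` as `X'` is not contained in `H`, and `e ∉ H` as `X` is not; end as in INJ. -/
def Inj2Stmt : Prop := ∀ (n r t Δ : ℕ) (M M' : Matroid (Fin n)) (A S : Finset (Finset (Fin n))),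
  Rk r M → Rk r M' → A ⊆ V n r → Low A Δ → Δ + t ≤ r + 1 → Δ + t ≤ n - r + 1 →
  thC r t M = thC r t M' → thH r t M = thH r t M' → NB r M \ A = NB r M' \ A → S ⊆ NB r M' →
  (∀ X', Und r t Δ A ∅ M X' → X' ∉ S → ∃ X ∈ S, X ∈ NB r M ∧ (∀ C ∈ thC r t M, ¬ C ⊆ X) ∧
    (∀ H ∈ thH r t M, ¬ X ⊆ H) ∧ adj X X') →
  NB r M ⊆ NB r M'

/-- INVF. Invariance. Proof: `Inv σ M` says that `σ` is an automorphism of `M`; circuits, cocircuits
are preserved (e.g. `Inv σ M` implies `M.mapEquiv σ = M`), and `act σ Hᶜ = (act σ H)ᶜ`. -/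
def InvfStmt : Prop := ∀ (n r t : ℕ) (σ : Equiv.Perm (Fin n)) (M : Matroid (Fin n)),
  M.E = Set.univ → Inv σ M → ∀ X : Finset (Fin n),
  (act σ X ∈ NB r M ↔ X ∈ NB r M) ∧ (act σ X ∈ thC r t M ↔ X ∈ thC r t M) ∧
  (act σ X ∈ thH r t M ↔ X ∈ thH r t M)

/-- CNT2. The number of the invariant matroids. Proof as for CNT (helper62,
`Pool/Agent/Helper62/KC/Cnt.lean`), with `D = ∅`; only `S` is different: let `U` be the closure of the
set of the undetermined non-bases (`Und r t Δ₂ A ∅ M`) under `σ`; it is contained in `NB r M`, and by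
INVF its members contain no member of `thC r t M` and are contained in no member of `thH r t M`. Let
`S ⊆ U` be maximal with `Sym σ S`. Condition of INJ2: let `X'` be undetermined, `X' ∉ S`. The union of
`S` and the orbit of `X'` is invariant and larger than `S`, so it has two adjacent members in
different orbits, one in `S` and the other one in the orbit of `X'` (`S` is a union of orbits). As
adjacency and `S` are invariant, there is `X ∈ S` adjacent to `X'`. (The orbit of `X` is
`{act (σ^i) X | i}`, the order of `σ` is finite, `act σ` is injective.) -/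
def Cnt2Stmt : Prop := ∀ (n r t Δ₁ Δ₂ h u₁ a₁ u₂ : ℕ) (σ : Equiv.Perm (Fin n)),
  1 ≤ r → r < n → 1 ≤ Δ₁ → 1 ≤ Δ₂ → Δ₂ + t ≤ r + 1 → Δ₂ + t ≤ n - r + 1 →
  (∀ M : Matroid (Fin n), Rk r M → (thC r t M).card ≤ h ∧ (thH r t M).card ≤ h) →
  n.choose r < Δ₁ * (u₁ + 1) → n.choose r * (Δ₁ + r) < (a₁ + 1) * (r * (n - r + 1)) →
  a₁ < Δ₂ * (u₂ + 1) →
  nsym n r σ ≤ (bl (2 ^ n) h) ^ 2 * bl (n.choose r * (2 * (bl n t) ^ 2)) u₁ *
    bl (n.choose r * (2 * (bl n t) ^ 2)) u₂ * isym n r σ

/-- SYMC. The number of the symmetric families. Proof. Fix a representative in each orbit of `σ` on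
`V n r` of size at least two. Families `S` with at most `τ` such orbits: `S` is determined by the set
of its fixed members, which is stable (adjacent fixed members would be in the same orbit, i.e. equal)
and avoids `Mv r σ`, and the set of the at most `τ` representatives. Families with more than `τ` such
orbits: choose in each of them either the representative `X` or `act σ X ≠ X`; together with the fixed
members of `S` this gives at least `2^(τ+1)` distinct stable sets (members in different orbits are not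
adjacent), and each of these sets determines `S` as its closure under `σ`. -/
def SymcStmt : Prop := ∀ (n r τ : ℕ) (σ : Equiv.Perm (Fin n)),
  2 ^ τ * isym n r σ ≤ 2 ^ τ * (istab n r (Mv r σ) * bl (n.choose r) τ) + istab n r ∅

/-- AV2. The average number of the available vertices. Proof as for AV (helper9,
`Pool/Agent/Helper9/KC/Av.lean`): for `X ∈ D2 r x y` let `B X` be the set of the neighbours of `X`
outside `D2 r x y`. A vertex `v ∉ D2 r x y` is in at most `2 n` of these sets: if `x, y ∉ v` then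
`X = v - f + x` or `X = v - f + y` with `f ∈ v`; if `x, y ∈ v` then `X = v - x + g` or
`X = v - y + g` with `g ∉ v`. Everything else is as in AV, with `2 n` in place of `r`. -/
def Av2Stmt : Prop := ∀ (n r : ℕ) (x y : Fin n) (b : ℝ), x ≠ y → (D2 r x y).Nonempty →
  2 * n * Real.logb 2 (istab n r (D2 r x y)) ≤ b * (D2 r x y).card →
  open Classical in
  (istab n r (D2 r x y) : ℝ) * (D2 r x y).card * (2 : ℝ) ^ (-b) ≤
    ∑ S ∈ ((V n r) \ (D2 r x y)).powerset.filter Stb,
      (((D2 r x y).filter fun X => ∀ Y ∈ S, ¬ adj X Y).card : ℝ)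

/-- NUM2. As NUM, with a better exponent. Proof: the proof of NUM gives the exponent
`(N/n) · O(1/s)` with `(s+1)^16 > n`, and `(log₂ n)^2 = o(s)`. -/
def Num2Stmt : Prop := ∃ n₀, ∀ n ≥ n₀, ∀ r, Cen n r →
  ∃ t Δ₁ Δ₂ i h u₁ a₁ u₂ : ℕ, 1 ≤ r ∧ r < n ∧ 1 ≤ Δ₁ ∧ 1 ≤ Δ₂ ∧ Δ₂ + t ≤ r + 1 ∧
    Δ₂ + t ≤ n - r + 1 ∧ 2 ^ n < (h + 1) * t.choose i ∧ n.choose r < Δ₁ * (u₁ + 1) ∧
    n.choose r * (Δ₁ + r) < (a₁ + 1) * (r * (n - r + 1)) ∧ a₁ < Δ₂ * (u₂ + 1) ∧
    (((bl (2 ^ n) h) ^ 2 * bl (n.choose r * (2 * (bl n t) ^ 2)) u₁ *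
      bl (n.choose r * (2 * (bl n t) ^ 2)) u₂ : ℕ) : ℝ) ≤
      (2 : ℝ) ^ ((n.choose r : ℝ) / (n * (Real.logb 2 n) ^ 2))

end Pool.Agent.Helper53.KC
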