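import Pool.Agent.Helper53.KC.Goals2

/-!
# Connectivity of order `log n`: goals

The connectivity of almost every matroid on `n` elements is at least `c log n`. All goals are
independent: any goal may assume any other goal (also of `Goals.lean`, `Goals2.lean`) as a hypothesis.
-/

namespace Pool.Agent.Helper53.KC

open Finset

open Classical in
/-- The `r`-sets which contain all members of `C` but one. -/
noncomputable def Ly {n : ℕ} (r : ℕ) (C : Finset (Fin n)) : Finset (Finset (Fin n)) :=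
  (V n r).filter fun X => (X ∩ C).card + 1 = C.card

/-- LAY. The stable sets in the layer `Ly r C`. Proof. Write `c = |C|`. For `e ∈ C` let `L e` be the
set of the `X ∈ V n r` with `X ∩ C = C.erase e`; then `Ly r C` is the union of the sets `L e`, `e ∈ C`.
The map `S ↦ (S ∩ L e)_{e ∈ C}` is injective on the subsets of `Ly r C`, and `S ∩ L e` is stable if `S`
is. So it suffices that `L e` has at most `istab (n - c) (r + 1 - c) ∅` stable subsets. Let `ι` be the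
order embedding of `Fin (n - c)` onto `Cᶜ` (`Finset.orderEmbOfFin`). Then `X' ↦ X'.map ι ∪ C.erase e` is
a bijection of `V (n - c) (r + 1 - c)` onto `L e` and `adj` is preserved in both directions (sizes of
the sets and of the intersections grow by `c - 1`). -/
def LayStmt : Prop := ∀ (n r : ℕ) (C : Finset (Fin n)), 1 ≤ C.card → C.card ≤ r → r ≤ n →
  open Classical in
  ((Ly r C).powerset.filter Stb).card ≤ istab (n - C.card) (r + 1 - C.card) ∅ ^ C.card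

/-- AV3. The average number of the available vertices, localized version of AV. Proof (assumes ENT,
LAY). As for AV (helper9, `Pool/Agent/Helper9/KC/Av.lean`: theorem `av`, which may be imported, its
lemmas `BB`, `mem_BB`, `sw_facts`, `BB_count`, `adj_BB`, `fib_count`, `tangent` as well). Only the bound
for `∑_X ∑_S log₂ n_X(S)` is different. All sets `BB C X`, `X ∈ DC r C`, are contained in `Ly r C`.
Group the members of `I` by `T = S \ Ly r C`: `I_T = {S ∈ I | S \ Ly r C = T}`. For `S ∈ I_T` the set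
`{S' ∈ I | S' \ BB C X = S \ BB C X}` is contained in `I_T`. So ENT for `I_T` gives
`∑_X ∑_{S ∈ I_T} log₂ n_X(S) ≤ r |I_T| log₂ |I_T|`. The map `S ↦ S ∩ Ly r C` is injective on `I_T` and its
values are stable subsets of `Ly r C`, so `log₂ |I_T| ≤ c log₂ (istab (n - c) (r + 1 - c) ∅)` by LAY.
Sum over `T`: `∑_X ∑_{S ∈ I} log₂ n_X(S) ≤ |I| r c log₂ (istab ..) ≤ |I| b |DC r C|`. The rest of the
proof is the same. -/
def Av3Stmt : Prop := ∀ (n r : ℕ) (C : Finset (Fin n)) (b : ℝ), 1 ≤ C.card → C.card ≤ r → r ≤ n →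
  (DC r C).Nonempty →
  r * (C.card * Real.logb 2 (istab (n - C.card) (r + 1 - C.card) ∅)) ≤ b * (DC r C).card →
  open Classical in
  (istab n r (DC r C) : ℝ) * (DC r C).card * (2 : ℝ) ^ (-b) ≤
    ∑ S ∈ ((V n r) \ (DC r C)).powerset.filter Stb,
      (((DC r C).filter fun X => ∀ Y ∈ S, ¬ adj X Y).card : ℝ)

/-- NUM3. As NUM2, with a still better exponent. Proof: adapt the proof of NUM2 (helper13,
`Pool/Agent/Helper13/KC/Num2.lean`): replace `Lg ^ 2` in the exponents by `q = n^(1/17)`; for large `n`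
one has `100 (log₂ n)^2 ≤ s` and `100 n^(1/17) ≤ s` for `s = ⌊n^(1/16)⌋`, and only `q ≤ s` and
`100 q ≤ s` are used of `Lg ^ 2` in the exponents. -/
def Num3Stmt : Prop := ∃ n₀, ∀ n ≥ n₀, ∀ r, Cen n r →
  ∃ t Δ₁ Δ₂ i h u₁ a₁ u₂ : ℕ, 1 ≤ r ∧ r < n ∧ 1 ≤ Δ₁ ∧ 1 ≤ Δ₂ ∧ Δ₂ + t ≤ r + 1 ∧
    Δ₂ + t ≤ n - r + 1 ∧ 2 ^ n < (h + 1) * t.choose i ∧ n.choose r < Δ₁ * (u₁ + 1) ∧
    n.choose r * (Δ₁ + r) < (a₁ + 1) * (r * (n - r + 1)) ∧ a₁ < Δ₂ * (u₂ + 1) ∧
    (((bl (2 ^ n) h) ^ 2 * bl (n.choose r * (2 * (bl n t) ^ 2)) u₁ *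
      bl (n.choose r * (2 * (bl n t) ^ 2)) u₂ : ℕ) : ℝ) ≤
      (2 : ℝ) ^ ((n.choose r : ℝ) / (n * (n : ℝ) ^ ((1 : ℝ) / 17)))

/-- NUMS3. As NUMS, for all `r` between `n/4` and `3n/4`. -/
def Nums3Stmt : Prop := ∃ n₀, ∀ n ≥ n₀, ∀ r, n ≤ 4 * r → 4 * r ≤ 3 * n →
  ∃ Δ₁ Δ₂ u₁ a₁ u₂ a₂ : ℕ, 1 ≤ r ∧ r < n ∧ 1 ≤ Δ₁ ∧ 1 ≤ Δ₂ ∧ n.choose r < Δ₁ * (u₁ + 1) ∧
    n.choose r * (Δ₁ + r) < (a₁ + 1) * (r * (n - r + 1)) ∧ a₁ < Δ₂ * (u₂ + 1) ∧
    n.choose r * (Δ₂ + r) < (a₂ + 1) * (r * (n - r + 1)) ∧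
    ((bl (n.choose r) u₁ * bl (n.choose r) u₂ * 2 ^ a₂ : ℕ) : ℝ) ≤ (2 : ℝ) ^ (33 * n.choose r / n : ℝ)

/-- CEN3. Central ranks are between `3n/8` and `5n/8`. -/
def Cen3Stmt : Prop := ∃ n₀, ∀ n ≥ n₀, ∀ r, Cen n r → 3 * n ≤ 8 * r ∧ 8 * r ≤ 5 * n

end Pool.Agent.Helper53.KC
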